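import Pool.Agent.Lib.MP_2a1a00_nt.V.Stmt2

/-! The definitions used in the statement on towers of error terms. -/

namespace Pool.Agent.Lib.MP_2a1a00_nt

/-- The error term is real-valued. -/
def Sel.RE (F : Sel) : Prop := ∀ x : ℝ, 0 < x → (F.E x).im = 0

/-- The exponent `l (d - 1) / (2 d)`. -/
noncomputable def Sel.ex (F : Sel) (l : ℕ) : ℝ := l * (F.deg - 1) / (2 * F.deg)

/-- The moment formula with the constant `C` and the saving `δ`. -/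
def Sel.Mom (F : Sel) (l : ℕ) (C : ℂ) (δ : ℝ) : Prop :=
  ∀ ε : ℝ, 0 < ε → ∃ K : ℝ, ∀ T : ℝ, 1 ≤ T →
    ‖(∫ x in (1 : ℝ)..T, F.E x ^ l) - C * (T ^ (1 + F.ex l) : ℝ)‖ ≤ K * T ^ (1 + F.ex l - δ + ε)

/-- The square of the modulus on the critical line. -/
noncomputable def Sel.sq (L : Sel) (x : ℝ) : ℝ := ‖L.L (1 / 2 + x * Complex.I)‖ ^ 2

/-- The mean square formula with the polynomial `P` and the saving `η`. -/
def Sel.Msq (L : Sel) (P : Polynomial ℝ) (η : ℝ) : Prop :=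
  ∃ K : ℝ, ∀ T : ℝ, 1 ≤ T →
    |(∫ t in (1 : ℝ)..T, L.sq t) - T * P.eval (Real.log T)| ≤ K * T ^ (1 - η)

/-- The asymptotic formula `∫ h = c T ^ a Q (log T) + O (T ^ (a - δ))`. -/
def Asy (h : ℝ → ℂ) (a : ℝ) (c : ℂ) (P : Polynomial ℝ) : Prop :=
  (∀ T : ℝ, 1 ≤ T → IntervalIntegrable h MeasureTheory.volume 1 T) ∧
    ∃ Q : Polynomial ℝ, Q.degree = P.degree ∧
      Polynomial.C a * Q + Polynomial.derivative Q = P + Polynomial.derivative P ∧
      ∃ δ : ℝ, 0 < δ ∧ ∃ K : ℝ, ∀ T : ℝ, 1 ≤ T →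
        ‖(∫ x in (1 : ℝ)..T, h x) - c * (T ^ a * Q.eval (Real.log T) : ℝ)‖ ≤ K * T ^ (a - δ)

/-- The relation between two consecutive scales `v` and `u` for a factor of degree `d` with the
exponent `l`. -/
def Step (d : ℝ) (l : ℕ) (v u : ℝ) : Prop :=
  u ≤ v ∧ (u + l / d < v ∨ (d + 1) / (2 * d) < v ∨
    (d = 2 ∧ (l - 1) * (1 - v) + max (u - 1 / 4) 0 < l / 4))

/-- The scales `u i, ..., u k` are admissible for the factors with the indices `i, ..., k - 1`. -/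
def Chain (F : ℕ → Sel) (l : ℕ → ℕ) (δ u : ℕ → ℝ) (i k : ℕ) : Prop :=
  ∀ j, i ≤ j → j < k → u (j + 1) < δ j ∧ Step (F j).deg (l j) (u j) (u (j + 1))

end Pool.Agent.Lib.MP_2a1a00_nt
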