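import Pool.Agent.Lib.MP_2a1a00_nt.S.Defs

/-! Chaining: from the mean square of increments to the quadratic variation. -/

namespace Pool.Agent.Lib.MP_2a1a00_nt

open MeasureTheory Set

variable {g : ℝ → ℝ}

theorem LI.mul {W : ℝ → ℝ} (hW : LI W) (hg : LB g) : LI fun y => W y * g y := by
  intro p q hp hq
  obtain ⟨K, hK⟩ := hg.2 (max p q)
  rw [intervalIntegrable_iff]
  refine Integrable.mul_bdd (c := K) (intervalIntegrable_iff.1 (hW p q hp hq))
    hg.1.aestronglyMeasurable ?_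
  filter_upwards [ae_restrict_mem measurableSet_uIoc] with y hy
  exact hK y ⟨(le_min hp hq).trans hy.1.le, hy.2⟩

theorem LB.li (hg : LB g) : LI g := by
  have h : LI fun _ => (1 : ℝ) := fun _ _ _ _ => intervalIntegrable_const
  simpa using h.mul hg

theorem LB.pow (hg : LB g) (l : ℕ) : LB fun y => g y ^ l := by
  refine ⟨hg.1.pow_const l, fun Y => ?_⟩
  obtain ⟨K, hK⟩ := hg.2 Y
  exact ⟨K ^ l, fun y hy => by
    rw [abs_pow]; exact pow_le_pow_left₀ (abs_nonneg _) (hK y hy) l⟩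

theorem LB.dif (hg : LB g) {v : ℝ} (hv : 0 ≤ v) : LB fun y => g (y + v) - g y := by
  refine ⟨(hg.1.comp (measurable_id.add_const v)).sub hg.1, fun Y => ?_⟩
  obtain ⟨K, hK⟩ := hg.2 (Y + v)
  refine ⟨K + K, fun y hy => (abs_sub _ _).trans (add_le_add (hK _ ⟨?_, ?_⟩) (hK _ ⟨hy.1, ?_⟩))⟩ <;>
    linarith [hy.1, hy.2]

theorem LB.inc (hg : LB g) {v : ℝ} (hv : 0 ≤ v) : LB fun y => (g (y + v) - g y) ^ 2 :=
  (hg.dif hv).pow 2

theorem sq_int_le (hg : LB g) {a v : ℝ} (ha : 0 ≤ a) (hv : 0 < v) :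
    (∫ t in a..a + v, g t) ^ 2 ≤ v * ∫ t in a..a + v, g t ^ 2 := by
  set c := (∫ t in a..a + v, g t) / v with hc
  have i1 := hg.li a (a + v) ha (by linarith)
  have i2 := (hg.pow 2).li a (a + v) ha (by linarith)
  have h0 : 0 ≤ ∫ t in a..a + v, (g t ^ 2 - 2 * c * g t + c ^ 2) :=
    intervalIntegral.integral_nonneg (by linarith) fun t _ => by nlinarith [sq_nonneg (g t - c)]
  rw [intervalIntegral.integral_add (i2.sub (i1.const_mul _)) intervalIntegrable_const,
    intervalIntegral.integral_sub i2 (i1.const_mul _), intervalIntegral.integral_const_mul,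
    intervalIntegral.integral_const] at h0
  have e : ∫ t in a..a + v, g t = c * v := by rw [hc]; field_simp
  rw [e] at h0 ⊢
  simp only [add_sub_cancel_left, smul_eq_mul] at h0
  nlinarith

theorem sum_adj (hg : LI g) {p η : ℝ} (hp : 0 ≤ p) (hη : 0 ≤ η) (N : ℕ) :
    ∑ i ∈ Finset.range N, ∫ t in p + i * η..p + (i + 1) * η, g t = ∫ t in p..p + N * η, g t := by
  have := intervalIntegral.sum_integral_adjacent_intervals (f := g) (μ := volume)
    (a := fun i : ℕ => p + i * η) (n := N) fun k _ => hg _ _ (by positivity) (by positivity)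
  simpa using this

theorem sum_pair (f : ℕ → ℝ) (N : ℕ) :
    ∑ j ∈ Finset.range (2 * N), f j = ∑ i ∈ Finset.range N, (f (2 * i) + f (2 * i + 1)) := by
  induction N with
  | zero => simp
  | succ n ih => rw [Nat.mul_succ, Finset.sum_range_succ, Finset.sum_range_succ,
      Finset.sum_range_succ, ih]; ring

theorem sub_Icc {p η : ℝ} (hη : 0 ≤ η) {N i : ℕ} (hi : i < N) :
    Icc (p + i * η) (p + (i + 1) * η) ⊆ Icc p (p + N * η) := by
  have h : (i : ℝ) + 1 ≤ N := by exact_mod_cast hi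
  refine Icc_subset_Icc ?_ ?_
  · have : 0 ≤ (i : ℝ) * η := by positivity
    linarith
  · nlinarith

/-- Induction on `n`: halve all intervals. The means over the two halves of an interval of length
`2 v` differ by `v⁻¹ ∫ (g (y + v) - g y)`. -/
theorem chain2 (hg : LB g) {M B : ℝ} (hB0 : 0 ≤ B) (n : ℕ) : ∀ (p η : ℝ) (N : ℕ), 0 ≤ p → 0 < η →
    (∀ y ∈ Icc p (p + N * η), ∀ y' ∈ Icc p (p + N * η), |y - y'| ≤ η / 2 ^ n → |g y - g y'| ≤ M) →
    (∀ v : ℝ, η / 2 ^ n ≤ v → v ≤ η / 2 →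
      ∫ y in p..p + N * η, (g (y + v) - g y) ^ 2 ≤ v * B) →
    ∃ o : ℕ → ℝ, (∀ i < N, ∀ y ∈ Icc (p + i * η) (p + (i + 1) * η),
      |g y - η⁻¹ * ∫ t in p + i * η..p + (i + 1) * η, g t| ≤ M + o i) ∧
        ∑ i ∈ Finset.range N, o i ^ 2 ≤ (n + 1) ^ 2 * B := by
  induction n with
  | zero =>
    intro p η N hp hη hM _
    refine ⟨fun _ => 0, fun i hi y hy => ?_, by simpa using hB0⟩
    have i1 := hg.li (p + i * η) (p + (i + 1) * η) (by positivity) (by positivity)
    have e : g y - η⁻¹ * ∫ t in p + i * η..p + (i + 1) * η, g t =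
        η⁻¹ * ∫ t in p + i * η..p + (i + 1) * η, (g y - g t) := by
      rw [intervalIntegral.integral_sub intervalIntegrable_const i1, intervalIntegral.integral_const]
      simp only [smul_eq_mul]
      field_simp
      ring
    have hle : p + i * η ≤ p + (i + 1) * η := by nlinarith
    have h := intervalIntegral.norm_integral_le_of_norm_le_const (C := M)
      (a := p + i * η) (b := p + (i + 1) * η) (f := fun t => g y - g t) fun t ht => by
        rw [uIoc_of_le hle] at ht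
        refine hM y (sub_Icc hη.le hi hy) t (sub_Icc hη.le hi ⟨ht.1.le, ht.2⟩) ?_
        rw [pow_zero, div_one, abs_le]
        constructor <;> nlinarith [ht.1, ht.2, hy.1, hy.2]
    rw [show p + (i + 1) * η - (p + i * η) = η by ring, abs_of_pos hη, Real.norm_eq_abs] at h
    rw [e, abs_mul, abs_of_pos (inv_pos.2 hη), inv_mul_le_iff₀ hη, add_zero]
    linarith
  | succ n ih =>
    intro p η N hp hη hM hI
    set v := η / 2 with hv
    have v0 : 0 < v := by positivity
    have ev : η = 2 * v := by rw [hv]; ring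
    have e1 : p + ((2 * N : ℕ) : ℝ) * v = p + N * η := by push_cast; rw [ev]; ring
    have e2 : v / 2 ^ n = η / 2 ^ (n + 1) := by rw [hv, pow_succ]; field_simp
    obtain ⟨o, ho, hs⟩ := ih p v (2 * N) hp v0 (by rw [e1, e2]; exact hM)
      (by rw [e1, e2]; exact fun w h1 h2 => hI w h1 (by linarith))
    set D : ℕ → ℝ := fun i => ∫ t in p + i * η..p + i * η + v, (g (t + v) - g t) with hD
    refine ⟨fun i => max |o (2 * i)| |o (2 * i + 1)| + |D i| / η, fun i hi y hy => ?_, ?_⟩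
    · have a0 : 0 ≤ p + i * η := by positivity
      set a := p + i * η with ha
      have f1 : p + ((2 * i : ℕ) : ℝ) * v = a := by push_cast; rw [ha, ev]; ring
      have f2 : p + (((2 * i : ℕ) : ℝ) + 1) * v = a + v := by push_cast; rw [ha, ev]; ring
      have f3 : p + ((2 * i + 1 : ℕ) : ℝ) * v = a + v := by push_cast; rw [ha, ev]; ring
      have f4 : p + (((2 * i + 1 : ℕ) : ℝ) + 1) * v = a + v + v := by push_cast; rw [ha, ev]; ring
      have f5 : p + (i + 1) * η = a + v + v := by rw [ha, ev]; ring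
      have o1 := ho (2 * i) (by omega) y
      have o2 := ho (2 * i + 1) (by omega) y
      rw [f1, f2] at o1
      rw [f3, f4] at o2
      rw [f5] at hy ⊢
      have i1 := hg.li a (a + v) a0 (by positivity)
      have i2 := hg.li (a + v) (a + v + v) (by positivity) (by positivity)
      have hDi : D i = (∫ t in a + v..a + v + v, g t) - ∫ t in a..a + v, g t := by
        have i3 : IntervalIntegrable (fun t => g (t + v)) volume a (a + v) := by
          simpa using i2.comp_add_right v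
        simp only [hD]
        rw [intervalIntegral.integral_sub i3 i1, intervalIntegral.integral_comp_add_right]
      rw [← intervalIntegral.integral_add_adjacent_intervals i1 i2]
      set A₁ := ∫ t in a..a + v, g t
      set A₂ := ∫ t in a + v..a + v + v, g t
      have hd : |D i / η| = |D i| / η := by rw [abs_div, abs_of_pos hη]
      rcases le_total y (a + v) with h | h
      · have := (o1 ⟨hy.1, h⟩).trans (add_le_add_right
          ((le_abs_self _).trans (le_max_left _ |o (2 * i + 1)|)) M)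
        have e : g y - η⁻¹ * (A₁ + A₂) = (g y - v⁻¹ * A₁) - D i / η := by
          rw [hDi, ev]; field_simp; ring
        rw [e]
        exact (abs_sub _ _).trans ((add_le_add this hd.le).trans_eq (add_assoc _ _ _))
      · have := (o2 ⟨h, hy.2⟩).trans (add_le_add_right
          ((le_abs_self _).trans (le_max_right |o (2 * i)| _)) M)
        have e : g y - η⁻¹ * (A₁ + A₂) = (g y - v⁻¹ * A₂) + D i / η := by
          rw [hDi, ev]; field_simp; ring
        rw [e]
        exact (abs_add_le _ _).trans ((add_le_add this hd.le).trans_eq (add_assoc _ _ _))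
    · have h1 : ∑ i ∈ Finset.range N, max |o (2 * i)| |o (2 * i + 1)| ^ 2 ≤ (n + 1) ^ 2 * B := by
        refine le_trans ?_ hs
        rw [sum_pair]
        refine Finset.sum_le_sum fun i _ => ?_
        rcases le_total |o (2 * i)| |o (2 * i + 1)| with h | h
        · rw [max_eq_right h, sq_abs]; nlinarith [sq_nonneg (o (2 * i))]
        · rw [max_eq_left h, sq_abs]; nlinarith [sq_nonneg (o (2 * i + 1))]
      have h2 : ∑ i ∈ Finset.range N, D i ^ 2 ≤ v * (v * B) := by
        have h3 : η / 2 ^ (n + 1) ≤ v := by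
          rw [← e2]; exact div_le_self v0.le (one_le_pow₀ one_le_two)
        refine le_trans ?_ (mul_le_mul_of_nonneg_left (hI v h3 le_rfl) v0.le)
        rw [← sum_adj (hg.inc v0.le).li hp hη.le, Finset.mul_sum]
        refine Finset.sum_le_sum fun i _ => (sq_int_le (hg.dif v0.le) (by positivity) v0).trans
          (mul_le_mul_of_nonneg_left ?_ v0.le)
        refine intervalIntegral.integral_mono_interval le_rfl (by linarith) (by rw [ev]; nlinarith)
          (ae_of_all _ fun t => sq_nonneg _) ((hg.inc v0.le).li _ _ (by positivity) (by positivity))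
      have m0 : (0 : ℝ) < n + 1 := by positivity
      set m : ℝ := n + 1 with hm
      have h3 : m * ∑ i ∈ Finset.range N, (max |o (2 * i)| |o (2 * i + 1)| + |D i| / η) ^ 2 ≤
          (m + 1) * ∑ i ∈ Finset.range N, max |o (2 * i)| |o (2 * i + 1)| ^ 2 +
            m * (m + 1) / η ^ 2 * ∑ i ∈ Finset.range N, D i ^ 2 := by
        rw [Finset.mul_sum, Finset.mul_sum, Finset.mul_sum, ← Finset.sum_add_distrib]
        refine Finset.sum_le_sum fun i _ => ?_
        have e : m * (m + 1) / η ^ 2 * D i ^ 2 = m * (m + 1) * (|D i| / η) ^ 2 := by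
          rw [div_pow, sq_abs]; field_simp
        rw [e]
        nlinarith [sq_nonneg (max |o (2 * i)| |o (2 * i + 1)| - m * (|D i| / η))]
      have h4 : m * (m + 1) / η ^ 2 * ∑ i ∈ Finset.range N, D i ^ 2 ≤ m * (m + 1) / 4 * B := by
        refine (mul_le_mul_of_nonneg_left h2 (by positivity)).trans_eq ?_
        rw [ev]; field_simp; ring
      have h5 := mul_le_mul_of_nonneg_left h1 (by positivity : 0 ≤ m + 1)
      push_cast
      refine le_of_mul_le_mul_left ?_ m0
      have h6 : 0 ≤ m * (m + 1) * B := by positivity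
      nlinarith

theorem lin_le {ε : ℝ} (hε : 0 < ε) {Y : ℝ} (hY : 0 ≤ Y) :
    Y + 1 ≤ (1 / ε + 1) * Real.exp (ε * Y) := by
  have h1 := Real.add_one_le_exp (ε * Y)
  have h2 : 1 ≤ Real.exp (ε * Y) := Real.one_le_exp (by positivity)
  have h3 : Y ≤ 1 / ε * Real.exp (ε * Y) := by
    rw [one_div, ← div_eq_inv_mul, le_div_iff₀ hε]; linarith
  linarith

theorem var_of (hg : LB g) (hl : Lip g) {ν : ℝ} (hν : 0 ≤ ν) (h : Inc g ν) : Var g ν := by
  intro ε hε
  set e := min (ε / 4) 1 with he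
  have e0 : 0 < e := lt_min (by linarith) one_pos
  have e1 : e ≤ 1 := min_le_right _ _
  have e2 : e ≤ ε / 4 := min_le_left _ _
  obtain ⟨K₁, k1, h1⟩ := hl e e0
  obtain ⟨K₂, k2, h2⟩ := h e e0
  refine ⟨8 * (2 * (1 / e + 1)) ^ 2 * (8 * K₁ ^ 2 + 2 * K₂) + 32 * K₁ ^ 2, by positivity,
    fun Y p η N hY hp hq hη => ?_⟩
  rcases Nat.eq_zero_or_pos N with rfl | hN
  · exact ⟨fun _ => 0, fun i hi => absurd hi (by omega), by simp; positivity⟩
  have η0 : 0 < η := (Real.exp_pos _).trans_le hη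
  have hN' : (1 : ℝ) ≤ N := by exact_mod_cast hN
  have hNη : N * η ≤ 1 := by linarith
  have η1 : η ≤ 1 := by nlinarith
  have x0 := Real.exp_pos Y
  have x1 : Real.exp (-Y) * Real.exp Y = 1 := by rw [← Real.exp_add]; simp
  obtain ⟨n, n1, n2⟩ := exists_nat_pow_near (x := η * Real.exp Y) (y := 2) (by nlinarith) one_lt_two
  have hsub : Icc p (p + N * η) ⊆ Icc Y (Y + 1) := Icc_subset_Icc hp hq
  have t0 : (0 : ℝ) < 2 ^ (n + 1) := by positivity
  have ex1 : Real.exp ((1 + ν + 2 * e) * Y) = Real.exp (e * Y) * Real.exp ((1 + ν + e) * Y) := by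
    rw [← Real.exp_add]; congr 1; ring
  obtain ⟨o, ho, hs⟩ := chain2 hg (M := K₁ * 2 * Real.exp (e * Y))
    (B := (8 * K₁ ^ 2 + 2 * K₂) * Real.exp ((1 + ν + 2 * e) * Y)) (by positivity) (n + 1) p η N
    (hY.trans hp) η0
    (fun y hy y' hy' hyy => (h1 Y hY y (hsub hy) y' (hsub hy')).trans (by
      have : |y - y'| * Real.exp Y ≤ 1 := by
        rw [le_div_iff₀ t0] at hyy
        refine le_of_mul_le_mul_right ?_ t0
        nlinarith
      gcongr
      linarith))
    (fun v v1 v2 => by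
      have v0 : 0 < v := lt_of_lt_of_le (by positivity) v1
      have a1 : ∫ y in p..p + N * η, (g (y + v) - g y) ^ 2 ≤
          ∫ y in Y..Y + 1, (g (y + v) - g y) ^ 2 :=
        intervalIntegral.integral_mono_interval hp (by nlinarith) hq
          (ae_of_all _ fun t => sq_nonneg _) ((hg.inc v0.le).li _ _ hY (by positivity))
      have a2 : v⁻¹ ≤ 2 * Real.exp Y := by
        rw [div_le_iff₀ t0, pow_succ] at v1
        rw [inv_le_iff_one_le_mul₀ v0]
        refine le_of_mul_le_mul_left ?_ η0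
        nlinarith
      have a3 : v ^ (1 - e) ≤ v * (2 * Real.exp (e * Y)) := by
        rw [Real.rpow_sub v0, Real.rpow_one, div_eq_mul_inv, ← Real.inv_rpow v0.le]
        gcongr
        calc v⁻¹ ^ e ≤ (2 * Real.exp Y) ^ e := by gcongr
          _ = 2 ^ e * Real.exp (e * Y) := by
            rw [Real.mul_rpow zero_le_two x0.le, ← Real.exp_mul, mul_comm Y]
          _ ≤ _ := by
            gcongr
            simpa using Real.rpow_le_rpow_of_exponent_le one_le_two e1
      refine a1.trans ((h2 Y v hY v0 (by linarith)).trans ?_)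
      calc K₂ * v ^ (1 - e) * Real.exp ((1 + ν + e) * Y)
          ≤ K₂ * (v * (2 * Real.exp (e * Y))) * Real.exp ((1 + ν + e) * Y) := by gcongr
        _ = v * (2 * K₂ * Real.exp ((1 + ν + 2 * e) * Y)) := by rw [ex1]; ring
        _ ≤ _ := by gcongr; nlinarith)
  refine ⟨fun i => 2 * (K₁ * 2 * Real.exp (e * Y) + o i), fun i hi y hy => ?_, ?_⟩
  · have a1 := ho i hi y hy
    have a2 := ho i hi (p + i * η) ⟨le_rfl, by nlinarith⟩
    rw [abs_le] at a1 a2 ⊢
    constructor <;> linarith [a1.1, a1.2, a2.1, a2.2]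
  · have a1 : (n : ℝ) ≤ 2 * Y := by
      have b1 : (2 : ℝ) ^ n ≤ Real.exp Y := by nlinarith
      have b2 := Real.log_le_log (by positivity) b1
      rw [Real.log_pow, Real.log_exp] at b2
      nlinarith [Real.log_two_gt_d9, (Nat.cast_nonneg n : (0 : ℝ) ≤ n)]
    have a2 : ((n + 1 : ℕ) : ℝ) + 1 ≤ 2 * (1 / e + 1) * Real.exp (e * Y) := by
      have := lin_le e0 hY
      push_cast; linarith
    have a3 : Real.exp (e * Y) ^ 2 * Real.exp ((1 + ν + 2 * e) * Y) ≤
        Real.exp ((1 + ν + ε) * Y) := by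
      rw [← Real.exp_nat_mul, ← Real.exp_add]
      exact Real.exp_le_exp.2 (by push_cast; nlinarith)
    have a4 : N * Real.exp (e * Y) ^ 2 ≤ Real.exp ((1 + ν + ε) * Y) := by
      have b1 : (N : ℝ) ≤ Real.exp Y := by nlinarith
      refine (mul_le_mul_of_nonneg_right b1 (by positivity)).trans ?_
      rw [← Real.exp_nat_mul, ← Real.exp_add]
      exact Real.exp_le_exp.2 (by push_cast; nlinarith)
    calc ∑ i ∈ Finset.range N, (2 * (K₁ * 2 * Real.exp (e * Y) + o i)) ^ 2
        ≤ ∑ i ∈ Finset.range N, (8 * o i ^ 2 + 32 * K₁ ^ 2 * Real.exp (e * Y) ^ 2) :=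
          Finset.sum_le_sum fun i _ => by nlinarith [sq_nonneg (K₁ * 2 * Real.exp (e * Y) - o i)]
      _ = 8 * ∑ i ∈ Finset.range N, o i ^ 2 + 32 * K₁ ^ 2 * (N * Real.exp (e * Y) ^ 2) := by
          rw [Finset.sum_add_distrib, ← Finset.mul_sum, Finset.sum_const, Finset.card_range,
            nsmul_eq_mul]
          ring
      _ ≤ 8 * ((2 * (1 / e + 1) * Real.exp (e * Y)) ^ 2 *
          ((8 * K₁ ^ 2 + 2 * K₂) * Real.exp ((1 + ν + 2 * e) * Y))) +
          32 * K₁ ^ 2 * Real.exp ((1 + ν + ε) * Y) := by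
          gcongr; exact hs.trans (by gcongr)
      _ = 8 * (2 * (1 / e + 1)) ^ 2 * (8 * K₁ ^ 2 + 2 * K₂) *
          (Real.exp (e * Y) ^ 2 * Real.exp ((1 + ν + 2 * e) * Y)) +
          32 * K₁ ^ 2 * Real.exp ((1 + ν + ε) * Y) := by ring
      _ ≤ _ := by rw [add_mul (8 * _ * _)]; gcongr

variable {l : ℕ} {b ν v u : ℝ}

theorem Ob.nonneg {p η : ℝ} {N : ℕ} {o : ℕ → ℝ} (h : Ob g p η N o) (hη : 0 ≤ η) {i : ℕ}
    (hi : i < N) : 0 ≤ o i :=
  (abs_nonneg _).trans (h i hi (p + i * η) ⟨le_rfl, by nlinarith⟩)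

theorem osc_cnt {Y η : ℝ} {N : ℕ} (h2 : η ≤ 2 * Real.exp (-v * Y))
    (h3 : Real.exp (-u * Y) ≤ N * η) : Real.exp ((v - u) * Y) ≤ 2 * N := by
  have e : Real.exp ((v - u) * Y) * Real.exp (-v * Y) = Real.exp (-u * Y) := by
    rw [← Real.exp_add]; congr 1; ring
  refine le_of_mul_le_mul_right ?_ (Real.exp_pos (-v * Y))
  have := mul_le_mul_of_nonneg_left h2 (Nat.cast_nonneg N)
  linarith

theorem osc_fin {Y η c κ : ℝ} {N : ℕ} (hY : 0 ≤ Y) (h2 : η ≤ 2 * Real.exp (-v * Y))
    (h3 : Real.exp (-u * Y) ≤ N * η) (hc : c ≤ v - u + (b - κ)) :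
    Real.exp (c * Y) ≤ 2 * N * Real.exp ((b - κ) * Y) := by
  calc Real.exp (c * Y) ≤ Real.exp ((v - u) * Y) * Real.exp ((b - κ) * Y) := by
        rw [← Real.exp_add]; exact Real.exp_le_exp.2 (by nlinarith)
    _ ≤ _ := by gcongr; exact osc_cnt h2 h3

theorem sum_pow_le {o : ℕ → ℝ} {N : ℕ} {s : ℝ} (hl : 2 ≤ l) (h0 : ∀ i < N, 0 ≤ o i)
    (h1 : ∀ i < N, o i ≤ s) :
    ∑ i ∈ Finset.range N, o i ^ l ≤ s ^ (l - 2) * ∑ i ∈ Finset.range N, o i ^ 2 := by
  rw [Finset.mul_sum]
  refine Finset.sum_le_sum fun i hi => ?_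
  have hi := Finset.mem_range.1 hi
  obtain ⟨k, rfl⟩ := Nat.exists_eq_add_of_le' hl
  rw [pow_add, Nat.add_sub_cancel]
  have := h0 i hi
  gcongr
  exact h1 i hi

theorem osc_a (h : Var g ν) (hl : 2 ≤ l) (hv : v ≤ 1) (hc : u + l * (1 + ν) / 2 - b < v) :
    Osc g l b v u := by
  set γ := v - (u + l * (1 + ν) / 2 - b) with hγ
  have γ0 : 0 < γ := by linarith
  have l0 : (0 : ℝ) < l := by exact_mod_cast (by omega : 0 < l)
  obtain ⟨K, k0, hK⟩ := h (γ / l) (by positivity)
  refine ⟨γ / 2, by positivity, √K ^ l * 2, by positivity, fun Y p η N hY hp hq h1 h2 h3 => ?_⟩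
  have η0 : 0 < η := (Real.exp_pos _).trans_le h1
  obtain ⟨o, ho, hs⟩ := hK Y p η N hY hp hq ((Real.exp_le_exp.2 (by nlinarith)).trans h1)
  refine ⟨o, ho, ?_⟩
  set s := √K * Real.exp ((1 + ν + γ / l) / 2 * Y) with hs'
  have s0 : 0 ≤ s := by positivity
  have e : K * Real.exp ((1 + ν + γ / l) * Y) = s ^ 2 := by
    rw [hs', mul_pow, Real.sq_sqrt k0, ← Real.exp_nat_mul]; congr 2; push_cast; ring
  rw [e] at hs
  have a1 : ∀ i < N, o i ≤ s := fun i hi => (abs_le_of_sq_le_sq' ((Finset.single_le_sum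
    (f := fun i => o i ^ 2) (fun _ _ => sq_nonneg _) (Finset.mem_range.2 hi)).trans hs) s0).2
  refine (sum_pow_le hl (fun i hi => ho.nonneg η0.le hi) a1).trans ?_
  calc s ^ (l - 2) * ∑ i ∈ Finset.range N, o i ^ 2 ≤ s ^ (l - 2) * s ^ 2 := by gcongr
    _ = √K ^ l * Real.exp (l * ((1 + ν + γ / l) / 2) * Y) := by
      rw [← pow_add, Nat.sub_add_cancel hl, hs', mul_pow, ← Real.exp_nat_mul, mul_assoc]
    _ ≤ √K ^ l * (2 * N * Real.exp ((b - γ / 2) * Y)) := by
      gcongr
      refine osc_fin hY h2 h3 (le_of_eq ?_)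
      have : l * ((1 + ν + γ / l) / 2) = l * (1 + ν) / 2 + γ / 2 := by field_simp
      rw [this, hγ]; ring
    _ = _ := by ring

theorem Lip.ob (hL : Lip g) (v : ℝ) {ε : ℝ} (hε : 0 < ε) : ∃ K : ℝ, 0 ≤ K ∧
    ∀ (Y p η : ℝ) (N : ℕ), 0 ≤ Y → Y ≤ p → p + N * η ≤ Y + 1 → 0 ≤ η →
      η ≤ 2 * Real.exp (-v * Y) →
      Ob g p η N fun _ => K * Real.exp ((max (1 - v) 0 + ε) * Y) := by
  obtain ⟨K, k0, hK⟩ := hL ε hε
  refine ⟨3 * K, by positivity, fun Y p η N hY hp hq η0 h2 i hi y hy => ?_⟩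
  have hsub : Icc p (p + N * η) ⊆ Icc Y (Y + 1) := Icc_subset_Icc hp hq
  refine (hK Y hY y (hsub (sub_Icc η0 hi hy)) _
    (hsub (sub_Icc η0 hi ⟨le_rfl, by nlinarith⟩))).trans ?_
  have a1 : |y - (p + i * η)| ≤ 2 * Real.exp (-v * Y) := by
    rw [abs_le]; constructor <;> nlinarith [hy.1, hy.2]
  have a2 : Real.exp (-v * Y) * Real.exp Y ≤ Real.exp (max (1 - v) 0 * Y) := by
    rw [← Real.exp_add]
    exact Real.exp_le_exp.2 (by nlinarith [le_max_left (1 - v) 0])
  have a3 : 1 ≤ Real.exp (max (1 - v) 0 * Y) :=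
    Real.one_le_exp (mul_nonneg (le_max_right _ _) hY)
  have a4 : |y - (p + i * η)| * Real.exp Y + 1 ≤ 3 * Real.exp (max (1 - v) 0 * Y) := by
    nlinarith [Real.exp_pos Y]
  calc _ ≤ K * (3 * Real.exp (max (1 - v) 0 * Y)) * Real.exp (ε * Y) := by gcongr
    _ = _ := by rw [add_mul, Real.exp_add]; ring

theorem osc_b (h : Var g ν) (hL : Lip g) (hl : 2 ≤ l) (hv : v ≤ 1)
    (hc : (l - 2) * (1 - v) + 1 + ν + u - b < v) : Osc g l b v u := by
  set γ := v - ((l - 2) * (1 - v) + 1 + ν + u - b) with hγ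
  have γ0 : 0 < γ := by linarith
  have l0 : (2 : ℝ) ≤ l := by exact_mod_cast hl
  set ε := γ / (2 * l) with hε
  have ε0 : 0 < ε := by positivity
  have ε1 : l * ε = γ / 2 := by rw [hε]; field_simp
  obtain ⟨K, k0, hK⟩ := h ε ε0
  obtain ⟨K', k1, hK'⟩ := hL.ob v ε0
  refine ⟨γ / 2, by positivity, K' ^ (l - 2) * K * 2, by positivity,
    fun Y p η N hY hp hq h1 h2 h3 => ?_⟩
  have η0 : 0 < η := (Real.exp_pos _).trans_le h1
  obtain ⟨o, ho, hs⟩ := hK Y p η N hY hp hq ((Real.exp_le_exp.2 (by nlinarith)).trans h1)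
  have ho' := hK' Y p η N hY hp hq η0.le h2
  rw [max_eq_left (by linarith)] at ho'
  set s := K' * Real.exp ((1 - v + ε) * Y) with hs'
  have s0 : 0 ≤ s := by positivity
  refine ⟨fun i => min (o i) s, fun i hi y hy => le_min (ho i hi y hy) (ho' i hi y hy), ?_⟩
  refine (sum_pow_le (s := s) hl (fun i hi => le_min (ho.nonneg η0.le hi) s0)
    fun i _ => min_le_right _ _).trans ?_
  have a1 : ∑ i ∈ Finset.range N, min (o i) s ^ 2 ≤ K * Real.exp ((1 + ν + ε) * Y) :=
    (Finset.sum_le_sum fun i hi => pow_le_pow_left₀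
      (le_min (ho.nonneg η0.le (Finset.mem_range.1 hi)) s0) (min_le_left _ _) 2).trans hs
  calc _ ≤ s ^ (l - 2) * (K * Real.exp ((1 + ν + ε) * Y)) := by gcongr
    _ = K' ^ (l - 2) * K * Real.exp (((l - 2) * (1 - v + ε) + (1 + ν + ε)) * Y) := by
      rw [hs', mul_pow, ← Real.exp_nat_mul, add_mul _ (1 + ν + ε), Real.exp_add, Nat.cast_sub hl]
      push_cast; ring_nf
    _ ≤ K' ^ (l - 2) * K * (2 * N * Real.exp ((b - γ / 2) * Y)) := by
      gcongr
      refine osc_fin hY h2 h3 ?_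
      nlinarith
    _ = _ := by ring

theorem osc_c (hL : Lip g) (hb : 0 < b) (hc : l * (1 - v) < b) : Osc g l b v u := by
  have l0 : (0 : ℝ) ≤ l := Nat.cast_nonneg l
  set γ := b - l * max (1 - v) 0 with hγ
  have γ0 : 0 < γ := by
    rcases le_total (1 - v) 0 with h | h
    · rw [hγ, max_eq_right h]; linarith
    · rw [hγ, max_eq_left h]; linarith
  set ε := γ / (2 * (l + 1)) with hε
  have ε0 : 0 < ε := by positivity
  have ε1 : (l + 1) * ε = γ / 2 := by rw [hε]; field_simp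
  obtain ⟨K, k0, hK⟩ := hL.ob v ε0
  refine ⟨γ / 2, by positivity, K ^ l, by positivity, fun Y p η N hY hp hq h1 h2 _ => ?_⟩
  have η0 : 0 < η := (Real.exp_pos _).trans_le h1
  refine ⟨_, hK Y p η N hY hp hq η0.le h2, ?_⟩
  rw [Finset.sum_const, Finset.card_range, nsmul_eq_mul, mul_pow, ← Real.exp_nat_mul]
  have : Real.exp (l * ((max (1 - v) 0 + ε) * Y)) ≤ Real.exp ((b - γ / 2) * Y) := by
    refine Real.exp_le_exp.2 ?_
    rw [← mul_assoc]
    exact mul_le_mul_of_nonneg_right (by nlinarith) hY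
  calc _ = K ^ l * N * Real.exp (l * ((max (1 - v) 0 + ε) * Y)) := by ring
    _ ≤ _ := by gcongr

end Pool.Agent.Lib.MP_2a1a00_nt
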