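import Pool.Agent.Lib.MP_2a1a00_nt.S.Stmt4
import Pool.Agent.Lib.MP_2a1a00_nt.Defs

/-! Internal vocabulary: everything is written in the variable `y = log x`. -/

namespace Pool.Agent.Lib.MP_2a1a00_nt

open MeasureTheory Set Polynomial

/-- Integrable on the bounded intervals of the half-line. -/
def LI (W : ℝ → ℝ) : Prop := ∀ p q : ℝ, 0 ≤ p → 0 ≤ q → IntervalIntegrable W volume p q

/-- Measurable and bounded on the bounded intervals of the half-line. -/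
def LB (g : ℝ → ℝ) : Prop := Measurable g ∧ ∀ Y : ℝ, ∃ K : ℝ, ∀ y ∈ Icc 0 Y, |g y| ≤ K

/-- The main term. -/
noncomputable def mt (a : ℝ) (R : ℝ[X]) (y : ℝ) : ℝ := Real.exp (a * y) * R.eval y

/-- A global asymptotic formula with an error `exp (c Y)`. -/
def GA (W : ℝ → ℝ) (a : ℝ) (R : ℝ[X]) (c : ℝ) : Prop :=
  ∃ K c₀ : ℝ, ∀ Y : ℝ, 0 ≤ Y → |(∫ y in (0 : ℝ)..Y, (W y - mt a R y)) - c₀| ≤ K * Real.exp (c * Y)

/-- An asymptotic formula on the intervals of length at least `exp (-u Y)`. -/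
def SI (W : ℝ → ℝ) (a : ℝ) (R : ℝ[X]) (u : ℝ) : Prop :=
  ∃ κ : ℝ, 0 < κ ∧ ∃ K : ℝ, 0 ≤ K ∧ ∀ Y p q : ℝ, 0 ≤ Y → Y ≤ p → q ≤ Y + 1 →
    Real.exp (-u * Y) ≤ q - p →
      |∫ y in p..q, (W y - mt a R y)| ≤ K * (q - p) * Real.exp ((a - κ) * Y)

/-- The numbers `o i` bound the oscillation of `g` on `N` consecutive intervals of length `η`. -/
def Ob (g : ℝ → ℝ) (p η : ℝ) (N : ℕ) (o : ℕ → ℝ) : Prop :=
  ∀ i < N, ∀ y ∈ Icc (p + i * η) (p + (i + 1) * η), |g y - g (p + i * η)| ≤ o i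

/-- On the scale `v` the function `g` is almost constant in the sense of the `l`-th moment, on all
intervals of the scale `u`. -/
def Osc (g : ℝ → ℝ) (l : ℕ) (b v u : ℝ) : Prop :=
  ∃ κ : ℝ, 0 < κ ∧ ∃ K : ℝ, 0 ≤ K ∧ ∀ (Y p η : ℝ) (N : ℕ), 0 ≤ Y → Y ≤ p → p + N * η ≤ Y + 1 →
    Real.exp (-v * Y) ≤ η → η ≤ 2 * Real.exp (-v * Y) → Real.exp (-u * Y) ≤ N * η →
      ∃ o : ℕ → ℝ, Ob g p η N o ∧
        ∑ i ∈ Finset.range N, o i ^ l ≤ K * N * Real.exp ((b - κ) * Y)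

/-- The trivial bound for increments. -/
def Lip (g : ℝ → ℝ) : Prop :=
  ∀ ε : ℝ, 0 < ε → ∃ K : ℝ, 0 ≤ K ∧ ∀ Y : ℝ, 0 ≤ Y → ∀ y ∈ Icc Y (Y + 1), ∀ y' ∈ Icc Y (Y + 1),
    |g y - g y'| ≤ K * (|y - y'| * Real.exp Y + 1) * Real.exp (ε * Y)

/-- The mean square of increments. -/
def Inc (g : ℝ → ℝ) (ν : ℝ) : Prop :=
  ∀ ε : ℝ, 0 < ε → ∃ K : ℝ, 0 ≤ K ∧ ∀ Y v : ℝ, 0 ≤ Y → 0 < v → v ≤ 1 →
    ∫ y in Y..Y + 1, (g (y + v) - g y) ^ 2 ≤ K * v ^ (1 - ε) * Real.exp ((1 + ν + ε) * Y)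

/-- The quadratic variation. -/
def Var (g : ℝ → ℝ) (ν : ℝ) : Prop :=
  ∀ ε : ℝ, 0 < ε → ∃ K : ℝ, 0 ≤ K ∧ ∀ (Y p η : ℝ) (N : ℕ), 0 ≤ Y → Y ≤ p → p + N * η ≤ Y + 1 →
    Real.exp (-Y) ≤ η → ∃ o : ℕ → ℝ, Ob g p η N o ∧
      ∑ i ∈ Finset.range N, o i ^ 2 ≤ K * Real.exp ((1 + ν + ε) * Y)

/-- The Fourier integral. -/
noncomputable def ft (G : ℝ → ℂ) (t : ℝ) : ℂ := ∫ y : ℝ, G y * Complex.exp (-(t * y : ℝ) * Complex.I)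

namespace Sel

variable (F : Sel)

/-- The error term in the logarithmic variable. -/
noncomputable def gE (y : ℝ) : ℝ := (F.E (Real.exp y)).re

/-- The damped error term on the half-line. -/
noncomputable def Fa (α : ℝ) : ℝ → ℂ :=
  (Ioi (0 : ℝ)).indicator fun y => F.E (Real.exp y) * (Real.exp (-α * y) : ℝ)

/-- The transform of the main term. -/
noncomputable def rr (s : ℂ) : ℂ := F.res fun z => 1 / (z * (s - z))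

/-- A mean square bound for the error term. -/
def H2 (β : ℝ) : Prop :=
  ∀ ε : ℝ, 0 < ε → ∃ K : ℝ, 0 ≤ K ∧ ∀ Y : ℝ, 0 ≤ Y →
    ∫ y in Y..Y + 1, ‖F.E (Real.exp y)‖ ^ 2 ≤ K * Real.exp ((2 * β + ε) * Y)

/-- A mean square bound on the line `re s = α`. -/
def Il (α ε : ℝ) : Prop :=
  ∃ t₀ : ℝ, 1 ≤ t₀ ∧ IntegrableOn
    (fun t : ℝ => ‖F.L (α + t * Complex.I)‖ ^ 2 * |t| ^ (-1 - ε)) {t | t₀ ≤ |t|}

end Sel

end Pool.Agent.Lib.MP_2a1a00_nt
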