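import Pool.Agent.Lib.MP_2a1a00_nt.S.Defs
import Pool.Agent.Lib.MP_2a1a00_nt.Triv

/-! Elementary properties of the error term in the logarithmic variable. -/

namespace Pool.Agent.Lib.MP_2a1a00_nt

open MeasureTheory Set

/-- The substitution `x = exp y`. -/
theorem cv_exp {E : Type} [NormedAddCommGroup E] [NormedSpace ℝ E] (h : ℝ → E) {Y : ℝ}
    (hY : 0 ≤ Y) :
    (∫ x in (1 : ℝ)..Real.exp Y, h x = ∫ y in (0 : ℝ)..Y, Real.exp y • h (Real.exp y)) ∧
      (IntervalIntegrable h volume 1 (Real.exp Y) ↔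
        IntervalIntegrable (fun y => Real.exp y • h (Real.exp y)) volume 0 Y) := by
  have h1 : 1 ≤ Real.exp Y := Real.one_le_exp hY
  have e : Ioc 1 (Real.exp Y) = Real.exp '' Ioc 0 Y := by rw [Real.image_exp_Ioc, Real.exp_zero]
  have hd : ∀ y ∈ Ioc 0 Y, HasDerivWithinAt Real.exp (Real.exp y) (Ioc 0 Y) y := fun y _ =>
    (Real.hasDerivAt_exp y).hasDerivWithinAt
  constructor
  · rw [intervalIntegral.integral_of_le h1, intervalIntegral.integral_of_le hY, e,
      integral_image_eq_integral_abs_deriv_smul measurableSet_Ioc hd Real.exp_injective.injOn]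
    simp only [Real.abs_exp]
  · rw [intervalIntegrable_iff_integrableOn_Ioc_of_le h1,
      intervalIntegrable_iff_integrableOn_Ioc_of_le hY, e,
      integrableOn_image_iff_integrableOn_abs_deriv_smul measurableSet_Ioc hd
        Real.exp_injective.injOn]
    simp only [Real.abs_exp]

namespace Sel

variable (F : Sel)

theorem inv_sph : ContinuousOn (fun s : ℂ => s⁻¹) (Metric.sphere 1 (1 / 2)) :=
  continuousOn_id.inv₀ fun _ hs => (triv_sph hs le_rfl).1

theorem cont_M : Continuous fun y : ℝ => F.res fun s => ((Real.exp y : ℝ) : ℂ) ^ s / s := by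
  simp only [div_eq_mul_inv]
  exact (F.triv_res_cont inv_sph).comp_continuous Real.continuous_exp Real.exp_pos

theorem meas_S : Measurable fun y : ℝ => ∑ n ∈ Finset.Icc 1 ⌊Real.exp y⌋₊, F.f n :=
  ((measurable_from_top (f := fun N : ℕ => ∑ n ∈ Finset.Icc 1 N, F.f n)).comp
    Nat.measurable_floor).comp Real.measurable_exp

theorem meas_E : Measurable fun y : ℝ => F.E (Real.exp y) := F.meas_S.sub F.cont_M.measurable

theorem bdd_E (Y : ℝ) : ∃ K : ℝ, ∀ y ∈ Icc 0 Y, ‖F.E (Real.exp y)‖ ≤ K := by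
  obtain ⟨K, hK⟩ := F.E_bdd (Real.exp Y)
  exact ⟨K, fun y hy => hK _ ⟨Real.one_le_exp hy.1, Real.exp_le_exp.2 hy.2⟩⟩

theorem lb : LB F.gE := by
  refine ⟨Complex.measurable_re.comp F.meas_E, fun Y => ?_⟩
  obtain ⟨K, hK⟩ := F.bdd_E Y
  exact ⟨K, fun y hy => (Complex.abs_re_le_norm _).trans (hK y hy)⟩

theorem lb_norm : LB fun y => ‖F.E (Real.exp y)‖ := by
  refine ⟨F.meas_E.norm, fun Y => ?_⟩
  obtain ⟨K, hK⟩ := F.bdd_E Y
  exact ⟨K, fun y hy => by rw [abs_norm]; exact hK y hy⟩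

theorem E_inc {ε : ℝ} (hε : 0 < ε) : ∃ K : ℝ, 0 ≤ K ∧ ∀ x x' : ℝ, 1 ≤ x' → x' ≤ x →
    ‖F.E x - F.E x'‖ ≤ K * (x - x' + 1) * x ^ ε := by
  obtain ⟨C₁, c1, h1⟩ := F.ram' hε
  obtain ⟨C₂, c2, h2⟩ := F.res_le hε
  refine ⟨C₁ + C₂, by positivity, fun x x' hx' hx => ?_⟩
  have x0 : 0 < x := by linarith
  have a1 : ‖∑ n ∈ Finset.Icc 1 ⌊x⌋₊, F.f n - ∑ n ∈ Finset.Icc 1 ⌊x'⌋₊, F.f n‖ ≤
      (x - x' + 1) * (C₁ * x ^ ε) := by
    have hf : ⌊x'⌋₊ ≤ ⌊x⌋₊ := Nat.floor_le_floor hx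
    have hs := Finset.Icc_subset_Icc_right (a := 1) hf
    rw [← Finset.sum_sdiff_eq_sub hs]
    refine (norm_sum_le _ _).trans ((Finset.sum_le_card_nsmul _ _ (C₁ * x ^ ε) fun n hn => ?_).trans
      ?_)
    · have hn := Finset.mem_Icc.1 (Finset.mem_sdiff.1 hn).1
      refine (h1 n hn.1).trans ?_
      gcongr
      exact (Nat.cast_le.2 hn.2).trans (Nat.floor_le x0.le)
    · rw [Finset.card_sdiff_of_subset hs, Nat.card_Icc, Nat.card_Icc, nsmul_eq_mul,
        Nat.add_sub_cancel, Nat.add_sub_cancel, Nat.cast_sub hf]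
      gcongr
      linarith [Nat.floor_le x0.le, Nat.lt_floor_add_one x']
  have a2 := (convex_Icc x' x).norm_image_sub_le_of_norm_hasDerivWithin_le (C := C₂ * x ^ ε)
    (fun t ht => (F.res_deriv inv_sph (by linarith [ht.1])).hasDerivWithinAt) (fun t ht => by
      have t1 : 1 ≤ t := hx'.trans ht.1
      have t0 : 0 < t := by linarith
      rw [F.res_congr (h₂ := fun s => (t : ℂ) ^ s * (fun _ => 1) s) fun s hs => by
        rw [mul_inv_cancel₀ (triv_sph hs le_rfl).1], norm_div, Complex.norm_real,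
        Real.norm_of_nonneg t0.le, div_le_iff₀ t0]
      refine (h2 t 1 _ t1 (differentiableOn_const _) fun _ _ => by simp).trans ?_
      rw [Real.rpow_add t0, Real.rpow_one, mul_one, mul_comm t, ← mul_assoc]
      gcongr
      exact ht.2) ⟨le_rfl, hx⟩ ⟨hx, le_rfl⟩
  rw [Real.norm_of_nonneg (by linarith : 0 ≤ x - x')] at a2
  simp only [E]
  rw [sub_sub_sub_comm]
  refine (norm_sub_le_of_le a1 a2).trans ?_
  have : 0 ≤ C₂ * x ^ ε := by positivity
  nlinarith

theorem lip : Lip F.gE := by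
  intro ε hε
  obtain ⟨K, k0, hK⟩ := F.E_inc hε
  refine ⟨K * Real.exp 1 * Real.exp ε, by positivity, fun Y hY => ?_⟩
  have key : ∀ y ∈ Icc Y (Y + 1), ∀ y' ∈ Icc Y (Y + 1), y' ≤ y → |F.gE y - F.gE y'| ≤
      K * Real.exp 1 * Real.exp ε * (|y - y'| * Real.exp Y + 1) * Real.exp (ε * Y) := by
    intro y hy y' hy' h
    have a1 := hK _ _ (Real.one_le_exp (hY.trans hy'.1)) (Real.exp_le_exp.2 h)
    have a2 : Real.exp y ^ ε ≤ Real.exp ε * Real.exp (ε * Y) := by
      rw [← Real.exp_mul, ← Real.exp_add]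
      exact Real.exp_le_exp.2 (by nlinarith [hy.2])
    have a3 : Real.exp y ≤ Real.exp 1 * Real.exp Y := by
      rw [← Real.exp_add]; exact Real.exp_le_exp.2 (by linarith [hy.2])
    have a4 : Real.exp y - Real.exp y' ≤ (y - y') * Real.exp y := by
      have b1 := Real.add_one_le_exp (y' - y)
      have b2 : Real.exp y' = Real.exp (y' - y) * Real.exp y := by rw [← Real.exp_add]; simp
      nlinarith [Real.exp_pos y]
    have a5 : 1 ≤ Real.exp 1 := Real.one_le_exp zero_le_one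
    have a6 : Real.exp y - Real.exp y' + 1 ≤ Real.exp 1 * (|y - y'| * Real.exp Y + 1) := by
      rw [abs_of_nonneg (by linarith)]
      nlinarith
    rw [gE, gE, ← Complex.sub_re]
    refine (Complex.abs_re_le_norm _).trans (a1.trans ?_)
    calc _ ≤ K * (Real.exp 1 * (|y - y'| * Real.exp Y + 1)) * (Real.exp ε * Real.exp (ε * Y)) := by
          gcongr
      _ = _ := by ring
  intro y hy y' hy'
  rcases le_total y' y with h | h
  · exact key y hy y' hy' h
  · rw [abs_sub_comm, abs_sub_comm y]; exact key y' hy' y hy h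

end Sel

end Pool.Agent.Lib.MP_2a1a00_nt
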