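import Pool.Agent.Lib.MP_2a1a00_nt.S.Tow

/-! The main theorem on towers. -/

namespace Pool.Agent.Lib.MP_2a1a00_nt

open MeasureTheory Set Polynomial

variable {L : Sel} {P : ℝ[X]} {η : ℝ} {F : ℕ → Sel} {l : ℕ → ℕ} {c : ℕ → ℂ} {δ u : ℕ → ℝ} {i k : ℕ}

theorem sq_int (L : Sel) (a b : ℝ) : IntervalIntegrable (fun x => (L.sq x : ℂ)) volume a b :=
  (Complex.continuous_ofReal.comp (L.continuous_L_half.norm.pow 2)).intervalIntegrable a b

theorem msq_ga (h : L.Msq P η) :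
    LI (lg fun x => L.sq x) ∧ GA (lg fun x => L.sq x) 1 (P + derivative P) (1 - η) := by
  obtain ⟨K, hK⟩ := h
  have := ga_of (w := fun x => L.sq x) (a := 1) (c := 1) (Q := P) (K := K) (e := 1 - η)
    (fun T _ => sq_int L 1 T) fun T hT => by
      rw [intervalIntegral.integral_ofReal, one_mul, ← Complex.ofReal_sub, Complex.norm_real,
        Real.rpow_one]
      exact hK T hT
  simpa using this

theorem lg_prod (L : Sel) (hr : ∀ j < k, (F j).RE) :
    (lg fun x => (∏ j ∈ Finset.range k, (F j).E x ^ l j) * L.sq x) =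
      fun y => lg (fun x => L.sq x) y * ∏ j ∈ Finset.range k, (F j).gE y ^ l j := by
  funext y
  rw [lg, lg, Finset.prod_congr rfl fun j hj => by
    rw [(hr j (Finset.mem_range.1 hj)).eq, ← Complex.ofReal_pow], ← Complex.ofReal_prod,
    ← Complex.ofReal_mul, Complex.ofReal_re, Complex.ofReal_re]
  ring

theorem fin_of (hL : L.Msq P η) (hik : i ≤ k) (hr : ∀ j < k, (F j).RE)
    (hF : ∀ j < k, 2 ≤ (F j).deg ∧ Even (l j) ∧ 2 ≤ l j ∧ 0 < δ j ∧ (F j).Mom (l j) (c j) (δ j))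
    (hu : 0 ≤ u k) (hc : Chain F l δ u i k)
    (h : SI (fun y => lg (fun x => L.sq x) y * ∏ j ∈ Finset.range i, (F j).gE y ^ l j)
      (1 + ∑ j ∈ Finset.range i, (F j).ex (l j))
      (C (∏ j ∈ Finset.range i, (1 + (F j).ex (l j)) * (c j).re) * (P + derivative P)) (u i)) :
    Asy (fun x => (∏ j ∈ Finset.range k, (F j).E x ^ l j) * L.sq x)
      (1 + ∑ j ∈ Finset.range k, (F j).ex (l j))
      (∏ j ∈ Finset.range k, (1 + (F j).ex (l j) : ℝ) * c j) P := by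
  have hW := (msq_ga hL).1
  have ht := tower hW (fun y => mul_nonneg (Real.exp_pos y).le (by
    rw [Complex.ofReal_re]; exact sq_nonneg _)) hik (fun j hj => ⟨hr j hj, (hF j hj).1,
      (hF j hj).2.1, (hF j hj).2.2.1, (hF j hj).2.2.2.2⟩) hu hc h
  have ha : 0 < 1 + ∑ j ∈ Finset.range k, (F j).ex (l j) :=
    add_pos_of_pos_of_nonneg one_pos (Finset.sum_nonneg fun j hj =>
      (Sel.ex_pos (hF j (Finset.mem_range.1 hj)).1 (hF j (Finset.mem_range.1 hj)).2.2.1).le)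
  obtain ⟨Q, q1, q2⟩ := poly_Q ha.ne' P
  have e : ∏ j ∈ Finset.range k, ((1 + (F j).ex (l j) : ℝ) : ℂ) * c j =
      (∏ j ∈ Finset.range k, (1 + (F j).ex (l j)) * (c j).re : ℝ) := by
    rw [Complex.ofReal_prod]
    refine Finset.prod_congr rfl fun j hj => ?_
    have hj := Finset.mem_range.1 hj
    rw [Complex.ofReal_mul]
    congr 1
    exact Complex.ext (by simp) (by
      simpa using (hF j hj).2.2.2.2.im (hr j hj) (hF j hj).2.2.2.1)
  rw [e]
  refine asy_of (fun x hx => ?_) ?_ ha hu q1 q2 ?_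
  · rw [← Real.exp_log hx, Finset.prod_congr rfl fun j hj => by
      rw [(hr j (Finset.mem_range.1 hj)).eq, ← Complex.ofReal_pow], ← Complex.ofReal_prod,
      ← Complex.ofReal_mul, Complex.ofReal_im]
  · rw [lg_prod L hr]; exact hW.mul (lb_prod F l k)
  · rwa [lg_prod L hr]

theorem tower_main (hη : 0 < η) (hL : L.Msq P η)
    (hF : ∀ j < k, 2 ≤ (F j).deg ∧ Even (l j) ∧ 2 ≤ l j ∧ 0 < δ j ∧ (F j).Mom (l j) (c j) (δ j))
    (hu : 0 ≤ u k)
    (h : ((∀ j < k, (F j).RE) ∧ u 0 < η ∧ Chain F l δ u 0 k) ∨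
      (2 ≤ k ∧ (2 < k → ∀ j < k, (F j).RE) ∧ L.deg ≤ 1 ∧ L.QP ∧ (F 0).deg = 2 ∧ (F 1).deg = 3 ∧
        (F 1).Split ∧ l 0 = 2 ∧ l 1 = 2 ∧ u 2 < min (min 1 η) (min (δ 0) (δ 1)) / 10 ^ 7 ∧
        Chain F l δ u 2 k)) :
    Asy (fun x => (∏ j ∈ Finset.range k, (F j).E x ^ l j) * L.sq x)
      (1 + ∑ j ∈ Finset.range k, (F j).ex (l j))
      (∏ j ∈ Finset.range k, (1 + (F j).ex (l j) : ℝ) * c j) P := by
  rcases h with ⟨hr, h0, hc⟩ | ⟨hk, hr, d0, hq, d1, d2, hs, l0, l1, h0, hc⟩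
  · refine fin_of hL k.zero_le hr hF hu hc ?_
    simpa using si_base (msq_ga hL).1 (msq_ga hL).2 (by linarith)
  obtain ⟨Q, q1, q2⟩ := poly_Q (c := 13 / 6) (by norm_num) P
  obtain ⟨-, -, -, p0, m0⟩ := hF 0 (by omega)
  obtain ⟨-, -, -, p1, m1⟩ := hF 1 (by omega)
  set m := min (min 1 η) (min (δ 0) (δ 1)) with hm
  have m2 : 0 < m := lt_min (lt_min one_pos hη) (lt_min p0 p1)
  have m3 : m ≤ 1 := (min_le_left _ _).trans (min_le_left _ _)
  have m4 : m ≤ η := (min_le_left _ _).trans (min_le_right _ _)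
  have m5 : m ≤ δ 0 := (min_le_right _ _).trans (min_le_left _ _)
  have m6 : m ≤ δ 1 := (min_le_right _ _).trans (min_le_right _ _)
  have e0 : (F 0).ex (l 0) = 1 / 2 := by rw [Sel.ex, d1, l0]; norm_num
  have e1 : (F 1).ex (l 1) = 2 / 3 := by rw [Sel.ex, d2, l1]; norm_num
  have m0' := m0
  have m1' := m1
  rw [Sel.Mom, e0, l0, show (1 + 1 / 2 : ℝ) = 3 / 2 by norm_num] at m0'
  rw [Sel.Mom, e1, l1, show (1 + 2 / 3 : ℝ) = 5 / 3 by norm_num] at m1'
  obtain ⟨K₀, hK₀⟩ := id hL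
  obtain ⟨K, hK⟩ := main_ex d1 d2 hs d0 hq q2 (γ := m / 10000) (δ := m / 1680000) (by positivity)
    (by linarith) (by linarith) (by positivity) (by linarith) (by linarith) (by linarith) m0' m1' hK₀
  have hi := fun T (hT : 1 ≤ T) => (hy_int (F 0) (F 1) L 2 2 le_rfl hT).1
  have e2 : hy (F 0) (F 1) L 2 2 = fun x => (∏ j ∈ Finset.range 2, (F j).E x ^ l j) * L.sq x := by
    funext x; simp only [Finset.prod_range_succ, Finset.range_zero, Finset.prod_empty, one_mul, l0,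
      l1, hy, Sel.sq]
  have e3 : 1 + ∑ j ∈ Finset.range 2, (F j).ex (l j) = 13 / 6 := by
    simp only [Finset.sum_range_succ, Finset.range_zero, Finset.sum_empty, e0, e1]; norm_num
  rcases hk.eq_or_lt with rfl | hk'
  · have e4 : ∏ j ∈ Finset.range 2, ((1 + (F j).ex (l j) : ℝ) : ℂ) * c j = 5 / 2 * c 0 * c 1 := by
      simp only [Finset.prod_range_succ, Finset.range_zero, Finset.prod_empty, e0, e1]
      push_cast; ring
    rw [← e2, e3, e4]
    exact ⟨hi, Q, q1, q2, m / 1680000 / 2, by positivity, K, hK⟩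
  have hr := hr hk'
  refine fin_of hL hk hr hF hu hc ?_
  obtain ⟨g1, g2⟩ := ga_of hi hK
  have := si_base (u := u 2) g1 g2 (by linarith)
  rw [q2, e2, lg_prod L fun j hj => hr j (by omega)] at this
  have e5 : ∏ j ∈ Finset.range 2, (1 + (F j).ex (l j)) * (c j).re = (5 / 2 * c 0 * c 1).re := by
    simp only [Finset.prod_range_succ, Finset.range_zero, Finset.prod_empty, e0, e1,
      Complex.mul_re, m0.im (hr 0 (by omega)) p0, m1.im (hr 1 (by omega)) p1]
    norm_num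
    ring
  rwa [e3, e5]

end Pool.Agent.Lib.MP_2a1a00_nt
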