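import Pool.Agent.Lib.MP_2a1a00_nt.S.Ch

/-! The induction on short intervals. -/

namespace Pool.Agent.Lib.MP_2a1a00_nt

open MeasureTheory Set Polynomial

variable {W g : ℝ → ℝ} {a b c u v : ℝ} {R Q : ℝ[X]} {l : ℕ}

theorem mt_cont (a : ℝ) (R : ℝ[X]) : Continuous (mt a R) := by
  unfold mt
  exact (by fun_prop : Continuous fun y : ℝ => Real.exp (a * y)).mul R.continuous

theorem mt_li (a : ℝ) (R : ℝ[X]) : LI (mt a R) := fun _ _ _ _ =>
  (mt_cont a R).intervalIntegrable _ _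

theorem LI.sub {V : ℝ → ℝ} (hW : LI W) (hV : LI V) : LI fun y => W y - V y := fun p q hp hq =>
  (hW p q hp hq).sub (hV p q hp hq)

theorem mt_der (a : ℝ) (Q : ℝ[X]) (y : ℝ) :
    HasDerivAt (mt a Q) (mt a (C a * Q + derivative Q) y) y := by
  have h := (((hasDerivAt_id y).const_mul a).exp).mul (Q.hasDerivAt y)
  refine h.congr_deriv ?_
  simp only [mt, id, eval_add, eval_mul, eval_C]; ring

theorem ev_le (R : ℝ[X]) {ε : ℝ} (hε : 0 < ε) : ∃ K : ℝ, 0 ≤ K ∧ ∀ y : ℝ, 0 ≤ y →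
    |R.eval y| ≤ K * Real.exp (ε * y) := by
  induction R using Polynomial.induction_on' with
  | add p q hp hq =>
    obtain ⟨K₁, k1, h1⟩ := hp
    obtain ⟨K₂, k2, h2⟩ := hq
    refine ⟨K₁ + K₂, by positivity, fun y hy => ?_⟩
    rw [eval_add, add_mul]
    exact (abs_add_le _ _).trans (add_le_add (h1 y hy) (h2 y hy))
  | monomial n r =>
    refine ⟨|r| * (n.factorial / ε ^ n), by positivity, fun y hy => ?_⟩
    have h := Real.pow_div_factorial_le_exp (ε * y) (by positivity) n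
    rw [eval_monomial, abs_mul, abs_of_nonneg (pow_nonneg hy n), mul_assoc]
    gcongr
    rw [div_le_iff₀ (by positivity), mul_pow] at h
    rw [div_mul_eq_mul_div, le_div_iff₀ (by positivity)]
    linarith

theorem exp_loc (a : ℝ) {Y y : ℝ} (hy : y ∈ Icc Y (Y + 1)) :
    Real.exp (a * y) ≤ Real.exp |a| * Real.exp (a * Y) := by
  rw [← Real.exp_add]
  refine Real.exp_le_exp.2 ?_
  have h1 : a * (y - Y) ≤ |a| * (y - Y) :=
    mul_le_mul_of_nonneg_right (le_abs_self a) (by linarith [hy.1])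
  have h2 : |a| * (y - Y) ≤ |a| * 1 :=
    mul_le_mul_of_nonneg_left (by linarith [hy.2]) (abs_nonneg a)
  linarith

theorem mt_le (a : ℝ) (R : ℝ[X]) {ε : ℝ} (hε : 0 < ε) : ∃ K : ℝ, 0 ≤ K ∧ ∀ Y : ℝ, 0 ≤ Y →
    ∀ y ∈ Icc Y (Y + 1), |mt a R y| ≤ K * Real.exp ((a + ε) * Y) := by
  obtain ⟨K, k0, hK⟩ := ev_le R hε
  refine ⟨K * Real.exp |a + ε|, by positivity, fun Y hY y hy => ?_⟩
  rw [mt, abs_mul, abs_of_pos (Real.exp_pos _)]
  calc _ ≤ Real.exp (a * y) * (K * Real.exp (ε * y)) := by gcongr; exact hK y (hY.trans hy.1)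
    _ = K * Real.exp ((a + ε) * y) := by rw [add_mul, Real.exp_add]; ring
    _ ≤ K * (Real.exp |a + ε| * Real.exp ((a + ε) * Y)) := by gcongr; exact exp_loc _ hy
    _ = _ := by ring

theorem GA.loc (hW : LI W) (h : GA W a R c) : ∃ K : ℝ, 0 ≤ K ∧ ∀ Y : ℝ, 0 ≤ Y →
    ∀ p ∈ Icc Y (Y + 1), ∀ q ∈ Icc Y (Y + 1),
      |∫ y in p..q, (W y - mt a R y)| ≤ K * Real.exp (c * Y) := by
  obtain ⟨K, c₀, hK⟩ := h
  refine ⟨2 * (|K| * Real.exp |c|), by positivity, fun Y hY p hp q hq => ?_⟩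
  have hi := hW.sub (mt_li a R)
  have key : ∀ p ∈ Icc Y (Y + 1), |(∫ y in (0 : ℝ)..p, (W y - mt a R y)) - c₀| ≤
      |K| * Real.exp |c| * Real.exp (c * Y) := fun p hp => by
    refine (hK p (hY.trans hp.1)).trans ?_
    rw [mul_assoc]
    exact mul_le_mul (le_abs_self K) (exp_loc c hp) (Real.exp_pos _).le (abs_nonneg K)
  rw [← intervalIntegral.integral_interval_sub_left (hi 0 q le_rfl (hY.trans hq.1))
    (hi 0 p le_rfl (hY.trans hp.1))]
  have h1 := abs_le.1 (key p hp)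
  have h2 := abs_le.1 (key q hq)
  rw [abs_le]
  constructor <;> linarith [h1.1, h1.2, h2.1, h2.2]

theorem exp_sc {Y L d e : ℝ} (hY : 0 ≤ Y) (hL : Real.exp (-u * Y) ≤ L) (h : d + u ≤ e) :
    Real.exp (d * Y) ≤ L * Real.exp (e * Y) := by
  calc Real.exp (d * Y) ≤ Real.exp (-u * Y) * Real.exp (e * Y) := by
        rw [← Real.exp_add]; exact Real.exp_le_exp.2 (by nlinarith)
    _ ≤ _ := by gcongr

theorem si_base (hW : LI W) (h : GA W a R c) (hu : u < a - c) : SI W a R u := by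
  obtain ⟨K, k0, hK⟩ := h.loc hW
  refine ⟨a - c - u, by linarith, K, k0, fun Y p q hY hp hq hL => ?_⟩
  have := (Real.exp_pos _).trans_le hL
  refine (hK Y hY p ⟨hp, by linarith⟩ q ⟨by linarith, hq⟩).trans ?_
  rw [mul_assoc]
  gcongr
  exact exp_sc hY hL (by linarith)

theorem si_end (hW : LI W) (h : SI W a R u) (hu : 0 ≤ u) (ha : 0 < a) :
    ∃ δ : ℝ, 0 < δ ∧ δ < a ∧ ∃ K : ℝ, ∀ Y : ℝ, 0 ≤ Y →
      |∫ y in (0 : ℝ)..Y, (W y - mt a R y)| ≤ K * Real.exp ((a - δ) * Y) := by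
  obtain ⟨κ, κ0, K, k0, hK⟩ := h
  have hi := hW.sub (mt_li a R)
  set δ := min κ (a / 2) with hδ
  have d1 : δ ≤ κ := min_le_left _ _
  have d2 : δ ≤ a / 2 := min_le_right _ _
  set M := ∫ y in (0 : ℝ)..1, |W y - mt a R y| with hM
  have M0 : 0 ≤ M := intervalIntegral.integral_nonneg zero_le_one fun _ _ => abs_nonneg _
  have c0 : 0 < a - δ := by linarith
  set K' := M + K / (a - δ) with hK'
  have k1 : 0 ≤ K / (a - δ) := by positivity
  refine ⟨δ, lt_min κ0 (by linarith), by linarith, K', ?_⟩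
  have key : ∀ n : ℕ, ∀ Y : ℝ, 0 ≤ Y → Y ≤ n + 1 →
      |∫ y in (0 : ℝ)..Y, (W y - mt a R y)| ≤ K' * Real.exp ((a - δ) * Y) := by
    have base : ∀ Y : ℝ, 0 ≤ Y → Y ≤ 1 →
        |∫ y in (0 : ℝ)..Y, (W y - mt a R y)| ≤ K' * Real.exp ((a - δ) * Y) := fun Y hY h1 => by
      have a1 := (intervalIntegral.abs_integral_le_integral_abs (μ := volume)
        (f := fun y => W y - mt a R y) hY).trans (intervalIntegral.integral_mono_interval le_rfl hY
          h1 (ae_of_all _ fun _ => abs_nonneg _) (hi 0 1 le_rfl zero_le_one).abs)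
      have a2 : 1 ≤ Real.exp ((a - δ) * Y) := Real.one_le_exp (by positivity)
      nlinarith
    intro n
    induction n with
    | zero => exact fun Y hY h1 => base Y hY (by simpa using h1)
    | succ n ih =>
      intro Y hY h1
      rcases le_total Y 1 with h2 | h2
      · exact base Y hY h2
      have y0 : 0 ≤ Y - 1 := by linarith
      have a1 := ih (Y - 1) y0 (by push_cast at h1; linarith)
      have a2 := hK (Y - 1) (Y - 1) Y y0 le_rfl (by linarith) (by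
        rw [sub_sub_cancel]; exact Real.exp_le_one_iff.2 (by nlinarith))
      have a3 : Real.exp ((a - κ) * (Y - 1)) ≤ Real.exp ((a - δ) * (Y - 1)) :=
        Real.exp_le_exp.2 (by nlinarith)
      have a4 : Real.exp ((a - δ) * Y) = Real.exp (a - δ) * Real.exp ((a - δ) * (Y - 1)) := by
        rw [← Real.exp_add]; congr 1; ring
      have a5 : K' + K ≤ K' * Real.exp (a - δ) := by
        have b1 := Real.add_one_le_exp (a - δ)
        have b2 : K / (a - δ) * (a - δ) = K := by field_simp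
        nlinarith [mul_nonneg M0 c0.le]
      rw [← intervalIntegral.integral_add_adjacent_intervals (hi 0 (Y - 1) le_rfl y0)
        (hi (Y - 1) Y y0 hY), a4, ← mul_assoc]
      refine (abs_add_le _ _).trans ?_
      rw [sub_sub_cancel, mul_one] at a2
      nlinarith [Real.exp_pos ((a - δ) * (Y - 1))]
  intro Y hY
  obtain ⟨n, hn⟩ := exists_nat_ge Y
  exact key n Y hY (by linarith)

theorem ibp {h φ φ' : ℝ → ℝ} {p q Z A : ℝ} (hpq : p ≤ q) (h1 : q ≤ p + 1)
    (hh : IntervalIntegrable h volume p q) (hφ : ∀ y, HasDerivAt φ (φ' y) y) (hc : Continuous φ')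
    (hZ : ∀ y ∈ Icc p q, |∫ t in p..y, h t| ≤ Z) (hA : ∀ y ∈ Icc p q, |φ y| ≤ A ∧ |φ' y| ≤ A) :
    |∫ y in p..q, φ y * h y| ≤ 2 * A * Z := by
  have hd : deriv φ = φ' := funext fun y => (hφ y).deriv
  have c1 : ContDiff ℝ 1 φ :=
    contDiff_one_iff_deriv.2 ⟨fun y => (hφ y).differentiableAt, hd ▸ hc⟩
  have key := c1.contDiffOn.absolutelyContinuousOnInterval.integral_mul_deriv_eq_deriv_mul
    (hh.absolutelyContinuousOnInterval_intervalIntegral left_mem_uIcc)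
  have e : ∫ y in p..q, φ y * h y = ∫ y in p..q, φ y * deriv (fun x => ∫ t in p..x, h t) y := by
    refine intervalIntegral.integral_congr_ae ?_
    filter_upwards [hh.ae_hasDerivAt_integral] with y hy hy'
    rw [(hy (uIoc_subset_uIcc hy') p left_mem_uIcc).deriv]
  have A0 : 0 ≤ A := (abs_nonneg _).trans (hA p ⟨le_rfl, hpq⟩).1
  have Z0 : 0 ≤ Z := (abs_nonneg _).trans (hZ p ⟨le_rfl, hpq⟩)
  have b1 := intervalIntegral.norm_integral_le_of_norm_le_const (C := A * Z) (a := p) (b := q)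
    (f := fun y => φ' y * ∫ t in p..y, h t) fun y hy => by
      rw [uIoc_of_le hpq] at hy
      rw [Real.norm_eq_abs, abs_mul]
      exact mul_le_mul (hA y ⟨hy.1.le, hy.2⟩).2 (hZ y ⟨hy.1.le, hy.2⟩) (abs_nonneg _) A0
  have b2 : |φ q * ∫ t in p..q, h t| ≤ A * Z := by
    rw [abs_mul]
    exact mul_le_mul (hA q ⟨hpq, le_rfl⟩).1 (hZ q ⟨hpq, le_rfl⟩) (abs_nonneg _) A0
  rw [abs_of_nonneg (by linarith : 0 ≤ q - p), Real.norm_eq_abs] at b1
  rw [e, key, hd, intervalIntegral.integral_same, mul_zero, sub_zero]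
  refine (abs_sub _ _).trans ?_
  nlinarith [mul_nonneg A0 Z0]

theorem pow_dif {x z o t : ℝ} (h : |x - z| ≤ o) (t0 : 0 < t) (t1 : t ≤ 1) (hl : 1 ≤ l) :
    |x ^ l - z ^ l| ≤ l * 2 ^ l * (t * |z| ^ l + t⁻¹ ^ (l - 1) * o ^ l) := by
  obtain ⟨k, rfl⟩ := Nat.exists_eq_add_of_le' hl
  have o0 : 0 ≤ o := (abs_nonneg _).trans h
  have z0 := abs_nonneg z
  have h1 : max |x| |z| ≤ |z| + o := max_le (by
    have := abs_sub_abs_le_abs_sub x z; linarith) (by linarith)
  have h2 : |x ^ (k + 1) - z ^ (k + 1)| ≤ o * ((k + 1 : ℕ) : ℝ) * (|z| + o) ^ k := by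
    refine (abs_pow_sub_pow_le _ _ _).trans ?_
    rw [Nat.add_sub_cancel]
    gcongr
  have t2 : 1 ≤ t⁻¹ := (one_le_inv₀ t0).2 t1
  have h3 : o * (|z| + o) ^ k ≤ 2 ^ k * (t * |z| ^ (k + 1) + t⁻¹ ^ k * o ^ (k + 1)) := by
    rcases le_total o (t * |z|) with h4 | h4
    · calc o * (|z| + o) ^ k ≤ t * |z| * (2 * |z|) ^ k := by gcongr; nlinarith
        _ = 2 ^ k * (t * |z| ^ (k + 1) + 0) := by rw [mul_pow]; ring
        _ ≤ _ := by gcongr; positivity
    · have h5 : |z| ≤ t⁻¹ * o := by rw [le_inv_mul_iff₀ t0]; exact h4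
      calc o * (|z| + o) ^ k ≤ o * (2 * (t⁻¹ * o)) ^ k := by gcongr; nlinarith
        _ = 2 ^ k * (0 + t⁻¹ ^ k * o ^ (k + 1)) := by rw [mul_pow, mul_pow]; ring
        _ ≤ _ := by gcongr; positivity
  rw [Nat.add_sub_cancel]
  calc _ ≤ ((k + 1 : ℕ) : ℝ) * (o * (|z| + o) ^ k) := h2.trans_eq (by ring)
    _ ≤ ((k + 1 : ℕ) : ℝ) * (2 ^ (k + 1) * (t * |z| ^ (k + 1) + t⁻¹ ^ k * o ^ (k + 1))) := by
      refine mul_le_mul_of_nonneg_left (h3.trans ?_) (Nat.cast_nonneg _)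
      gcongr <;> norm_num
    _ = _ := by ring

theorem LB.abs (hg : LB g) : LB fun y => |g y| :=
  ⟨hg.1.abs, fun Y => (hg.2 Y).imp fun _ h y hy => (abs_abs _).trans_le (h y hy)⟩

theorem li_exp (hg : LB g) (l : ℕ) : LI fun y => Real.exp y * g y ^ l :=
  LI.mul (fun _ _ _ _ => Real.continuous_exp.intervalIntegrable _ _) (hg.pow l)

/-- The absolute moment on short intervals. -/
def Am (g : ℝ → ℝ) (l : ℕ) (b u : ℝ) : Prop :=
  ∀ ε : ℝ, 0 < ε → ∃ K : ℝ, 0 ≤ K ∧ ∀ Y p q : ℝ, 0 ≤ Y → Y ≤ p → q ≤ Y + 1 →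
    Real.exp (-u * Y) ≤ q - p → ∫ y in p..q, |g y| ^ l ≤ K * ((q - p) * Real.exp ((b + ε) * Y))

theorem am_of (hg : LB g) (hl : Even l) {c' : ℝ}
    (hG : GA (fun y => Real.exp y * g y ^ l) (1 + b) (C c) c') (hc : u ≤ 1 + b - c') :
    Am g l b u := by
  intro ε ε0
  have iE := li_exp hg l
  obtain ⟨K₃, k3, h3⟩ := hG.loc iE
  obtain ⟨K₇, k7, h7⟩ := mt_le (1 + b) (C c) ε0
  refine ⟨K₇ + K₃, by positivity, fun Y p q hY hp hq hL => ?_⟩
  have L0 : 0 < q - p := (Real.exp_pos _).trans_le hL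
  have p0 : 0 ≤ p := hY.trans hp
  have q0 : 0 ≤ q := by linarith
  have hsub : Icc p q ⊆ Icc Y (Y + 1) := Icc_subset_Icc hp hq
  simp only [hl.pow_abs]
  have b1 := intervalIntegral.integral_mono_on (μ := volume) (by linarith : p ≤ q)
    (((hg.pow l).li p q p0 q0).const_mul (Real.exp Y)) (iE p q p0 q0) fun y hy =>
      mul_le_mul_of_nonneg_right (Real.exp_le_exp.2 (hsub hy).1) (hl.pow_nonneg _)
  have b2 := intervalIntegral.integral_mono_on (μ := volume) (by linarith : p ≤ q)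
    (mt_li (1 + b) (C c) p q p0 q0) (intervalIntegrable_const (c := K₇ * Real.exp
      ((1 + b + ε) * Y))) fun y hy => (le_abs_self _).trans (h7 Y hY y (hsub hy))
  have b3 := (abs_le.1 (h3 Y hY p ⟨hp, by linarith⟩ q ⟨by linarith, hq⟩)).2
  have b4 := mul_le_mul_of_nonneg_left
    (exp_sc (d := c') (e := 1 + b + ε) hY hL (by linarith)) k3
  rw [intervalIntegral.integral_sub (iE p q p0 q0) (mt_li _ _ p q p0 q0)] at b3
  rw [intervalIntegral.integral_const_mul] at b1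
  rw [intervalIntegral.integral_const, smul_eq_mul] at b2
  refine le_of_mul_le_mul_left ?_ (Real.exp_pos Y)
  have b5 : Real.exp ((1 + b + ε) * Y) = Real.exp Y * Real.exp ((b + ε) * Y) := by
    rw [← Real.exp_add]; congr 1; ring
  rw [b5] at b2 b4
  nlinarith

theorem si_one {m : ℝ → ℝ} (hW : LI W) (h0 : ∀ y, 0 ≤ W y) (hm : LI m) (hg : LB g)
    (h2 : 1 ≤ l) {s r η o Z M t : ℝ} (hs : 0 ≤ s) (hη : 0 < η) (hr : r = s + η) (t0 : 0 < t)
    (t1 : t ≤ 1) (ho : ∀ y ∈ Icc s r, |g y - g s| ≤ o) (Z0 : 0 ≤ Z)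
    (hZ : |∫ y in s..r, (W y - m y)| ≤ η * Z) (hM : ∀ y ∈ Icc s r, |m y| ≤ M) :
    |∫ y in s..r, (W y - m y) * g y ^ l| ≤
      (Z + l * 2 ^ l * t * (2 * M + Z)) * 2 ^ l * ((∫ y in s..r, |g y| ^ l) + η * o ^ l) +
        l * 2 ^ l * (2 * M + Z) * t⁻¹ ^ (l - 1) * (η * o ^ l) := by
  have hsr : s ≤ r := by linarith
  have r0 : 0 ≤ r := by linarith
  have o0 : 0 ≤ o := (abs_nonneg _).trans (ho s ⟨le_rfl, hsr⟩)
  have M0 : 0 ≤ M := (abs_nonneg _).trans (hM s ⟨le_rfl, hsr⟩)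
  have iW := hW s r hs r0
  have im := hm s r hs r0
  have ig := (hg.abs.pow l).li s r hs r0
  have i1 := (hW.sub hm).mul (hg.pow l) s r hs r0
  have len : r - s = η := by linarith
  set z := g s
  set D := l * 2 ^ l * (t * |z| ^ l + t⁻¹ ^ (l - 1) * o ^ l) with hD
  have D0 : 0 ≤ D := by positivity
  have a1 : η * |z| ^ l ≤ 2 ^ l * ((∫ y in s..r, |g y| ^ l) + η * o ^ l) := by
    have := intervalIntegral.integral_mono_on (μ := volume) hsr
      (intervalIntegrable_const (c := |z| ^ l))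
      ((ig.add (intervalIntegrable_const (c := o ^ l))).const_mul (2 ^ l)) fun y hy => by
        have b1 : |z| ≤ |g y| + o := by
          have := abs_sub_abs_le_abs_sub z (g y); rw [abs_sub_comm] at this; linarith [ho y hy]
        calc |z| ^ l ≤ (|g y| + o) ^ l := by gcongr
          _ ≤ 2 ^ (l - 1) * (|g y| ^ l + o ^ l) := add_pow_le (abs_nonneg _) o0 l
          _ ≤ 2 ^ l * (|g y| ^ l + o ^ l) := by gcongr <;> norm_num
    rwa [intervalIntegral.integral_const_mul, intervalIntegral.integral_add ig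
      intervalIntegrable_const, intervalIntegral.integral_const, intervalIntegral.integral_const,
      len, smul_eq_mul, smul_eq_mul] at this
  have a2 : ∫ y in s..r, W y ≤ η * (M + Z) := by
    have b1 := intervalIntegral.integral_mono_on (μ := volume) hsr im
      (intervalIntegrable_const (c := M)) fun y hy => (le_abs_self _).trans (hM y hy)
    rw [intervalIntegral.integral_sub iW im] at hZ
    rw [intervalIntegral.integral_const, len, smul_eq_mul] at b1
    linarith [(abs_le.1 hZ).2]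
  have i2 := (iW.sub im).const_mul (z ^ l)
  have a3 : |∫ y in s..r, ((W y - m y) * g y ^ l - z ^ l * (W y - m y))| ≤ D * (η * (2 * M + Z)) := by
    refine (intervalIntegral.abs_integral_le_integral_abs hsr).trans ?_
    have := intervalIntegral.integral_mono_on (μ := volume) hsr (i1.sub i2).abs
      ((iW.add (intervalIntegrable_const (c := M))).const_mul D) fun y hy => by
        rw [show (W y - m y) * g y ^ l - z ^ l * (W y - m y) = (g y ^ l - z ^ l) * (W y - m y) by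
          ring, abs_mul]
        refine mul_le_mul (pow_dif (ho y hy) t0 t1 h2) ((abs_sub _ _).trans ?_) (abs_nonneg _) D0
        rw [abs_of_nonneg (h0 y)]
        linarith [hM y hy]
    rw [intervalIntegral.integral_const_mul, intervalIntegral.integral_add iW
      intervalIntegrable_const, intervalIntegral.integral_const, len, smul_eq_mul] at this
    refine this.trans ?_
    gcongr
    linarith
  rw [intervalIntegral.integral_sub i1 i2, intervalIntegral.integral_const_mul] at a3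
  have a4 : |z ^ l * ∫ y in s..r, (W y - m y)| ≤ |z| ^ l * (η * Z) := by
    rw [abs_mul, abs_pow]; gcongr
  have a5 := mul_le_mul_of_nonneg_left a1
    (by positivity : 0 ≤ Z + l * 2 ^ l * t * (2 * M + Z))
  have a6 := abs_sub_abs_le_abs_sub (∫ y in s..r, (W y - m y) * g y ^ l)
    (z ^ l * ∫ y in s..r, (W y - m y))
  rw [hD] at a3
  nlinarith

theorem si_step (hW : LI W) (h0 : ∀ y, 0 ≤ W y) (hg : LB g) (hl : Am g l b u) (h2 : 1 ≤ l)
    (h : SI W a R v) (ho : Osc g l b v u) {c' : ℝ}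
    (hG : GA (fun y => Real.exp y * g y ^ l) (1 + b) (C c) c') (huv : u ≤ v)
    (hc : u < 1 + b - c') : SI (fun y => W y * g y ^ l) (a + b) (C c * R) u := by
  obtain ⟨κ₁, q1, K₁, k1, h1⟩ := h
  obtain ⟨κ₂, q2, K₂, k2, h2'⟩ := ho
  have iE := li_exp hg l
  obtain ⟨K₃, k3, h3⟩ := hG.loc iE
  have l0 : (1 : ℝ) ≤ l := by exact_mod_cast h2
  set ε := min (min κ₁ (κ₂ / l)) (1 + b - c' - u) / 3 with hε
  have ε0 : 0 < ε := by
    have : 0 < min (min κ₁ (κ₂ / l)) (1 + b - c' - u) :=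
      lt_min (lt_min q1 (by positivity)) (by linarith)
    positivity
  have e1 : 3 * ε ≤ κ₁ := by
    have := (min_le_left _ (1 + b - c' - u)).trans (min_le_left κ₁ (κ₂ / l)); linarith
  have e2 : 3 * ε ≤ κ₂ / l := by
    have := (min_le_left _ (1 + b - c' - u)).trans (min_le_right κ₁ (κ₂ / l)); linarith
  have e3 : 3 * ε ≤ 1 + b - c' - u := by
    have := min_le_right (min κ₁ (κ₂ / l)) (1 + b - c' - u); linarith
  obtain ⟨K₄, k4, h4⟩ := mt_le a R ε0
  obtain ⟨K₅, k5, h5⟩ := mt_le (a - 1) R ε0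
  obtain ⟨K₆, k6, h6⟩ := mt_le (a - 1) (C (a - 1) * R + derivative R) ε0
  obtain ⟨K₇, k7, h7⟩ := hl ε ε0
  set A : ℝ := l * 2 ^ l with hA
  have A0 : 0 ≤ A := by positivity
  refine ⟨ε, ε0, (K₁ + A * (2 * K₄ + K₁)) * 2 ^ l * (K₇ + K₂) + A * (2 * K₄ + K₁) * K₂ +
    2 * (K₅ + K₆) * K₃, by positivity, fun Y p q hY hp hq hL => ?_⟩
  have L0 : 0 < q - p := (Real.exp_pos _).trans_le hL
  have p0 : 0 ≤ p := hY.trans hp
  have q0 : 0 ≤ q := by linarith
  have hsub : Icc p q ⊆ Icc Y (Y + 1) := Icc_subset_Icc hp hq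
  have x1 : Real.exp (-v * Y) * Real.exp (v * Y) = 1 := by rw [← Real.exp_add]; simp
  have x2 : Real.exp (-v * Y) ≤ q - p := (Real.exp_le_exp.2 (by nlinarith)).trans hL
  have x0 := Real.exp_pos (v * Y)
  have x3 := Real.exp_pos (-v * Y)
  set N := ⌊(q - p) * Real.exp (v * Y)⌋₊ with hN
  have n1 : (1 : ℝ) ≤ N := by
    exact_mod_cast Nat.le_floor (n := 1) (by push_cast; nlinarith)
  have n2 : (N : ℝ) ≤ (q - p) * Real.exp (v * Y) := Nat.floor_le (by positivity)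
  have n3 : (q - p) * Real.exp (v * Y) < N + 1 := Nat.lt_floor_add_one _
  set η := (q - p) / N with hη
  have η0 : 0 < η := by positivity
  have η1 : N * η = q - p := by rw [hη]; field_simp
  have η2 : Real.exp (-v * Y) ≤ η := by rw [hη, le_div_iff₀ (by linarith)]; nlinarith
  have η3 : η ≤ 2 * Real.exp (-v * Y) := by rw [hη, div_le_iff₀ (by linarith)]; nlinarith
  have eq : p + N * η = q := by linarith
  obtain ⟨o, o1, o2⟩ := h2' Y p η N hY hp (by linarith) η2 η3 (by linarith)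
  set t := Real.exp (-(κ₂ / l) * Y) with ht
  have t0 : 0 < t := Real.exp_pos _
  have t1 : t ≤ 1 := Real.exp_le_one_iff.2 (by nlinarith)
  set Z := K₁ * Real.exp ((a - κ₁) * Y) with hZ
  set M := K₄ * Real.exp ((a + ε) * Y) with hM
  have i1 := (hW.sub (mt_li a R)).mul (hg.pow l)
  have s1 : |∫ y in p..q, (W y - mt a R y) * g y ^ l| ≤
      (Z + A * t * (2 * M + Z)) * 2 ^ l * ((∫ y in p..q, |g y| ^ l) +
        η * ∑ i ∈ Finset.range N, o i ^ l) +
        A * (2 * M + Z) * t⁻¹ ^ (l - 1) * (η * ∑ i ∈ Finset.range N, o i ^ l) := by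
    rw [← eq, ← sum_adj i1 p0 η0.le, ← sum_adj (hg.abs.pow l).li p0 η0.le, Finset.mul_sum,
      ← Finset.sum_add_distrib, Finset.mul_sum, Finset.mul_sum, ← Finset.sum_add_distrib]
    refine (Finset.abs_sum_le_sum_abs _ _).trans (Finset.sum_le_sum fun i hi => ?_)
    have hi := Finset.mem_range.1 hi
    have hs := (sub_Icc (p := p) η0.le hi).trans (eq ▸ hsub)
    have hle : p + i * η ≤ p + (i + 1) * η := by nlinarith
    refine si_one hW h0 (mt_li a R) hg h2 (by positivity) η0 (by ring) t0 t1 (o1 i hi)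
      (by positivity) ?_ fun y hy => h4 Y hY y (hs hy)
    refine (h1 Y _ _ hY (hs ⟨le_rfl, hle⟩).1 (hs ⟨hle, le_rfl⟩).2 (by linarith)).trans_eq ?_
    rw [hZ]; ring
  have ih := iE.sub (mt_li (1 + b) (C c))
  have s2 := h7 Y p q hY hp hq hL
  have s3 : η * ∑ i ∈ Finset.range N, o i ^ l ≤ K₂ * ((q - p) * Real.exp ((b - κ₂) * Y)) :=
    (mul_le_mul_of_nonneg_left o2 η0.le).trans_eq (by rw [← η1]; ring)
  have s3' : 0 ≤ η * ∑ i ∈ Finset.range N, o i ^ l :=
    mul_nonneg η0.le (Finset.sum_nonneg fun i hi =>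
      pow_nonneg (o1.nonneg η0.le (Finset.mem_range.1 hi)) _)
  have s4 : 2 * M + Z ≤ (2 * K₄ + K₁) * Real.exp ((a + ε) * Y) := by
    have : Real.exp ((a - κ₁) * Y) ≤ Real.exp ((a + ε) * Y) := Real.exp_le_exp.2 (by nlinarith)
    rw [hM, hZ]; nlinarith
  have s5 : Z + A * t * (2 * M + Z) ≤ (K₁ + A * (2 * K₄ + K₁)) * Real.exp ((a - 2 * ε) * Y) := by
    have b1 : Real.exp ((a - κ₁) * Y) ≤ Real.exp ((a - 2 * ε) * Y) :=
      Real.exp_le_exp.2 (by nlinarith)
    have b2 : t * Real.exp ((a + ε) * Y) ≤ Real.exp ((a - 2 * ε) * Y) := by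
      rw [ht, ← Real.exp_add]; exact Real.exp_le_exp.2 (by nlinarith)
    calc _ ≤ K₁ * Real.exp ((a - 2 * ε) * Y) +
          A * t * ((2 * K₄ + K₁) * Real.exp ((a + ε) * Y)) := by rw [hZ]; gcongr
      _ = K₁ * Real.exp ((a - 2 * ε) * Y) +
          A * (2 * K₄ + K₁) * (t * Real.exp ((a + ε) * Y)) := by ring
      _ ≤ K₁ * Real.exp ((a - 2 * ε) * Y) +
          A * (2 * K₄ + K₁) * Real.exp ((a - 2 * ε) * Y) := by gcongr
      _ = _ := by ring
  have s6 : (∫ y in p..q, |g y| ^ l) + η * ∑ i ∈ Finset.range N, o i ^ l ≤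
      (K₇ + K₂) * ((q - p) * Real.exp ((b + ε) * Y)) := by
    have : Real.exp ((b - κ₂) * Y) ≤ Real.exp ((b + ε) * Y) := Real.exp_le_exp.2 (by nlinarith)
    have := mul_le_mul_of_nonneg_left (mul_le_mul_of_nonneg_left this L0.le) k2
    linarith
  have s7 : Real.exp ((a - 2 * ε) * Y) * Real.exp ((b + ε) * Y) = Real.exp ((a + b - ε) * Y) := by
    rw [← Real.exp_add]; congr 1; ring
  have s8 : Real.exp ((a + ε) * Y) * t⁻¹ ^ (l - 1) * Real.exp ((b - κ₂) * Y) ≤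
      Real.exp ((a + b - ε) * Y) := by
    rw [ht, ← Real.exp_neg, ← Real.exp_nat_mul, ← Real.exp_add, ← Real.exp_add,
      Nat.cast_sub h2]
    refine Real.exp_le_exp.2 ?_
    have : κ₂ = l * (κ₂ / l) := by field_simp
    push_cast
    nlinarith
  have s9 : |∫ y in p..q, mt (a - 1) R y * (Real.exp y * g y ^ l - mt (1 + b) (C c) y)| ≤
      2 * (K₅ + K₆) * K₃ * ((q - p) * Real.exp ((a + b - ε) * Y)) := by
    have xp := Real.exp_pos ((a - 1 + ε) * Y)
    refine (ibp (A := (K₅ + K₆) * Real.exp ((a - 1 + ε) * Y)) (by linarith) (by linarith)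
      (ih p q p0 q0) (mt_der _ _) (mt_cont _ _)
      (fun y hy => h3 Y hY p ⟨hp, by linarith⟩ y (hsub hy)) fun y hy =>
      ⟨(h5 Y hY y (hsub hy)).trans (by nlinarith), (h6 Y hY y (hsub hy)).trans
        (by nlinarith)⟩).trans ?_
    calc _ = 2 * (K₅ + K₆) * K₃ * Real.exp ((a - 1 + ε + c') * Y) := by
          rw [add_mul _ c', Real.exp_add]; ring
      _ ≤ _ := by gcongr; exact exp_sc hY hL (by linarith)
  have e : ∫ y in p..q, (W y * g y ^ l - mt (a + b) (C c * R) y) =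
      (∫ y in p..q, (W y - mt a R y) * g y ^ l) +
        ∫ y in p..q, mt (a - 1) R y * (Real.exp y * g y ^ l - mt (1 + b) (C c) y) := by
    rw [← intervalIntegral.integral_add (i1 p q p0 q0)
      ((ih p q p0 q0).continuousOn_mul (mt_cont _ _).continuousOn)]
    refine intervalIntegral.integral_congr fun y _ => ?_
    have b1 : Real.exp (a * y) = Real.exp ((a - 1) * y) * Real.exp y := by
      rw [← Real.exp_add]; congr 1; ring
    have b2 : Real.exp ((a + b) * y) = Real.exp ((a - 1) * y) * Real.exp ((1 + b) * y) := by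
      rw [← Real.exp_add]; congr 1; ring
    simp only [mt, eval_mul, eval_C, b1, b2]
    ring
  have g0 : 0 ≤ ∫ y in p..q, |g y| ^ l :=
    intervalIntegral.integral_nonneg (by linarith) fun _ _ => by positivity
  rw [e]
  refine (abs_add_le _ _).trans ((add_le_add s1 s9).trans ?_)
  calc _ ≤ (K₁ + A * (2 * K₄ + K₁)) * Real.exp ((a - 2 * ε) * Y) * 2 ^ l *
        ((K₇ + K₂) * ((q - p) * Real.exp ((b + ε) * Y))) +
        A * ((2 * K₄ + K₁) * Real.exp ((a + ε) * Y)) * t⁻¹ ^ (l - 1) *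
          (K₂ * ((q - p) * Real.exp ((b - κ₂) * Y))) +
        2 * (K₅ + K₆) * K₃ * ((q - p) * Real.exp ((a + b - ε) * Y)) := by gcongr
    _ = (K₁ + A * (2 * K₄ + K₁)) * 2 ^ l * (K₇ + K₂) * (q - p) *
          (Real.exp ((a - 2 * ε) * Y) * Real.exp ((b + ε) * Y)) +
        A * (2 * K₄ + K₁) * K₂ * (q - p) *
          (Real.exp ((a + ε) * Y) * t⁻¹ ^ (l - 1) * Real.exp ((b - κ₂) * Y)) +
        2 * (K₅ + K₆) * K₃ * ((q - p) * Real.exp ((a + b - ε) * Y)) := by ring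
    _ ≤ (K₁ + A * (2 * K₄ + K₁)) * 2 ^ l * (K₇ + K₂) * (q - p) * Real.exp ((a + b - ε) * Y) +
        A * (2 * K₄ + K₁) * K₂ * (q - p) * Real.exp ((a + b - ε) * Y) +
        2 * (K₅ + K₆) * K₃ * ((q - p) * Real.exp ((a + b - ε) * Y)) := by rw [s7]; gcongr
    _ = _ := by ring

end Pool.Agent.Lib.MP_2a1a00_nt
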