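import Pool.Agent.Lib.MP_2a1a00_nt.S.Er
import Pool.Agent.Lib.MP_2a1a00_nt.S.St
import Pool.Agent.Lib.MP_2a1a00_nt.Rep
import Pool.Agent.Lib.MP_34b615_gt.Holo

/-! The Mellin transform of the error term. -/

namespace Pool.Agent.Lib.MP_2a1a00_nt

open MeasureTheory Set Complex

theorem int_geo {φ : ℝ → ℝ} (hφ : LI φ) (h0 : ∀ y, 0 ≤ φ y) {K c d : ℝ} (hcd : c < d)
    (h : ∀ Y : ℝ, 0 ≤ Y → ∫ y in Y..Y + 1, φ y ≤ K * Real.exp (c * Y)) :
    IntegrableOn (fun y => φ y * Real.exp (-d * y)) (Ioi 0) := by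
  have hi : ∀ n : ℕ, IntervalIntegrable (fun y => φ y * Real.exp (-d * y)) volume n (n + 1) :=
    fun n => (hφ n (n + 1) (by positivity) (by positivity)).mul_continuousOn (by fun_prop)
  refine (integrableOn_iUnion_of_summable_integral_norm (s := fun n : ℕ => Ioc (n : ℝ) (n + 1))
    (fun n => (hi n).1) ?_).mono_set fun y hy => ?_
  · refine Summable.of_nonneg_of_le (fun n => integral_nonneg fun _ => norm_nonneg _) (fun n => ?_)
      ((summable_geometric_of_lt_one (Real.exp_pos (c - d)).le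
        (Real.exp_lt_one_iff.2 (by linarith))).mul_left (Real.exp |-d| * K))
    have n0 : (0 : ℝ) ≤ n := Nat.cast_nonneg n
    rw [← intervalIntegral.integral_of_le (by linarith)]
    have a1 := intervalIntegral.integral_mono_on (μ := volume) (by linarith) (hi n).norm
      ((hφ n (n + 1) n0 (by positivity)).const_mul (Real.exp |-d| * Real.exp (-d * n)))
      fun y hy => by
        rw [Real.norm_of_nonneg (mul_nonneg (h0 y) (Real.exp_pos _).le), mul_comm]
        exact mul_le_mul_of_nonneg_right (exp_loc _ hy) (h0 y)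
    rw [intervalIntegral.integral_const_mul] at a1
    refine a1.trans ((mul_le_mul_of_nonneg_left (h n n0) (by positivity)).trans_eq ?_)
    rw [← Real.exp_nat_mul, show n * (c - d) = -d * n + c * n by ring, Real.exp_add]
    ring
  · have hy : 0 < y := hy
    have h1 := Nat.ceil_pos.2 hy
    refine mem_iUnion.2 ⟨⌈y⌉₊ - 1, ?_⟩
    rw [Nat.cast_sub h1, Nat.cast_one, sub_add_cancel]
    exact ⟨by linarith [Nat.ceil_lt_add_one hy.le], Nat.le_ceil y⟩

theorem cpow_exp (y : ℝ) (z : ℂ) : ((Real.exp y : ℝ) : ℂ) ^ z = exp (z * y) := by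
  rw [cpow_def_of_ne_zero (ofReal_ne_zero.2 (Real.exp_pos y).ne'),
    ← ofReal_log (Real.exp_pos y).le, Real.log_exp, mul_comm]

namespace Sel

variable {F : Sel} {α β : ℝ}

theorem int_sq (h : F.H2 β) (hα : β < α) :
    IntegrableOn (fun y => ‖F.E (Real.exp y)‖ ^ 2 * Real.exp (-(2 * α) * y)) (Ioi 0) := by
  obtain ⟨K, -, hK⟩ := h (α - β) (by linarith)
  exact int_geo (F.lb_norm.pow 2).li (fun _ => sq_nonneg _) (by linarith) hK

theorem int_E (h : F.H2 β) (hα : β < α) :
    IntegrableOn (fun y => ‖F.E (Real.exp y)‖ * Real.exp (-α * y)) (Ioi 0) := by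
  refine Integrable.mono' ((int_sq h (α := (α + β) / 2) (by linarith)).add
    (integrableOn_exp_mul_Ioi (a := β - α) (by linarith) 0))
    (F.meas_E.norm.mul (by fun_prop)).aestronglyMeasurable (ae_of_all _ fun y => ?_)
  have e1 : Real.exp (-(2 * ((α + β) / 2)) * y) = Real.exp (-((α + β) / 2) * y) ^ 2 := by
    rw [← Real.exp_nat_mul]; congr 1; push_cast; ring
  have e2 : Real.exp ((β - α) * y) = Real.exp ((β - α) / 2 * y) ^ 2 := by
    rw [← Real.exp_nat_mul]; congr 1; push_cast; ring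
  have e3 : Real.exp (-α * y) = Real.exp (-((α + β) / 2) * y) * Real.exp ((β - α) / 2 * y) := by
    rw [← Real.exp_add]; congr 1; ring
  rw [Real.norm_of_nonneg (by positivity), Pi.add_apply, e1, e2, e3]
  have p1 : 0 ≤ ‖F.E (Real.exp y)‖ * Real.exp (-((α + β) / 2) * y) := by positivity
  nlinarith [sq_nonneg (‖F.E (Real.exp y)‖ * Real.exp (-((α + β) / 2) * y) -
    Real.exp ((β - α) / 2 * y)), Real.exp_pos ((β - α) / 2 * y)]

theorem fa_meas (F : Sel) (α : ℝ) :
    Measurable fun y => F.E (Real.exp y) * (Real.exp (-α * y) : ℝ) :=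
  F.meas_E.mul (by fun_prop)

theorem fa_L2 (h : F.H2 β) (hα : β < α) : MemLp (F.Fa α) 2 := by
  rw [Fa, memLp_indicator_iff_restrict measurableSet_Ioi,
    memLp_two_iff_integrable_sq_norm (F.fa_meas α).aestronglyMeasurable]
  refine (int_sq h hα).congr (ae_of_all _ fun y => ?_)
  simp only [norm_mul, norm_real, Real.norm_eq_abs, Real.abs_exp, mul_pow]
  rw [← Real.exp_nat_mul]; congr 2; push_cast; ring

theorem fa_L1 (h : F.H2 β) (hα : β < α) : Integrable (F.Fa α) := by
  rw [Fa, integrable_indicator_iff measurableSet_Ioi]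
  refine (int_E h hα).mono' (F.fa_meas α).aestronglyMeasurable (ae_of_all _ fun y => ?_)
  rw [norm_mul, norm_real, Real.norm_eq_abs, Real.abs_exp]

theorem ball_im {z : ℂ} (hz : z ∈ Metric.closedBall (1 : ℂ) (1 / 2)) (s : ℂ) :
    |s.im| - 1 / 2 ≤ ‖s - z‖ := by
  have h1 := abs_im_le_norm (z - 1)
  have h2 := abs_im_le_norm (s - z)
  rw [mem_closedBall_iff_norm] at hz
  rw [sub_im, one_im, sub_zero] at h1
  rw [sub_im] at h2
  linarith [abs_sub_abs_le_abs_sub s.im z.im]

theorem rr_le (F : Sel) : ∃ C : ℝ, 0 ≤ C ∧ ∀ s : ℂ, 1 ≤ |s.im| → ‖F.rr s‖ ≤ C / |s.im| := by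
  obtain ⟨C, c0, hC⟩ := F.res_le one_pos
  refine ⟨C * 4, by positivity, fun s hs => ?_⟩
  have hb : ∀ z ∈ Metric.closedBall (1 : ℂ) (1 / 2), |s.im| / 4 ≤ ‖z * (s - z)‖ := fun z hz => by
    have h1 := ball_im hz s
    have h2 := (re_le_norm z).trans' (triv_ball hz).1
    rw [norm_mul]
    nlinarith
  have h := hC 1 (4 / |s.im|) (fun z => 1 / (z * (s - z))) le_rfl
    ((differentiableOn_const _).div (by fun_prop) fun z hz =>
      norm_pos_iff.1 (by linarith [hb z hz])) fun z hz => by
      rw [norm_div, norm_one, ← one_div_div |s.im| 4]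
      exact one_div_le_one_div_of_le (by linarith) (hb z hz)
  simp only [ofReal_one, one_cpow, one_mul, Real.one_rpow, mul_one] at h
  rw [mul_div_assoc]
  exact h

/-- The density on the circle. -/
noncomputable def cw (F : Sel) (θ : ℝ) : ℂ := (2 * Real.pi * I)⁻¹ * (deriv (circleMap 1 (1 / 2)) θ •
  (F.L (circleMap 1 (1 / 2) θ) * (circleMap 1 (1 / 2) θ)⁻¹))

theorem cm_sph (θ : ℝ) : circleMap 1 (1 / 2) θ ∈ Metric.sphere (1 : ℂ) (1 / 2) :=
  circleMap_mem_sphere _ (by norm_num) θ

theorem cw_cont (F : Sel) : Continuous F.cw := by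
  have c0 : Continuous fun θ => deriv (circleMap 1 (1 / 2)) θ := by
    simp only [deriv_circleMap]
    fun_prop
  exact continuous_const.mul (c0.smul (((F.triv_L (by norm_num)).mul inv_sph).comp_continuous
    (continuous_circleMap _ _) cm_sph))

theorem cw_int (F : Sel) : IntegrableOn F.cw (Ioc 0 (2 * Real.pi)) :=
  (F.cw_cont.intervalIntegrable _ _).1

theorem rr_eq (F : Sel) (s : ℂ) :
    F.rr s = ∫ θ in Ioc 0 (2 * Real.pi), F.cw θ * (s - circleMap 1 (1 / 2) θ)⁻¹ := by
  rw [rr, F.res_congr (h₂ := fun z => z⁻¹ * (s - z)⁻¹) fun z _ => by rw [one_div, mul_inv]]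
  exact F.rep_res (fun z => z⁻¹) fun z => (s - z)⁻¹

theorem rr_diff (F : Sel) : DifferentiableOn ℂ F.rr {s | 1 / 2 < |s.im|} := by
  rw [show F.rr = _ from funext F.rr_eq]
  have hb := fun θ => ball_im (Metric.sphere_subset_closedBall (cm_sph θ))
  refine MP_34b615_gt.differentiableOn_param_integral _ _ _
    (isOpen_lt continuous_const (by fun_prop)) (fun s _ => (F.cw_cont.measurable.mul
      (measurable_const.sub (continuous_circleMap _ _).measurable).inv).aestronglyMeasurable)
    (ae_of_all _ fun θ => (differentiableOn_const _).mul (DifferentiableOn.inv (by fun_prop)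
      fun s hs => norm_pos_iff.1 (by linarith [hb θ s, show 1 / 2 < |s.im| from hs])))
    fun s₀ hs₀ => ?_
  have h0 : 0 < (|s₀.im| - 1 / 2) / 2 := by linarith [show 1 / 2 < |s₀.im| from hs₀]
  refine ⟨_, h0, _, F.cw_int.norm.mul_const ((|s₀.im| - 1 / 2) / 2)⁻¹,
    ae_of_all _ fun θ s hs _ => ?_⟩
  rw [norm_mul, norm_inv]
  have h1 := abs_im_le_norm (s₀ - s)
  rw [Metric.mem_ball, dist_comm, dist_eq_norm] at hs
  rw [sub_im] at h1
  gcongr
  linarith [hb θ s, abs_sub_abs_le_abs_sub s₀.im s.im]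

theorem mel_two (F : Sel) {s : ℂ} (hs : 2 < s.re) :
    ∫ y in Ioi (0 : ℝ), F.E (Real.exp y) * exp (-s * y) = F.L s / s - F.rr s := by
  obtain ⟨C, c1, hC⟩ := F.ram' one_pos
  have hS : ∀ n : ℕ, ∑ k ∈ Finset.Icc 1 n, ‖F.f k‖ ≤ C * (n : ℝ) ^ 2 := fun n => by
    refine (Finset.sum_le_card_nsmul _ _ (C * n) fun k hk => ?_).trans_eq ?_
    · have hk := Finset.mem_Icc.1 hk
      refine (hC k hk.1).trans ?_
      rw [Real.rpow_one]
      gcongr
      exact hk.2
    · simp; ring
  have s0 : s ≠ 0 := fun h => by rw [h] at hs; norm_num at hs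
  have e1 := LSeries_eq_mul_integral' F.f zero_le_two hs (Asymptotics.IsBigO.of_bound C
    (Filter.Eventually.of_forall fun n => by
      rw [Real.norm_of_nonneg (Finset.sum_nonneg fun _ _ => norm_nonneg _),
        Real.norm_of_nonneg (by positivity), Real.rpow_two]
      exact hS n))
  rw [← Real.exp_zero, ← integral_comp_exp_Ioi] at e1
  have e2 : ∫ y in Ioi (0 : ℝ), (∑ k ∈ Finset.Icc 1 ⌊Real.exp y⌋₊, F.f k) * exp (-s * y) =
      F.L s / s := by
    rw [F.L_eq (by linarith), e1, mul_div_cancel_left₀ _ s0]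
    refine integral_congr_ae (ae_of_all _ fun y => ?_)
    simp only [cpow_exp, real_smul]
    rw [mul_left_comm, ofReal_exp, ← exp_add]
    congr 2
    ring
  have ne : ∀ (a : ℂ) (y : ℝ), ‖exp (a * y)‖ = Real.exp (a.re * y) := fun a y => by
    rw [norm_exp]; simp
  have ie := integrableOn_exp_mul_Ioi (a := 2 - s.re) (by linarith) 0
  have i1 : IntegrableOn (fun y : ℝ => (∑ k ∈ Finset.Icc 1 ⌊Real.exp y⌋₊, F.f k) * exp (-s * y))
      (Ioi 0) := by
    refine (ie.const_mul C).mono' (F.meas_S.mul (by fun_prop)).aestronglyMeasurable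
      (ae_of_all _ fun y => ?_)
    rw [norm_mul, ne, sub_mul, sub_eq_add_neg, Real.exp_add, ← mul_assoc, neg_re, neg_mul]
    gcongr
    refine (norm_sum_le _ _).trans ((hS _).trans ?_)
    rw [show 2 * y = (2 : ℕ) * y by norm_num, Real.exp_nat_mul]
    gcongr
    exact Nat.floor_le (Real.exp_pos y).le
  have hz := fun θ => (rep_sph (cm_sph θ)).2
  have i2 : Integrable (Function.uncurry fun (y θ : ℝ) =>
      F.cw θ * exp ((circleMap 1 (1 / 2) θ - s) * y))
      ((volume.restrict (Ioi 0)).prod (volume.restrict (Ioc 0 (2 * Real.pi)))) := by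
    have c1 := F.cw_cont
    refine (Integrable.mul_prod ie F.cw_int.norm).mono' (Continuous.aestronglyMeasurable
      (by unfold Function.uncurry; fun_prop)) ?_
    rw [Measure.prod_restrict]
    filter_upwards [ae_restrict_mem (measurableSet_Ioi.prod measurableSet_Ioc)] with q hq
    have : 0 < q.1 := hq.1
    simp only [Function.uncurry]
    rw [norm_mul, ne, mul_comm, sub_re]
    gcongr
    exact hz _
  have e3 : ∀ y : ℝ, (F.res fun z => ((Real.exp y : ℝ) : ℂ) ^ z / z) * exp (-s * y) =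
      ∫ θ in Ioc 0 (2 * Real.pi), F.cw θ * exp ((circleMap 1 (1 / 2) θ - s) * y) := fun y => by
    simp only [cpow_exp, div_eq_inv_mul]
    rw [F.rep_res (fun z => z⁻¹) fun z => exp (z * y), ← integral_mul_const]
    refine integral_congr_ae (ae_of_all _ fun θ => ?_)
    simp only [cw]
    rw [mul_assoc _ (exp _), ← exp_add]
    congr 2
    ring
  simp only [E, sub_mul (Finset.sum _ _), e3]
  refine (integral_sub i1 i2.integral_prod_left).trans ?_
  simp only [Function.uncurry]
  rw [e2, integral_integral_swap i2, rr_eq]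
  congr 1
  refine integral_congr_ae (ae_of_all _ fun θ => ?_)
  simp only
  rw [integral_const_mul, integral_exp_mul_complex_Ioi (by rw [sub_re]; linarith [hz θ]),
    ← neg_sub (circleMap _ _ _) s, inv_neg]
  simp [div_eq_mul_inv]

theorem mel_diff (h : F.H2 β) : DifferentiableOn ℂ
    (fun s : ℂ => ∫ y in Ioi (0 : ℝ), F.E (Real.exp y) * exp (-s * y)) {s | β < s.re} := by
  refine MP_34b615_gt.differentiableOn_param_integral _ _ _
    (isOpen_lt continuous_const continuous_re)
    (fun s _ => (F.meas_E.mul (by fun_prop)).aestronglyMeasurable)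
    (ae_of_all _ fun y => by fun_prop) fun s₀ hs₀ => ?_
  have h0 : β < s₀.re := hs₀
  refine ⟨(s₀.re - β) / 2, by linarith, _, int_E h (α := (s₀.re + β) / 2) (by linarith), ?_⟩
  filter_upwards [ae_restrict_mem measurableSet_Ioi] with y hy s hs _
  have hy : 0 < y := hy
  have h1 := re_le_norm (s₀ - s)
  rw [Metric.mem_ball, dist_comm, dist_eq_norm] at hs
  rw [sub_re] at h1
  rw [norm_mul, norm_exp]
  simp only [mul_re, neg_re, ofReal_re, ofReal_im, mul_zero, sub_zero]
  gcongr
  linarith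

theorem mel_quad (h : F.H2 β) {e : ℝ} (he : |e| = 1) {s : ℂ} (h1 : β < s.re)
    (h2 : 1 / 2 < e * s.im) :
    ∫ y in Ioi (0 : ℝ), F.E (Real.exp y) * exp (-s * y) = F.L s / s - F.rr s := by
  set U : Set ℂ := {s | β < s.re} ∩ {s | 1 / 2 < e * s.im} with hU
  have uo : IsOpen U :=
    (isOpen_lt continuous_const continuous_re).inter (isOpen_lt continuous_const (by fun_prop))
  have uc : Convex ℝ U := (convex_halfSpace_re_gt β).inter (convex_halfSpace_gt
    ⟨fun a b => by rw [add_im, mul_add], fun c a => by rw [smul_im, smul_eq_mul, smul_eq_mul]; ring⟩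
    _)
  have ui : ∀ s ∈ U, 1 / 2 < |s.im| := fun s hs => by
    have := (show 1 / 2 < e * s.im from hs.2).trans_le (le_abs_self _)
    rwa [abs_mul, he, one_mul] at this
  have d2 : DifferentiableOn ℂ (fun s => F.L s / s - F.rr s) U := by
    refine DifferentiableOn.sub (fun s hs => ?_) (F.rr_diff.mono ui)
    have := ui s hs
    exact ((F.differentiableAt_L fun h => by rw [h] at this; norm_num at this).div
      differentiableAt_id fun h : s = 0 => by rw [h] at this; norm_num at this).differentiableWithinAt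
  have e2 : e * e = 1 := by rw [← abs_mul_abs_self, he, one_mul]
  refine (((mel_diff h).mono inter_subset_left).analyticOnNhd uo).eqOn_of_preconnected_of_eventuallyEq
    (d2.analyticOnNhd uo) uc.isPreconnected (z₀ := ⟨max β 2 + 1, e⟩)
    ⟨by simp only [mem_ofPred_eq]; linarith [le_max_left β 2],
      by simp only [mem_ofPred_eq]; linarith⟩ ?_ ⟨h1, h2⟩
  filter_upwards [(isOpen_lt continuous_const continuous_re).mem_nhds
    (show (2 : ℝ) < (⟨max β 2 + 1, e⟩ : ℂ).re by linarith [le_max_right β 2])] with s hs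
  exact F.mel_two hs

theorem mel (h : F.H2 β) (hα : β < α) {t : ℝ} (ht : 1 ≤ |t|) :
    ft (F.Fa α) t = F.L (α + t * I) / (α + t * I) - F.rr (α + t * I) := by
  obtain ⟨e, he, h2⟩ : ∃ e : ℝ, |e| = 1 ∧ 1 / 2 < e * t := by
    rcases le_total 0 t with h0 | h0
    · exact ⟨1, abs_one, by rw [abs_of_nonneg h0] at ht; linarith⟩
    · exact ⟨-1, by simp, by rw [abs_of_nonpos h0] at ht; linarith⟩
  rw [← mel_quad h he (by simpa using hα) (by simpa using h2), ft,
    ← integral_indicator measurableSet_Ioi]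
  refine integral_congr_ae (ae_of_all _ fun y => ?_)
  simp only [Fa]
  by_cases hy : y ∈ Ioi (0 : ℝ)
  · rw [indicator_of_mem hy, indicator_of_mem hy, mul_assoc, ofReal_exp, ← exp_add]
    congr 2
    push_cast
    ring
  · rw [indicator_of_notMem hy, indicator_of_notMem hy, zero_mul]

end Sel

end Pool.Agent.Lib.MP_2a1a00_nt
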