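import Pool.Agent.Lib.MP_2a1a00_nt.S.Pl
import Pool.Agent.Lib.MP_2a1a00_nt.S.Mel
import Pool.Agent.Lib.MP_2a1a00_nt.Ms
import Pool.Agent.Lib.MP_2a1a00_nt.V.St2

/-! The mean square of the increments of the error term. -/

namespace Pool.Agent.Lib.MP_2a1a00_nt

open MeasureTheory Set Complex

theorem int_abs {f : ℝ → ℝ} {c t₀ : ℝ} (hc : c < t₀) (h1 : IntegrableOn f (Ioi c))
    (h2 : IntegrableOn (fun t => f (-t)) (Ioi c)) : IntegrableOn f {t | t₀ ≤ |t|} := by
  have h3 : IntegrableOn (fun t => f (- -t)) (Iio (-c)) :=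
    IntegrableOn.comp_neg_Iio (f := fun t => f (-t)) (by rwa [neg_neg])
  simp only [neg_neg] at h3
  refine (h1.union h3).mono_set fun t ht => ?_
  rcases le_abs'.1 (show t₀ ≤ |t| from ht) with h | h
  · exact Or.inr (show t < -c by linarith)
  · exact Or.inl (show c < t by linarith)

theorem int_tail {ε t₀ : ℝ} (h0 : 0 < ε) (ht : 1 ≤ t₀) :
    IntegrableOn (fun t : ℝ => |t| ^ (-1 - ε)) {t | t₀ ≤ |t|} := by
  have h : IntegrableOn (fun t : ℝ => |t| ^ (-1 - ε)) (Ioi (1 / 2)) :=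
    (integrableOn_Ioi_rpow_of_lt (a := -1 - ε) (by linarith) one_half_pos).congr_fun
      (fun t ht => by rw [abs_of_pos (one_half_pos.trans ht)]) measurableSet_Ioi
  exact int_abs (by linarith) h (by simpa only [abs_neg] using h)

theorem int_ms {ψ : ℝ → ℝ} (hc : Continuous ψ) (h0 : ∀ t, 0 ≤ ψ t) {C ε : ℝ} (hε : 0 < ε)
    (h : ∀ X : ℝ, 1 ≤ X → ∫ t in -X..X, ψ t ≤ C * X ^ (1 + ε / 2)) :
    IntegrableOn (fun t => ψ t * |t| ^ (-1 - ε)) (Ioi 1) := by
  rw [← show Ioi (Real.exp 0) = Ioi 1 by rw [Real.exp_zero], ← integrableOn_comp_exp_Ioi]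
  have c1 : Continuous fun y => Real.exp y • ψ (Real.exp y) := by fun_prop
  have key := int_geo (φ := fun y => Real.exp y • ψ (Real.exp y)) (c := 1 + ε / 2) (d := 1 + ε)
    (K := C * Real.exp (1 + ε / 2)) (fun _ _ _ _ => c1.intervalIntegrable _ _)
    (fun y => mul_nonneg (Real.exp_pos y).le (h0 _)) (by linarith) fun Y hY => by
      have y1 : 1 ≤ Real.exp (Y + 1) := Real.one_le_exp (by linarith)
      refine (intervalIntegral.integral_mono_interval hY (by linarith) le_rfl (ae_of_all _ fun y =>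
        mul_nonneg (Real.exp_pos y).le (h0 _)) (c1.intervalIntegrable _ _)).trans ?_
      refine (cv_exp ψ (by linarith : 0 ≤ Y + 1)).1.symm.trans_le ?_
      refine (intervalIntegral.integral_mono_interval (by linarith) y1 le_rfl (ae_of_all _ h0)
        (hc.intervalIntegrable _ _)).trans ((h _ y1).trans_eq ?_)
      rw [← Real.exp_mul, mul_assoc, ← Real.exp_add]
      congr 2
      ring
  refine key.congr_fun (fun y _ => ?_) measurableSet_Ioi
  simp only [smul_eq_mul, Real.abs_exp]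
  rw [← Real.exp_mul, mul_assoc]
  congr 3
  ring

theorem tail_ms (t₀ : ℝ) : MeasurableSet {t : ℝ | t₀ ≤ |t|} :=
  measurableSet_le measurable_const (by fun_prop)

namespace Sel

variable {F : Sel} {α β ε : ℝ}

theorem meas_L (F : Sel) : Measurable F.L := F.ent.continuous.measurable.div (by fun_prop)

theorem chi_sharp (F : Sel) : ∃ C t₀ : ℝ, 0 ≤ C ∧ 1 ≤ t₀ ∧ ∀ σ t : ℝ, |σ| ≤ 1 → t₀ ≤ |t| →
    ‖F.chi (σ + t * I)‖ ≤ C * |t| ^ (F.deg * (1 / 2 - σ)) := by
  obtain ⟨cp, cm, h⟩ := F.chi_asymp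
  obtain ⟨C, t₀, c0, t1, h⟩ := h 1
  refine ⟨Real.exp (|cp.re| + |cm.re| + 2 * |Real.log F.q| + C), t₀, by positivity, t1,
    fun σ t hσ ht => ?_⟩
  have e1 : (σ + t * I : ℂ).re = σ := by simp
  have e2 : (σ + t * I : ℂ).im = t := by simp
  obtain ⟨r, hr, e⟩ := h (σ + t * I) (by rwa [e1]) (by rwa [e2])
  rw [e2] at hr e
  have t0 : 0 < |t| := by linarith
  rw [e, norm_exp, Real.rpow_def_of_pos t0, ← Real.exp_add]
  refine Real.exp_le_exp.2 ?_
  have a1 : r.re ≤ C := (re_le_norm r).trans (hr.trans (div_le_self c0.le (by linarith)))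
  have a2 : (if 0 < t then cp else cm).re ≤ |cp.re| + |cm.re| := by
    split_ifs
    · linarith [le_abs_self cp.re, abs_nonneg cm.re]
    · linarith [le_abs_self cm.re, abs_nonneg cp.re]
  have a3 : (1 / 2 - σ) * Real.log F.q ≤ 2 * |Real.log F.q| := by
    refine (le_abs_self _).trans ?_
    rw [abs_mul]
    gcongr
    rw [abs_le] at hσ ⊢
    constructor <;> linarith [hσ.1, hσ.2]
  simp only [add_re, mul_re, sub_re, sub_im, ofReal_re, ofReal_im, I_re, I_im, mul_im, add_im,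
    div_ofNat_re, div_ofNat_im, one_re, one_im]
  nlinarith

theorem line_le {σ t : ℝ} (hσ : |σ| ≤ 1) (ht : 1 ≤ |t|) :
    |t| ≤ ‖(σ + t * I : ℂ)‖ ∧ ‖(σ + t * I : ℂ)‖ ≤ 2 * |t| := by
  refine ⟨by simpa using abs_im_le_norm (σ + t * I), (norm_add_le _ _).trans ?_⟩
  rw [norm_mul, norm_I, norm_real, norm_real, Real.norm_eq_abs, Real.norm_eq_abs]
  linarith

/-- Plancherel on the line `1 - α = (d - 1 + ε) / (2 d)` and the functional equation -/
theorem il_gen (hd : 2 ≤ F.deg) (h : F.H2 ((F.deg - 1) / (2 * F.deg))) (h0 : 0 < ε) (h1 : ε ≤ 1) :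
    F.Il ((F.deg + 1 - ε) / (2 * F.deg)) ε := by
  set α := (F.deg + 1 - ε) / (2 * F.deg) with hα
  have d0 : 0 < 2 * F.deg := by linarith
  have a0 : 0 < α := div_pos (by linarith) d0
  have a1 : α < 1 := (div_lt_one d0).2 (by linarith)
  have a2 : (F.deg - 1) / (2 * F.deg) < 1 - α := by
    rw [hα, lt_sub_iff_add_lt, ← add_div, div_lt_one d0]; linarith
  have a3 : F.deg * (1 / 2 - α) = (ε - 1) / 2 := by rw [hα]; field_simp; ring
  obtain ⟨C, t₀, c0, t1, hC⟩ := F.chi_sharp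
  obtain ⟨C', c1, hC'⟩ := F.rr_le
  have p := (planch (fa_L1 h a2) (fa_L2 h a2)).1
  refine ⟨t₀, t1, ((p.integrableOn.add ((int_tail one_pos t1).const_mul (C' ^ 2))).const_mul
    (8 * C ^ 2)).mono' (((F.meas_L.comp (by fun_prop)).norm.pow_const 2).mul
      (by fun_prop)).aestronglyMeasurable ?_⟩
  filter_upwards [ae_restrict_mem (tail_ms t₀)] with t ht
  have ht : t₀ ≤ |t| := ht
  have t2 : 1 ≤ |t| := t1.trans ht
  have t0 : 0 < |t| := by linarith
  obtain ⟨n1, n2⟩ := line_le (σ := 1 - α) (abs_le.2 ⟨by linarith, by linarith⟩) t2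
  have b1 := F.chi_strip (s := α + t * I) (by simpa using a0) (by simpa using a1)
  have b2 : 1 - (starRingEnd ℂ) (α + t * I) = (1 - α : ℝ) + t * I := by
    simp; ring
  have b3 := hC' ((1 - α : ℝ) + t * I) (by simpa using t2)
  have b4 := mel h a2 t2
  set s : ℂ := (1 - α : ℝ) + t * I with hs
  have b5 : s.im = t := by simp [hs]
  set x := ‖ft (F.Fa (1 - α)) t‖
  have b6 : ‖F.L s‖ ≤ 2 * |t| * (x + C' / |t|) := by
    have : F.L s = s * (ft (F.Fa (1 - α)) t + F.rr s) := by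
      rw [b4, sub_add_cancel, mul_div_cancel₀ _ (norm_pos_iff.1 (by linarith))]
    rw [this, norm_mul]
    exact mul_le_mul n2 (norm_add_le_of_le le_rfl (b5 ▸ b3)) (norm_nonneg _) (by positivity)
  have b7 := hC α t (abs_le.2 ⟨by linarith, a1.le⟩) ht
  have b8 : (|t| ^ ((ε - 1) / 2)) ^ 2 * |t| ^ (-1 - ε) * |t| ^ 2 = 1 := by
    rw [← Real.rpow_natCast, ← Real.rpow_natCast, ← Real.rpow_mul t0.le, ← Real.rpow_add t0,
      ← Real.rpow_add t0]
    refine (congrArg _ ?_).trans (Real.rpow_zero |t|)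
    push_cast; ring
  have b9 : |t| ^ (-1 - 1 : ℝ) = (|t| ^ 2)⁻¹ := by
    rw [← Real.rpow_natCast, ← Real.rpow_neg t0.le]; norm_num
  rw [b2] at b1
  rw [a3] at b7
  rw [Real.norm_of_nonneg (by positivity), b1, norm_mul, RCLike.norm_conj, Pi.add_apply, b9]
  calc _ ≤ (C * |t| ^ ((ε - 1) / 2) * (2 * |t| * (x + C' / |t|))) ^ 2 * |t| ^ (-1 - ε) := by gcongr
    _ = 4 * C ^ 2 * (x + C' / |t|) ^ 2 *
        ((|t| ^ ((ε - 1) / 2)) ^ 2 * |t| ^ (-1 - ε) * |t| ^ 2) := by ring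
    _ ≤ _ := by
      rw [b8, mul_one, ← div_eq_mul_inv, ← div_pow]
      nlinarith [mul_nonneg (sq_nonneg C) (sq_nonneg (x - C' / |t|))]

theorem il_two (hd : F.deg ≤ 2) (h0 : 0 < ε) : F.Il (1 / 2) ε := by
  obtain ⟨C, -, hC⟩ := F.ms le_rfl (by linarith) (ε / 2) (by linarith)
  have c1 := F.continuous_L_half.norm.pow 2
  have h1 := int_ms c1 (fun _ => sq_nonneg _) h0 hC
  have h2 := int_ms (c1.comp continuous_neg) (fun _ => sq_nonneg _) h0 (C := C) fun X hX => by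
    have := intervalIntegral.integral_comp_neg (a := -X) (b := X)
      fun t : ℝ => ‖F.L (1 / 2 + t * I)‖ ^ 2
    rw [neg_neg] at this
    exact this.trans_le (hC X hX)
  refine ⟨2, one_le_two, int_abs one_lt_two ?_ ?_⟩
  · simpa using h1
  · simpa using h2

theorem ft_wt (h : F.H2 β) (hα : β < α) (a0 : 0 ≤ α) (a1 : α ≤ 1) (h0 : 0 < ε) (h1 : ε ≤ 1)
    (hI : F.Il α ε) : Integrable fun t => |t| ^ (1 - ε) * ‖ft (F.Fa α) t‖ ^ 2 := by
  obtain ⟨t₀, t1, hI⟩ := hI
  obtain ⟨C, c0, hC⟩ := F.rr_le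
  have hc : Continuous fun t => |t| ^ (1 - ε) * ‖ft (F.Fa α) t‖ ^ 2 :=
    (continuous_abs.rpow_const fun _ => Or.inr (by linarith)).mul
      ((ft_cont (fa_L1 h hα)).norm.pow 2)
  have i1 : IntegrableOn (fun t => |t| ^ (1 - ε) * ‖ft (F.Fa α) t‖ ^ 2) {t | t₀ ≤ |t|} := by
    refine ((hI.add ((int_tail h0 t1).const_mul (C ^ 2))).const_mul 2).mono'
      hc.aestronglyMeasurable ?_
    filter_upwards [ae_restrict_mem (tail_ms t₀)] with t ht
    have t2 : 1 ≤ |t| := t1.trans ht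
    have t0 : 0 < |t| := by linarith
    have n1 := (line_le (σ := α) (abs_le.2 ⟨by linarith, a1⟩) t2).1
    have b3 := hC (α + t * I) (by simpa using t2)
    have b5 : (α + t * I : ℂ).im = t := by simp
    set x := ‖F.L (α + t * I)‖
    have b6 : ‖ft (F.Fa α) t‖ ≤ (x + C) / |t| := by
      rw [mel h hα t2, add_div]
      refine norm_sub_le_of_le ?_ (by rwa [b5] at b3)
      rw [norm_div]
      gcongr
    have b7 : |t| ^ (1 - ε) = |t| ^ (-1 - ε) * |t| ^ 2 := by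
      rw [← Real.rpow_natCast, ← Real.rpow_add t0]; congr 1; push_cast; ring
    have p : 0 ≤ |t| ^ (-1 - ε) := by positivity
    rw [Real.norm_of_nonneg (by positivity), Pi.add_apply, b7]
    calc _ ≤ |t| ^ (-1 - ε) * |t| ^ 2 * ((x + C) / |t|) ^ 2 := by gcongr
      _ = |t| ^ (-1 - ε) * (x + C) ^ 2 := by field_simp
      _ ≤ _ := by nlinarith [mul_nonneg p (sq_nonneg (x - C))]
  refine integrableOn_univ.1 ((i1.union (hc.integrableOn_Icc (a := -t₀) (b := t₀))).mono_set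
    fun t _ => ?_)
  exact (le_total t₀ |t|).imp id fun h => abs_le.1 h

/-- For `y > 0`,
`E (y + v) - E y = exp (α y) (exp (α v) (Fa (y + v) - Fa y) + (exp (α v) - 1) Fa y)` -/
theorem inc_of (h : F.H2 β) (hα : β < α) (a0 : 0 ≤ α) (a1 : α ≤ 1) (h0 : 0 < ε) (h1 : ε ≤ 1)
    (hI : F.Il α ε) : ∃ K : ℝ, 0 ≤ K ∧ ∀ Y v : ℝ, 0 ≤ Y → 0 < v → v ≤ 1 →
      ∫ y in Y..Y + 1, (F.gE (y + v) - F.gE y) ^ 2 ≤ K * v ^ (1 - ε) * Real.exp (2 * α * Y) := by
  have l2 := fa_L2 h hα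
  obtain ⟨K, k0, hK⟩ := ft_inc (fa_L1 h hα) l2 h0 h1 (ft_wt h hα a0 a1 h0 h1 hI)
  have i0 := l2.integrable_norm_pow two_ne_zero
  set J := ∫ y, ‖F.Fa α y‖ ^ 2 with hJ
  have J0 : 0 ≤ J := integral_nonneg fun _ => sq_nonneg _
  set e := Real.exp 1 with he
  refine ⟨2 * e ^ 4 * (K + J), by positivity, fun Y v hY v0 v1 => ?_⟩
  have i1 : Integrable fun y => ‖F.Fa α (y + v) - F.Fa α y‖ ^ 2 :=
    ((l2.comp_measurePreserving (measurePreserving_add_right volume v)).sub l2).integrable_norm_pow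
      two_ne_zero
  have i2 := (i1.add (i0.const_mul (v ^ 2))).const_mul (2 * e ^ 4 * Real.exp (2 * α * Y))
  have b1 : v ^ 2 ≤ v ^ (1 - ε) := by
    rw [← Real.rpow_natCast]
    exact Real.rpow_le_rpow_of_exponent_ge v0 v1 (by push_cast; linarith)
  rw [intervalIntegral.integral_of_le (by linarith)]
  refine (setIntegral_mono_on ((F.lb.inc v0.le).li Y (Y + 1) hY (by linarith)).1 i2.integrableOn
    measurableSet_Ioc fun y hy => ?_).trans ((setIntegral_le_integral i2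
      (ae_of_all _ fun y => by simp only [Pi.add_apply, Pi.zero_apply]; positivity)).trans ?_)
  · have y0 : 0 < y := hY.trans_lt hy.1
    have e1 : ∀ z : ℝ, 0 < z → F.E (Real.exp z) = (Real.exp (α * z) : ℝ) * F.Fa α z := fun z hz => by
      rw [Fa, indicator_of_mem (show z ∈ Ioi 0 from hz), mul_left_comm, ← ofReal_mul,
        ← Real.exp_add]
      simp
    have e2 : F.E (Real.exp (y + v)) - F.E (Real.exp y) = (Real.exp (α * y) : ℝ) *
        ((Real.exp (α * v) : ℝ) * (F.Fa α (y + v) - F.Fa α y) +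
          (Real.exp (α * v) - 1 : ℝ) * F.Fa α y) := by
      rw [e1 _ (by linarith), e1 _ y0, mul_add α, Real.exp_add]; push_cast; ring
    have c1 : Real.exp (α * y) ≤ e * Real.exp (α * Y) := by
      rw [he, ← Real.exp_add]; exact Real.exp_le_exp.2 (by nlinarith [hy.2])
    have c2 : Real.exp (α * v) ≤ e := Real.exp_le_exp.2 (by nlinarith)
    have c3 : 1 ≤ Real.exp (α * v) := Real.one_le_exp (by positivity)
    have c4 : Real.exp (α * v) - 1 ≤ e * v := by
      have d1 := Real.add_one_le_exp (-(α * v))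
      have d2 : Real.exp (-(α * v)) * Real.exp (α * v) = 1 := by rw [← Real.exp_add]; simp
      have d3 : α * v ≤ v := by nlinarith
      nlinarith
    set x := ‖F.Fa α (y + v) - F.Fa α y‖
    set z := ‖F.Fa α y‖
    have c5 : |F.gE (y + v) - F.gE y| ≤ e * Real.exp (α * Y) * (e * x + e * v * z) := by
      rw [gE, gE, ← sub_re, e2]
      refine (abs_re_le_norm _).trans ?_
      rw [norm_mul, norm_real, Real.norm_of_nonneg (Real.exp_pos _).le]
      refine mul_le_mul c1 (norm_add_le_of_le ?_ ?_) (norm_nonneg _) (by positivity)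
      · rw [norm_mul, norm_real, Real.norm_of_nonneg (Real.exp_pos _).le]; gcongr
      · rw [norm_mul, norm_real, Real.norm_of_nonneg (by linarith)]; gcongr
    have c6 : Real.exp (2 * α * Y) = Real.exp (α * Y) ^ 2 := by
      rw [← Real.exp_nat_mul]; congr 1; push_cast; ring
    rw [← sq_abs, Pi.add_apply, c6]
    refine (pow_le_pow_left₀ (abs_nonneg _) c5 2).trans ?_
    have p : 0 ≤ e ^ 4 * Real.exp (α * Y) ^ 2 := by positivity
    nlinarith [mul_nonneg p (sq_nonneg (x - v * z))]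
  · rw [integral_const_mul, integral_add' i1 (i0.const_mul _), integral_const_mul, ← hJ]
    calc _ ≤ 2 * e ^ 4 * Real.exp (2 * α * Y) * (K * v ^ (1 - ε) + v ^ (1 - ε) * J) := by
          gcongr; exact hK v v0
      _ = _ := by ring

theorem inc_fin {ν : ℝ} (h : F.H2 β) (k : ∀ e : ℝ, 0 < e → e ≤ 1 → ∃ α : ℝ, β < α ∧ 0 ≤ α ∧ α ≤ 1 ∧
    2 * α ≤ 1 + ν ∧ F.Il α e) : Inc F.gE ν := by
  intro ε hε
  have e0 : 0 < min ε 1 := lt_min hε one_pos
  obtain ⟨α, a1, a2, a3, a4, a5⟩ := k _ e0 (min_le_right _ _)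
  obtain ⟨K, k0, hK⟩ := inc_of h a1 a2 a3 e0 (min_le_right _ _) a5
  refine ⟨K, k0, fun Y v hY v0 v1 => (hK Y v hY v0 v1).trans ?_⟩
  have := Real.rpow_le_rpow_of_exponent_ge v0 v1 (sub_le_sub_left (min_le_left ε 1) 1)
  gcongr
  linarith

theorem inc_gen (hd : 2 ≤ F.deg) (h : F.H2 ((F.deg - 1) / (2 * F.deg))) :
    Inc F.gE (1 / F.deg) := by
  have d0 : 0 < 2 * F.deg := by linarith
  refine inc_fin h fun e e0 e1 => ⟨_, div_lt_div_of_pos_right (by linarith) d0,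
    div_nonneg (by linarith) d0.le, (div_le_one d0).2 (by linarith), ?_, il_gen hd h e0 e1⟩
  have : 2 * ((F.deg + 1 - e) / (2 * F.deg)) = 1 + 1 / F.deg - e / F.deg := by field_simp
  rw [this]
  exact sub_le_self _ (div_nonneg e0.le (by linarith))

theorem inc_two (hd : F.deg = 2) (h : F.H2 ((F.deg - 1) / (2 * F.deg))) : Inc F.gE 0 :=
  inc_fin h fun _ e0 _ => ⟨1 / 2, by rw [hd]; norm_num, by norm_num, by norm_num, by norm_num,
    il_two hd.le e0⟩

end Sel

end Pool.Agent.Lib.MP_2a1a00_nt
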