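import Pool.Agent.Lib.MP_2a1a00_nt.S.Inc
import Pool.Agent.Lib.MP_2a1a00_nt.S.Two

/-! Local mean squares of trigonometric sums with the frequencies `√ n`. -/

namespace Pool.Agent.Lib.MP_2a1a00_nt

open MeasureTheory Set Complex

theorem conv_sq {F : ℝ → ℂ} (hF : Continuous F) {ρ : ℝ → ℝ} (hρ : Continuous ρ)
    (h0 : ∀ s, 0 ≤ ρ s) {s₀ s₁ a b m Z : ℝ} (hs : s₀ ≤ s₁) (hab : a ≤ b) (m0 : 0 < m)
    (hm : ∫ s in s₀..s₁, ρ s ≤ m) (hZ : ∀ s ∈ Icc s₀ s₁, ∫ y in a..b, ‖F (y + s)‖ ^ 2 ≤ Z) :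
    ∫ y in a..b, ‖∫ s in s₀..s₁, (ρ s : ℂ) * F (y + s)‖ ^ 2 ≤ m ^ 2 * Z := by
  have c1 : Continuous (Function.uncurry fun y s : ℝ => (ρ s : ℂ) * F (y + s)) := by
    unfold Function.uncurry; fun_prop
  have c2 : Continuous (Function.uncurry fun y s : ℝ => ρ s * ‖F (y + s)‖ ^ 2) := by
    unfold Function.uncurry; fun_prop
  have Z0 : 0 ≤ Z := (intervalIntegral.integral_nonneg hab fun _ _ => sq_nonneg _).trans
    (hZ s₀ ⟨le_rfl, hs⟩)
  have key : ∀ y, ‖∫ s in s₀..s₁, (ρ s : ℂ) * F (y + s)‖ ^ 2 ≤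
      m * ∫ s in s₀..s₁, ρ s * ‖F (y + s)‖ ^ 2 := fun y => by
    have i1 : IntervalIntegrable (fun s => ρ s * ‖F (y + s)‖) volume s₀ s₁ :=
      Continuous.intervalIntegrable (by fun_prop) _ _
    have i2 : IntervalIntegrable (fun s => ρ s * ‖F (y + s)‖ ^ 2) volume s₀ s₁ :=
      Continuous.intervalIntegrable (by fun_prop) _ _
    have a1 : ‖∫ s in s₀..s₁, (ρ s : ℂ) * F (y + s)‖ ≤ ∫ s in s₀..s₁, ρ s * ‖F (y + s)‖ := by
      refine (intervalIntegral.norm_integral_le_integral_norm hs).trans_eq ?_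
      simp only [norm_mul, norm_real, Real.norm_of_nonneg (h0 _)]
    set t := ∫ s in s₀..s₁, ρ s * ‖F (y + s)‖
    have a2 := intervalIntegral.integral_mono_on (μ := volume) hs (i1.const_mul (2 * (t / m)))
      (i2.add ((hρ.intervalIntegrable _ _).const_mul ((t / m) ^ 2))) fun s _ => by
        nlinarith [mul_nonneg (h0 s) (sq_nonneg (‖F (y + s)‖ - t / m))]
    rw [intervalIntegral.integral_add i2 ((hρ.intervalIntegrable _ _).const_mul _),
      intervalIntegral.integral_const_mul, intervalIntegral.integral_const_mul] at a2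
    have a3 := mul_le_mul_of_nonneg_left hm (sq_nonneg (t / m))
    have a4 : t = t / m * m := by field_simp
    refine (pow_le_pow_left₀ (norm_nonneg _) a1 2).trans ?_
    rw [show ∫ x in s₀..s₁, ρ x * ‖F (y + x)‖ = t from rfl] at a2
    generalize t / m = r at a2 a3 a4
    rw [a4] at a2 ⊢
    nlinarith
  refine (intervalIntegral.integral_mono_on hab
    ((intervalIntegral.continuous_parametric_intervalIntegral_of_continuous' c1 _
      _).norm.pow 2 |>.intervalIntegrable _ _)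
    (((intervalIntegral.continuous_parametric_intervalIntegral_of_continuous' c2 _
      _).intervalIntegrable _ _).const_mul m) fun y _ => key y).trans ?_
  rw [intervalIntegral.integral_const_mul, vav_swap c2 hs, sq, mul_assoc]
  gcongr
  simp only [intervalIntegral.integral_const_mul]
  have c3 : Continuous fun s => ∫ y in a..b, ‖F (y + s)‖ ^ 2 :=
    intervalIntegral.continuous_parametric_intervalIntegral_of_continuous'
      (f := fun s y : ℝ => ‖F (y + s)‖ ^ 2) (by unfold Function.uncurry; fun_prop) _ _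
  refine (intervalIntegral.integral_mono_on hs ((hρ.mul c3).intervalIntegrable _ _)
    ((hρ.intervalIntegrable _ _).mul_const Z) fun s hs' =>
      mul_le_mul_of_nonneg_left (hZ s hs') (h0 s)).trans ?_
  rw [intervalIntegral.integral_mul_const]
  gcongr

/-- A trigonometric sum in the logarithmic variable. -/
noncomputable def tg (κ : ℝ) (c : ℕ → ℂ) (N : ℕ) (y : ℝ) : ℂ :=
  ∑ n ∈ Finset.Ioc 0 N, c n * exp (I * (κ * (n : ℝ) ^ (1 / 2 : ℝ) * Real.exp (y / 2) : ℝ))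

theorem tg_cont (κ : ℝ) (c : ℕ → ℂ) (N : ℕ) : Continuous (tg κ c N) := by
  unfold tg; fun_prop

theorem lmv {κ : ℝ} (hκ : κ ≠ 0) : ∃ C : ℝ, 0 < C ∧ ∀ (c : ℕ → ℂ) (N : ℕ) (K D a L : ℝ),
    0 ≤ L → L ≤ 1 → (∀ n ∈ Finset.Ioc 0 N, ‖c n‖ ≤ K * (n : ℝ) ^ (-(3 / 4) : ℝ)) →
    ∑ n ∈ Finset.Ioc 0 N, ‖c n‖ ^ 2 ≤ D → ∫ y in a..a + L, ‖tg κ c N y‖ ^ 2 ≤
      C * (L * D + (Real.exp (a / 2))⁻¹ * (K ^ 2 * (1 + Real.log N) ^ 2)) := by
  obtain ⟨C, c0, hC⟩ := vh4_dbl (d := 2) le_rfl hκ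
  refine ⟨2 * (C + 1), by positivity, fun c N K D a L L0 L1 hc hD => ?_⟩
  have D0 : 0 ≤ D := (Finset.sum_nonneg fun _ _ => sq_nonneg _).trans hD
  set t := Real.exp (a / 2) with ht
  have t0 : 0 < t := Real.exp_pos _
  set ℓ := Real.exp ((a + L) / 2) - t with hℓ
  have l0 : 0 ≤ ℓ := sub_nonneg.2 (Real.exp_le_exp.2 (by linarith))
  have l1 : ℓ ≤ t * L := by
    have := (abs_le.1 (Real.abs_exp_sub_one_le (x := L / 2) (abs_le.2 ⟨by linarith, by linarith⟩))).2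
    rw [abs_of_nonneg (by linarith)] at this
    rw [hℓ, add_div, Real.exp_add]
    nlinarith
  set G : ℝ → ℝ := fun v =>
    ‖∑ n ∈ Finset.Ioc 0 N, c n * exp (I * (κ * (n : ℝ) ^ (1 / 2 : ℝ) * v : ℝ))‖ ^ 2 with hG
  have cG : Continuous G := by rw [hG]; fun_prop
  have a1 := intervalIntegral.integral_comp_mul_deriv (a := a) (b := a + L)
    (f := fun y => Real.exp (y / 2)) (f' := fun y => Real.exp (y / 2) * (1 / 2)) (g := G)
    (fun y _ => ((hasDerivAt_id y).div_const 2).exp) (by fun_prop) cG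
  have a2 := intervalIntegral.integral_mono_on (μ := volume) (by linarith : a ≤ a + L)
    (f := fun y => t / 2 * ‖tg κ c N y‖ ^ 2)
    (g := fun y => (G ∘ fun y => Real.exp (y / 2)) y * (Real.exp (y / 2) * (1 / 2)))
    ((((tg_cont κ c N).norm.pow 2).intervalIntegrable _ _).const_mul _)
    (Continuous.intervalIntegrable (by fun_prop) _ _) fun y hy => by
      have : t ≤ Real.exp (y / 2) := Real.exp_le_exp.2 (by linarith [hy.1])
      rw [mul_comm]
      exact mul_le_mul_of_nonneg_left (by linarith) (sq_nonneg _)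
  have a3 := mvt_abs (Finset.Ioc 0 N) c (fun n => κ * (n : ℝ) ^ (1 / 2 : ℝ)) t l0
  have a4 := hC 0 N 0 le_rfl
  rw [al_two] at a4
  have a5 : ∑ x ∈ Finset.Ioc 0 N, ∑ y ∈ Finset.Ioc 0 N, ‖c x‖ * ‖c y‖ *
      KK ℓ (κ * (x : ℝ) ^ (1 / 2 : ℝ)) (κ * (y : ℝ) ^ (1 / 2 : ℝ)) ≤
      ∑ x ∈ Finset.Ioc 0 N, (ℓ * ‖c x‖ ^ 2 + K ^ 2 * ∑ y ∈ Finset.Ioc 0 N,
        (x : ℝ) ^ (1 / 4 - 1 : ℝ) * (y : ℝ) ^ (1 / 4 - 1 : ℝ) *
          KK 0 (κ * (x : ℝ) ^ (1 / 2 : ℝ)) (κ * (y : ℝ) ^ (1 / 2 : ℝ))) := by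
    refine Finset.sum_le_sum fun x hx => ?_
    rw [← Finset.sum_ite_eq_of_mem (Finset.Ioc 0 N) x (fun _ => ℓ * ‖c x‖ ^ 2) hx, Finset.mul_sum,
      ← Finset.sum_add_distrib]
    refine Finset.sum_le_sum fun y hy => ?_
    rcases eq_or_ne x y with rfl | h
    · simp only [KK, if_true]
      nlinarith
    · have h' : κ * (x : ℝ) ^ (1 / 2 : ℝ) ≠ κ * (y : ℝ) ^ (1 / 2 : ℝ) := fun e => h (by
        exact_mod_cast (Real.rpow_left_inj (Nat.cast_nonneg x) (Nat.cast_nonneg y)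
          (by norm_num)).1 (mul_left_cancel₀ hκ e))
      simp only [KK, if_neg h, if_neg h', zero_add, show (1 / 4 - 1 : ℝ) = -(3 / 4) by norm_num]
      refine (mul_le_mul_of_nonneg_right (mul_le_mul (hc x hx) (hc y hy) (norm_nonneg _)
        ((norm_nonneg _).trans (hc x hx))) (by positivity)).trans_eq (by ring)
  rw [Finset.sum_add_distrib, ← Finset.mul_sum, ← Finset.mul_sum] at a5
  rw [hℓ, add_sub_cancel, ← hℓ] at a3
  rw [a1, intervalIntegral.integral_const_mul] at a2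
  rw [zero_mul, zero_add, show (1 - 2 / 2 : ℝ) = 0 by norm_num, Real.rpow_zero, one_mul] at a4
  have a6 := a2.trans (a3.trans (a5.trans (add_le_add (mul_le_mul l1 hD
    (Finset.sum_nonneg fun _ _ => sq_nonneg _) (by positivity))
    (mul_le_mul_of_nonneg_left a4 (sq_nonneg K)))))
  refine le_of_mul_le_mul_left (a6.trans ?_) (half_pos t0)
  have e : t / 2 * (2 * (C + 1) * (L * D + t⁻¹ * (K ^ 2 * (1 + Real.log N) ^ 2))) =
      (C + 1) * (t * L * D + K ^ 2 * (1 + Real.log N) ^ 2) := by field_simp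
  rw [e]
  have p1 : 0 ≤ t * L * D := by positivity
  have p2 : 0 ≤ K ^ 2 * (1 + Real.log N) ^ 2 := by positivity
  nlinarith

theorem tg_der (β : ℂ) (κ : ℝ) (c : ℕ → ℂ) (N : ℕ) (y : ℝ) :
    HasDerivAt (fun y : ℝ => exp (β * y) * tg κ c N y) (exp (β * y) * (β * tg κ c N y +
      (Real.exp (y / 2) / 2 : ℝ) *
        tg κ (fun n => I * (κ * (n : ℝ) ^ (1 / 2 : ℝ) : ℝ) * c n) N y)) y := by
  have h1 : HasDerivAt (fun y : ℝ => exp (β * y)) (exp (β * y) * β) y := by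
    simpa using ((hasDerivAt_id y).ofReal_comp.const_mul β).cexp
  have h2 : HasDerivAt (tg κ c N) ((Real.exp (y / 2) / 2 : ℝ) *
      tg κ (fun n => I * (κ * (n : ℝ) ^ (1 / 2 : ℝ) : ℝ) * c n) N y) y := by
    unfold tg
    rw [Finset.mul_sum]
    refine HasDerivAt.fun_sum fun n _ => ?_
    refine (((((hasDerivAt_id y).div_const 2).exp.const_mul
      (κ * (n : ℝ) ^ (1 / 2 : ℝ))).ofReal_comp.const_mul I).cexp.const_mul (c n)).congr_deriv ?_
    simp only [id]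
    push_cast
    ring
  exact (h1.mul h2).congr_deriv (by ring)

theorem tg_wt {β : ℂ} (hβ : β.re = 1 / 4) {f : ℝ → ℂ} (hf : Continuous f) {a b A : ℝ} (hab : a ≤ b)
    (hb : b ≤ A + 1) : ∫ y in a..b, ‖exp (β * y) * f y‖ ^ 2 ≤
      2 * Real.exp (A / 2) * ∫ y in a..b, ‖f y‖ ^ 2 := by
  rw [← intervalIntegral.integral_const_mul]
  refine intervalIntegral.integral_mono_on hab (Continuous.intervalIntegrable (by fun_prop) _ _)
    (Continuous.intervalIntegrable (by fun_prop) _ _) fun y hy => ?_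
  rw [norm_mul, mul_pow, norm_exp, re_mul_ofReal, hβ, ← Real.exp_nat_mul]
  gcongr
  have h1 : Real.exp (1 / 2) ≤ 2 := by
    have := Real.exp_one_lt_d9
    have e : Real.exp (1 / 2) ^ 2 = Real.exp 1 := by rw [← Real.exp_nat_mul]; norm_num
    nlinarith [Real.exp_pos (1 / 2)]
  calc _ ≤ Real.exp (1 / 2) * Real.exp (A / 2) := by
        rw [← Real.exp_add]; exact Real.exp_le_exp.2 (by push_cast; linarith [hy.2])
    _ ≤ _ := by gcongr

theorem lmv2 {κ : ℝ} (hκ : κ ≠ 0) {β : ℂ} (hβ : β.re = 1 / 4) : ∃ C : ℝ, 0 < C ∧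
    ∀ (c : ℕ → ℂ) (N : ℕ) (K D a σ L : ℝ), 0 ≤ σ → σ ≤ 1 / 2 → 0 ≤ L → L ≤ 1 / 2 →
    (∀ n ∈ Finset.Ioc 0 N, ‖c n‖ ≤ K * (n : ℝ) ^ (-(3 / 4) : ℝ)) →
    ∑ n ∈ Finset.Ioc 0 N, ‖c n‖ ^ 2 ≤ D →
    ∫ y in a..a + L, ‖exp (β * (y + σ : ℝ)) * tg κ c N (y + σ)‖ ^ 2 ≤
      C * (Real.exp (a / 2) * L * D + K ^ 2 * (1 + Real.log N) ^ 2) := by
  obtain ⟨C, c0, hC⟩ := lmv hκ
  refine ⟨2 * C, by positivity, fun c N K D a σ L s0 s1 L0 L1 hc hD => ?_⟩
  rw [intervalIntegral.integral_comp_add_right (fun y : ℝ => ‖exp (β * y) * tg κ c N y‖ ^ 2),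
    add_right_comm]
  refine (tg_wt hβ (tg_cont κ c N) (by linarith) (by linarith : a + σ + L ≤ a + 1)).trans ?_
  have t0 := Real.exp_pos (a / 2)
  have h1 : (Real.exp ((a + σ) / 2))⁻¹ ≤ (Real.exp (a / 2))⁻¹ :=
    inv_anti₀ t0 (Real.exp_le_exp.2 (by linarith))
  calc _ ≤ 2 * Real.exp (a / 2) *
        (C * (L * D + (Real.exp (a / 2))⁻¹ * (K ^ 2 * (1 + Real.log N) ^ 2))) := by
        gcongr
        exact (hC c N K D _ L L0 (by linarith) hc hD).trans (by gcongr)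
    _ = _ := by field_simp

theorem sq_three (x y z : ℂ) : ‖x + y - z‖ ^ 2 ≤ 3 * (‖x‖ ^ 2 + ‖y‖ ^ 2 + ‖z‖ ^ 2) := by
  have h := pow_le_pow_left₀ (norm_nonneg _) (norm_sub_le_of_le (norm_add_le x y) (le_refl ‖z‖)) 2
  nlinarith [sq_nonneg (‖x‖ - ‖y‖), sq_nonneg (‖x‖ - ‖z‖), sq_nonneg (‖y‖ - ‖z‖)]

theorem tg_inc {κ : ℝ} (hκ : κ ≠ 0) {β : ℂ} (hβ : β.re = 1 / 4) : ∃ C : ℝ, 0 < C ∧
    ∀ (c : ℕ → ℂ) (N : ℕ) (K a L w : ℝ), 0 ≤ K →
    (∀ n ∈ Finset.Ioc 0 N, ‖c n‖ ≤ K * (n : ℝ) ^ (-(3 / 4) : ℝ)) → 0 < w → w ≤ 1 / 2 → 0 ≤ L →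
    L ≤ 1 / 2 → -1 ≤ a → ∫ y in a..a + L, ‖exp (β * (y + w : ℝ)) * tg κ c N (y + w) -
      exp (β * y) * tg κ c N y‖ ^ 2 ≤
      C * (K ^ 2 * (1 + Real.log N) ^ 2 * (w * L * Real.exp a + 1)) := by
  obtain ⟨C, c0, hC⟩ := lmv2 hκ hβ
  obtain ⟨C₁, c1, h1⟩ := sum_rpow_tail (β := 1 / 2) one_half_pos
  obtain ⟨C₂, c2, h2⟩ := sum_rpow_head (β := 1 / 2) one_half_pos
  refine ⟨3 * (2 * C * (‖β‖ ^ 2 * (C₁ + 1) + κ ^ 2 * (C₂ + 1)) + 2 * (C * (C₁ + 1))),
    by positivity, fun c N K a L w k0 hc w0 w1 L0 L1 ha => ?_⟩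
  set s := Real.exp (a / 2) with hs
  have s0 : 0 < s := Real.exp_pos _
  have s1 : 1 / 2 ≤ s := by linarith [Real.add_one_le_exp (a / 2)]
  have s2 : Real.exp a = s ^ 2 := by rw [hs, ← Real.exp_nat_mul]; congr 1; push_cast; ring
  set r := w * s with hr
  have r0 : 0 < r := by positivity
  set M := ⌊(r ^ 2)⁻¹⌋₊ with hM
  set Λ := (1 + Real.log N) ^ 2 with hΛ
  have Λ1 : 1 ≤ Λ := one_le_pow₀ (by linarith [Real.log_natCast_nonneg N])
  have m1 : (M : ℝ) ^ (1 / 2 : ℝ) ≤ r⁻¹ := by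
    rw [← Real.sqrt_eq_rpow, Real.sqrt_le_left (by positivity), inv_pow]
    exact Nat.floor_le (by positivity)
  have m2 : ((M : ℝ) + 1) ^ (-(1 / 2) : ℝ) ≤ r := by
    rw [Real.rpow_neg (by positivity), ← Real.sqrt_eq_rpow, inv_le_comm₀ (by positivity) r0,
      Real.le_sqrt' (by positivity), inv_pow]
    exact (Nat.lt_floor_add_one _).le
  have sq : ∀ n ∈ Finset.Ioc 0 N, ‖c n‖ ^ 2 ≤ K ^ 2 * (n : ℝ) ^ (-1 - 1 / 2 : ℝ) := fun n hn => by
    refine (pow_le_pow_left₀ (norm_nonneg _) (hc n hn) 2).trans_eq ?_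
    rw [mul_pow, ← Real.rpow_natCast (_ ^ _), ← Real.rpow_mul (Nat.cast_nonneg n)]
    norm_num
  set cl : ℕ → ℂ := fun n => if n ≤ M then c n else 0 with hcl
  set ch : ℕ → ℂ := fun n => if n ≤ M then 0 else c n with hch
  set cd : ℕ → ℂ := fun n => I * (κ * (n : ℝ) ^ (1 / 2 : ℝ) : ℝ) * cl n with hcd
  have n1 : ∀ n, ‖cl n‖ ≤ ‖c n‖ := fun n => by simp only [hcl]; split_ifs <;> simp
  have n2 : ∀ n, ‖ch n‖ ≤ ‖c n‖ := fun n => by simp only [hch]; split_ifs <;> simp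
  have n3 : ∀ n, ‖cd n‖ = |κ| * (n : ℝ) ^ (1 / 2 : ℝ) * ‖cl n‖ := fun n => by
    simp only [hcd, norm_mul, norm_I, norm_real, Real.norm_eq_abs, one_mul]
    rw [abs_of_nonneg (a := (n : ℝ) ^ (1 / 2 : ℝ)) (by positivity)]
  have d1 : ∑ n ∈ Finset.Ioc 0 N, ‖cl n‖ ^ 2 ≤ K ^ 2 * C₁ := by
    refine (Finset.sum_le_sum fun n hn => (pow_le_pow_left₀ (norm_nonneg _) (n1 n) 2).trans
      (sq n hn)).trans ?_
    rw [← Finset.mul_sum]
    gcongr
    simpa using h1 0 N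
  have d2 : ∑ n ∈ Finset.Ioc 0 N, ‖ch n‖ ^ 2 ≤ K ^ 2 * (C₁ * r) := by
    calc _ = ∑ n ∈ Finset.Ioc M N, ‖ch n‖ ^ 2 := by
          refine (Finset.sum_subset (Finset.Ioc_subset_Ioc_left M.zero_le) fun n h h' => ?_).symm
          rw [Finset.mem_Ioc] at h h'
          simp only [hch]
          rw [if_pos (by omega)]; simp
      _ ≤ ∑ n ∈ Finset.Ioc M N, K ^ 2 * (n : ℝ) ^ (-1 - 1 / 2 : ℝ) :=
          Finset.sum_le_sum fun n hn => (pow_le_pow_left₀ (norm_nonneg _) (n2 n) 2).trans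
            (sq n (Finset.Ioc_subset_Ioc_left M.zero_le hn))
      _ ≤ _ := by
          rw [← Finset.mul_sum]
          gcongr
          exact (h1 M N).trans (by gcongr)
  have d3 : ∑ n ∈ Finset.Ioc 0 N, ‖cd n‖ ^ 2 ≤ κ ^ 2 * K ^ 2 * (C₂ * r⁻¹) := by
    calc _ ≤ ∑ n ∈ Finset.Ioc 0 N,
          if n ∈ Finset.Icc 1 M then κ ^ 2 * K ^ 2 * (n : ℝ) ^ (1 / 2 - 1 : ℝ) else 0 := by
          refine Finset.sum_le_sum fun n hn => ?_
          have n0 := (Finset.mem_Ioc.1 hn).1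
          have n0' : (0 : ℝ) < n := by exact_mod_cast n0
          rw [n3]
          split_ifs with h
          · rw [mul_pow, mul_pow, sq_abs, mul_assoc, mul_assoc]
            refine mul_le_mul_of_nonneg_left ?_ (sq_nonneg κ)
            refine (mul_le_mul_of_nonneg_left ((pow_le_pow_left₀ (norm_nonneg _) (n1 n) 2).trans
              (sq n hn)) (sq_nonneg _)).trans_eq ?_
            rw [mul_left_comm, ← Real.rpow_natCast (_ ^ _), ← Real.rpow_mul n0'.le,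
              ← Real.rpow_add n0']
            norm_num
          · rw [Finset.mem_Icc] at h
            simp only [hcl]
            rw [if_neg (by omega)]; simp
      _ ≤ ∑ n ∈ Finset.Icc 1 M, κ ^ 2 * K ^ 2 * (n : ℝ) ^ (1 / 2 - 1 : ℝ) := by
          rw [Finset.sum_ite_mem]
          exact Finset.sum_le_sum_of_subset_of_nonneg Finset.inter_subset_right
            fun _ _ _ => by positivity
      _ ≤ _ := by
          rw [← Finset.mul_sum]
          gcongr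
          exact (h2 M).trans (by gcongr)
  have n4 : ∀ n ∈ Finset.Ioc 0 N, ‖cd n‖ ≤ |κ| * r⁻¹ * K * (n : ℝ) ^ (-(3 / 4) : ℝ) := fun n hn => by
    rw [n3, mul_assoc (|κ| * r⁻¹)]
    by_cases h : n ≤ M
    · have : (n : ℝ) ^ (1 / 2 : ℝ) ≤ r⁻¹ := le_trans (by gcongr) m1
      have := (n1 n).trans (hc n hn)
      gcongr
    · simp only [hcl]
      rw [if_neg h, norm_zero, mul_zero]; positivity
  have e1 : ∀ y, tg κ c N y = tg κ cl N y + tg κ ch N y := fun y => by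
    rw [tg, tg, tg, ← Finset.sum_add_distrib]
    refine Finset.sum_congr rfl fun n _ => ?_
    simp only [hcl, hch]; split_ifs <;> simp
  set f' : ℝ → ℂ := fun y => exp (β * y) * (β * tg κ cl N y + (Real.exp (y / 2) / 2 : ℝ) *
    tg κ cd N y) with hf'
  have k1 := tg_cont κ cl N
  have k2 := tg_cont κ ch N
  have k3 := tg_cont κ cd N
  have cf' : Continuous f' := by rw [hf']; fun_prop
  have e2 : ∀ y : ℝ, exp (β * (y + w : ℝ)) * tg κ c N (y + w) - exp (β * y) * tg κ c N y =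
      (∫ σ in (0 : ℝ)..w, ((1 : ℝ) : ℂ) * f' (y + σ)) + exp (β * (y + w : ℝ)) * tg κ ch N (y + w) -
        exp (β * (y + 0 : ℝ)) * tg κ ch N (y + 0) := fun y => by
    simp only [ofReal_one, one_mul, add_zero]
    rw [intervalIntegral.integral_comp_add_left f', add_zero,
      intervalIntegral.integral_eq_sub_of_hasDerivAt (fun y _ => tg_der β κ cl N y)
        (cf'.intervalIntegrable _ _), e1, e1]
    ring
  have b1 := fun σ s0 s1 => hC ch N K _ a σ L s0 s1 L0 L1 (fun n hn => (n2 n).trans (hc n hn)) d2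
  have b2 := conv_sq cf' (ρ := fun _ => 1) continuous_const (fun _ => zero_le_one) w0.le
    (by linarith : a ≤ a + L) w0 (by simp) (Z := 2 * ‖β‖ ^ 2 * (C * (s * L * (K ^ 2 * C₁) +
      K ^ 2 * Λ)) + 2 * s ^ 2 * (C * (s * L * (κ ^ 2 * K ^ 2 * (C₂ * r⁻¹)) +
        (|κ| * r⁻¹ * K) ^ 2 * Λ))) fun σ hσ => by
      have g1 := hC cl N K _ a σ L hσ.1 (hσ.2.trans w1) L0 L1
        (fun n hn => (n1 n).trans (hc n hn)) d1
      have g2 := hC cd N _ _ a σ L hσ.1 (hσ.2.trans w1) L0 L1 n4 d3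
      refine le_trans ?_ (add_le_add (mul_le_mul_of_nonneg_left g1 (by positivity))
        (mul_le_mul_of_nonneg_left g2 (by positivity)))
      rw [← intervalIntegral.integral_const_mul, ← intervalIntegral.integral_const_mul,
        ← intervalIntegral.integral_add (Continuous.intervalIntegrable (by fun_prop) _ _)
          (Continuous.intervalIntegrable (by fun_prop) _ _)]
      refine intervalIntegral.integral_mono_on (by linarith)
        (Continuous.intervalIntegrable (by fun_prop) _ _)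
        (Continuous.intervalIntegrable (by fun_prop) _ _) fun y hy => ?_
      have g3 : Real.exp ((y + σ) / 2) / 2 ≤ s := by
        have : Real.exp ((y + σ) / 2) ≤ Real.exp (1 / 2) * s := by
          rw [hs, ← Real.exp_add]; exact Real.exp_le_exp.2 (by linarith [hy.2, hσ.2])
        have e : Real.exp (1 / 2) ^ 2 = Real.exp 1 := by rw [← Real.exp_nat_mul]; norm_num
        have : Real.exp (1 / 2) ≤ 2 := by nlinarith [Real.exp_pos (1 / 2), Real.exp_one_lt_d9]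
        nlinarith
      set x := ‖exp (β * (y + σ : ℝ)) * tg κ cl N (y + σ)‖ with hx
      set z := ‖exp (β * (y + σ : ℝ)) * tg κ cd N (y + σ)‖ with hz
      have g4 : ‖f' (y + σ)‖ ≤ ‖β‖ * x + s * z := by
        simp only [hf']
        rw [mul_add, mul_left_comm, mul_left_comm _ (_ : ℂ) (tg κ cd N _)]
        refine norm_add_le_of_le (norm_mul _ _).le ?_
        rw [norm_mul, norm_real, Real.norm_of_nonneg (by positivity)]
        gcongr
      refine (pow_le_pow_left₀ (norm_nonneg _) g4 2).trans ?_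
      nlinarith [sq_nonneg (‖β‖ * x - s * z)]
  have c4 : Continuous fun y => ∫ σ in (0 : ℝ)..w, ((1 : ℝ) : ℂ) * f' (y + σ) :=
    intervalIntegral.continuous_parametric_intervalIntegral_of_continuous'
      (by unfold Function.uncurry; fun_prop) _ _
  simp only [e2]
  refine (intervalIntegral.integral_mono_on (by linarith)
    (Continuous.intervalIntegrable (by fun_prop) _ _)
    (Continuous.intervalIntegrable (by fun_prop) _ _) fun y _ => sq_three _ _ _).trans ?_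
  rw [intervalIntegral.integral_const_mul, intervalIntegral.integral_add
    (Continuous.intervalIntegrable (by fun_prop) _ _)
    (Continuous.intervalIntegrable (by fun_prop) _ _), intervalIntegral.integral_add
    (Continuous.intervalIntegrable (by fun_prop) _ _)
    (Continuous.intervalIntegrable (by fun_prop) _ _), mul_assoc 3, s2]
  refine mul_le_mul_of_nonneg_left ((add_le_add (add_le_add b2 (b1 w w0.le w1))
    (b1 0 le_rfl (by norm_num))).trans ?_) (by norm_num)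
  set X := w * L * s ^ 2 with hX
  have X0 : 0 ≤ X := by positivity
  have p1 : X ≤ Λ * (X + 1) := by nlinarith
  have p2 : Λ ≤ Λ * (X + 1) := by nlinarith
  have p3 : w ^ 2 * (s * L) ≤ X := by
    have : w * (w * L * s) ≤ s * (w * L * s) := by gcongr; linarith
    rw [hX]; nlinarith
  have p4 : w ^ 2 * Λ ≤ Λ := by nlinarith [mul_le_mul w1 w1 w0.le (by norm_num)]
  set U := Λ * (X + 1) with hU
  calc _ = K ^ 2 * (2 * C * (‖β‖ ^ 2 * (C₁ * (w ^ 2 * (s * L)) + w ^ 2 * Λ) +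
        κ ^ 2 * (C₂ * X + Λ)) + 2 * (C * (C₁ * X + Λ))) := by
        rw [mul_pow, mul_pow |κ|, sq_abs, hX, hr]; field_simp; ring
    _ ≤ K ^ 2 * (2 * C * (‖β‖ ^ 2 * (C₁ * U + U) + κ ^ 2 * (C₂ * U + U)) +
        2 * (C * (C₁ * U + U))) := by gcongr <;> linarith
    _ = _ := by rw [hU]; ring

end Pool.Agent.Lib.MP_2a1a00_nt
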