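import Pool.Agent.Lib.MP_2a1a00_nt.S.Lv

/-! The local variation of the error term of degree two. -/

namespace Pool.Agent.Lib.MP_2a1a00_nt

open MeasureTheory Set Complex

/-- The local quadratic variation, up to a small uniform error. -/
def Var2 (g : ℝ → ℝ) : Prop :=
  ∀ κ ε : ℝ, 0 < κ → κ ≤ 1 / 8 → 0 < ε → ∃ K : ℝ, 0 ≤ K ∧ ∀ (Y p η : ℝ) (N : ℕ), 0 ≤ Y → Y ≤ p →
    p + N * η ≤ Y + 1 → Real.exp (-(3 / 4) * Y) ≤ η → ∃ o : ℕ → ℝ, (∀ i, 0 ≤ o i) ∧
      Ob g p η N (fun i => o i + K * Real.exp ((1 / 4 - κ + ε) * Y)) ∧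
      ∑ i ∈ Finset.range N, o i ^ 2 ≤
        K * Real.exp (ε * Y) * (N * η * Real.exp Y + Real.exp ((3 / 4 + κ) * Y))

theorem osc_d {g : ℝ → ℝ} {l : ℕ} {v u : ℝ} (h : Var2 g) (hL : Lip g) (hl : 2 ≤ l) (hv : v ≤ 3 / 4)
    (hc : (l - 1) * (1 - v) + max (u - 1 / 4) 0 < l / 4) : Osc g l (l / 4) v u := by
  have l0 : (2 : ℝ) ≤ l := by exact_mod_cast hl
  set γ := l / 4 - ((l - 1) * (1 - v) + max (u - 1 / 4) 0) with hγ
  have γ0 : 0 < γ := by linarith
  set κ := min (1 / 8) (γ / 4) with hκ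
  have κ0 : 0 < κ := lt_min (by norm_num) (by linarith)
  have κ1 : κ ≤ γ / 4 := min_le_right _ _
  set ε := κ / (2 * l) with hε
  have ε0 : 0 < ε := by positivity
  have ε1 : l * ε = κ / 2 := by rw [hε]; field_simp
  have m1 := le_max_left (u - 1 / 4) 0
  have m2 := le_max_right (u - 1 / 4) 0
  obtain ⟨K, k0, hK⟩ := h κ ε κ0 (min_le_left _ _) ε0
  obtain ⟨K', k1, hK'⟩ := hL.ob v ε0
  refine ⟨κ, κ0, 2 ^ (l - 1) * (K' ^ (l - 2) * K * 4 + K ^ l), by positivity,
    fun Y p η N hY hp hq h1 h2 h3 => ?_⟩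
  have η0 : 0 < η := (Real.exp_pos _).trans_le h1
  obtain ⟨o, o0, ho, hs⟩ := hK Y p η N hY hp hq ((Real.exp_le_exp.2 (by nlinarith)).trans h1)
  have ho' := hK' Y p η N hY hp hq η0.le h2
  rw [max_eq_left (by linarith)] at ho'
  set s := K' * Real.exp ((1 - v + ε) * Y) with hs'
  set M := K * Real.exp ((1 / 4 - κ + ε) * Y) with hM
  have s0 : 0 ≤ s := by positivity
  have M0 : 0 ≤ M := by positivity
  refine ⟨fun i => min (o i) s + M, fun i hi y hy => ?_, ?_⟩
  · simp only [← min_add_add_right]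
    exact le_min (ho i hi y hy) ((ho' i hi y hy).trans (by linarith))
  set E := Real.exp ((l / 4 - κ) * Y) with hE
  have a1 : ∑ i ∈ Finset.range N, min (o i) s ^ l ≤ K' ^ (l - 2) * K * 4 * N * E := by
    refine (sum_pow_le (s := s) hl (fun i _ => le_min (o0 i) s0) fun i _ => min_le_right _ _).trans
      ?_
    have b1 := (Finset.sum_le_sum fun i (_ : i ∈ Finset.range N) => pow_le_pow_left₀
      (le_min (o0 i) s0) (min_le_left (o i) s) 2).trans hs
    set c := (l - 2) * (1 - v + ε) + ε with hc'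
    have b0 : c = (l - 1) * (1 - v) - (1 - v) + (l * ε - ε) := by rw [hc']; ring
    have b2 : Real.exp (c * Y) * (N * η * Real.exp Y) ≤ 2 * N * E := by
      calc _ ≤ Real.exp (c * Y) * (N * (2 * Real.exp (-v * Y)) * Real.exp Y) := by gcongr
        _ = 2 * N * Real.exp ((c - v + 1) * Y) := by
          rw [show (c - v + 1) * Y = c * Y + -v * Y + Y by ring, Real.exp_add, Real.exp_add]; ring
        _ ≤ _ := by
          refine mul_le_mul_of_nonneg_left (Real.exp_le_exp.2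
            (mul_le_mul_of_nonneg_right (by linarith) hY)) (by positivity)
    have b3 : Real.exp (c * Y) * Real.exp ((3 / 4 + κ) * Y) ≤ 2 * N * E := by
      rw [← Real.exp_add, ← add_mul]
      exact osc_fin hY h2 h3 (by linarith)
    calc _ ≤ s ^ (l - 2) * (K * Real.exp (ε * Y) *
          (N * η * Real.exp Y + Real.exp ((3 / 4 + κ) * Y))) := by gcongr
      _ = K' ^ (l - 2) * K * (Real.exp (c * Y) * (N * η * Real.exp Y) +
          Real.exp (c * Y) * Real.exp ((3 / 4 + κ) * Y)) := by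
        rw [hs', mul_pow, ← Real.exp_nat_mul, hc', add_mul (_ * _) ε Y, Real.exp_add,
          Nat.cast_sub hl]
        push_cast; ring_nf
      _ ≤ K' ^ (l - 2) * K * (2 * N * E + 2 * N * E) := by gcongr
      _ = _ := by ring
  have a2 : M ^ l ≤ K ^ l * E := by
    rw [hM, mul_pow, ← Real.exp_nat_mul, ← mul_assoc (l : ℝ)]
    refine mul_le_mul_of_nonneg_left (Real.exp_le_exp.2 (mul_le_mul_of_nonneg_right ?_ hY))
      (by positivity)
    nlinarith
  calc _ ≤ ∑ i ∈ Finset.range N, 2 ^ (l - 1) * (min (o i) s ^ l + K ^ l * E) :=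
        Finset.sum_le_sum fun i _ => (add_pow_le (le_min (o0 i) s0) M0 l).trans (by gcongr)
    _ = 2 ^ (l - 1) * (∑ i ∈ Finset.range N, min (o i) s ^ l + K ^ l * N * E) := by
        rw [← Finset.mul_sum, Finset.sum_add_distrib, Finset.sum_const, Finset.card_range,
          nsmul_eq_mul]
        ring
    _ ≤ 2 ^ (l - 1) * (K' ^ (l - 2) * K * 4 * N * E + K ^ l * N * E) := by gcongr
    _ = _ := by ring

theorem var2_of {g : ℝ → ℝ} (hL : Lip g) (hV : Var g 0)
    (h : ∀ κ ε : ℝ, 0 < κ → κ ≤ 1 / 8 → 0 < ε → ε ≤ 1 / 2 → ∃ K : ℝ, 0 ≤ K ∧ ∀ p : ℝ, 0 ≤ p →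
      ∃ G : ℝ → ℝ, LB G ∧ (∀ y ∈ Icc p (p + 1 / 2),
        |g y - G y| ≤ K * Real.exp ((1 / 4 - κ + ε) * p)) ∧
        ∀ L w : ℝ, 0 < w → w ≤ 1 / 2 → 0 ≤ L → L ≤ 1 / 2 → ∫ y in p..p + L, (G (y + w) - G y) ^ 2 ≤
          K * Real.exp (ε * p) * (w * L * Real.exp p + 1)) : Var2 g := by
  intro κ ε κ0 κ1 hε
  set e := min (ε / 3) (1 / 2) with he
  have e0 : 0 < e := lt_min (by linarith) one_half_pos
  have e1 : e ≤ 1 / 2 := min_le_right _ _
  have e2 : e ≤ ε / 3 := min_le_left _ _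
  obtain ⟨K₀, k0, h0⟩ := hV ε hε
  obtain ⟨K₁, k1, h1⟩ := hL e e0
  obtain ⟨K₂, k2, h2⟩ := h κ e κ0 κ1 e0 e1
  set A := 4 * (2 * (1 / e + 1)) ^ 2 * (K₂ * 18) with hA
  have A0 : 0 ≤ A := by positivity
  refine ⟨2 * K₀ + 4 * K₁ + 18 * K₂ + A, by positivity, fun Y p η N hY hp hq hη => ?_⟩
  have η0 : 0 < η := (Real.exp_pos _).trans_le hη
  have x0 := Real.exp_pos Y
  have x4 := Real.exp_pos ((3 / 4 + κ) * Y)
  rcases le_total (1 / 2) (N * η) with hN | hN
  · obtain ⟨o, o1, o2⟩ := h0 Y p η N hY hp hq ((Real.exp_le_exp.2 (by nlinarith)).trans hη)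
    refine ⟨fun i => |o i|, fun _ => abs_nonneg _, fun i hi y hy => (o1 i hi y hy).trans
      (le_add_of_le_of_nonneg (le_abs_self _) (by positivity)), ?_⟩
    simp only [sq_abs]
    rw [show (1 + 0 + ε) * Y = ε * Y + Y by ring, Real.exp_add] at o2
    calc _ ≤ 2 * K₀ * Real.exp (ε * Y) * (1 / 2 * Real.exp Y + 0) := o2.trans_eq (by ring)
      _ ≤ _ := by gcongr; linarith
  rcases Nat.eq_zero_or_pos N with rfl | hN0
  · exact ⟨fun _ => 0, fun _ => le_rfl, fun i hi => absurd hi (by omega), by simp; positivity⟩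
  have hN' : (1 : ℝ) ≤ N := by exact_mod_cast hN0
  have η1 : η ≤ 1 / 2 := by nlinarith
  obtain ⟨G, g1, g2, g3⟩ := h2 p (hY.trans hp)
  set X := Real.exp ((3 / 4 + κ) * Y) with hX
  have x1 : 1 ≤ η * X := by
    refine le_trans ?_ (mul_le_mul_of_nonneg_right hη x4.le)
    rw [hX, ← Real.exp_add]; exact Real.one_le_exp (by nlinarith)
  obtain ⟨n, n1, n2⟩ := exists_nat_pow_near x1 one_lt_two
  have hsub : Icc p (p + N * η) ⊆ Icc Y (Y + 1) := Icc_subset_Icc hp hq
  have hsub' : Icc p (p + N * η) ⊆ Icc p (p + 1 / 2) := Icc_subset_Icc_right (by linarith)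
  have t0 : (0 : ℝ) < 2 ^ (n + 1) := by positivity
  have ep : ∀ c : ℝ, 0 ≤ c → c ≤ 1 → Real.exp (c * p) ≤ 3 * Real.exp (c * Y) := fun c c0 c1 => by
    have : 0 ≤ N * η := by positivity
    calc _ ≤ Real.exp 1 * Real.exp (c * Y) := by
          rw [← Real.exp_add]; exact Real.exp_le_exp.2 (by nlinarith)
      _ ≤ _ := by gcongr; linarith [Real.exp_one_lt_d9]
  set E := Real.exp ((1 / 4 - κ + ε) * Y) with hE
  have E1 : Real.exp ((1 / 4 - κ + e) * Y) ≤ E := Real.exp_le_exp.2 (by nlinarith)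
  have g4 : ∀ y ∈ Icc p (p + N * η), |g y - G y| ≤ 3 * K₂ * E := fun y hy =>
    (g2 y (hsub' hy)).trans (by nlinarith [ep (1 / 4 - κ + e) (by linarith) (by linarith)])
  obtain ⟨o, ho, hs⟩ := chain2 g1 (M := (2 * K₁ + 6 * K₂) * E)
    (B := K₂ * 18 * Real.exp (e * Y) * (N * η * Real.exp Y + X)) (by positivity) (n + 1) p η N
    (hY.trans hp) η0 (fun y hy y' hy' hyy => by
      have b1 := h1 Y hY y (hsub hy) y' (hsub hy')
      have b2 : |y - y'| * X ≤ 1 := by
        rw [le_div_iff₀ t0] at hyy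
        refine le_of_mul_le_mul_right ?_ t0
        nlinarith
      have b3 : Real.exp Y = X * Real.exp ((1 / 4 - κ) * Y) := by
        rw [hX, ← Real.exp_add]; congr 1; ring
      have b4 : 1 ≤ Real.exp ((1 / 4 - κ) * Y) := Real.one_le_exp (by nlinarith)
      have b5 : K₁ * (|y - y'| * Real.exp Y + 1) * Real.exp (e * Y) ≤ 2 * K₁ * E := by
        calc _ ≤ K₁ * (2 * Real.exp ((1 / 4 - κ) * Y)) * Real.exp (e * Y) := by
              gcongr; rw [b3]; nlinarith
          _ = 2 * K₁ * Real.exp ((1 / 4 - κ + e) * Y) := by rw [add_mul, Real.exp_add]; ring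
          _ ≤ _ := by gcongr
      have c1 := abs_le.1 (b1.trans b5)
      have c2 := abs_le.1 (g4 y hy)
      have c3 := abs_le.1 (g4 y' hy')
      rw [abs_le]
      constructor <;> linarith [c1.1, c1.2, c2.1, c2.2, c3.1, c3.2])
    (fun w w1 w2 => by
      have w0 : 0 < w := lt_of_lt_of_le (by positivity) w1
      have b1 : 1 ≤ 2 * (w * X) := by
        rw [div_le_iff₀ t0, pow_succ] at w1
        refine le_of_mul_le_mul_left ?_ η0
        nlinarith
      have b2 := ep 1 zero_le_one le_rfl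
      rw [one_mul, one_mul] at b2
      refine (g3 _ w w0 (by linarith) (by positivity) hN).trans ?_
      calc _ ≤ K₂ * (3 * Real.exp (e * Y)) * (w * (N * η) * (3 * Real.exp Y) + 2 * (w * X)) := by
            gcongr; exact ep e e0.le (by linarith)
        _ = w * (K₂ * Real.exp (e * Y) * (9 * (N * η * Real.exp Y) + 6 * X)) := by ring
        _ ≤ w * (K₂ * Real.exp (e * Y) * (18 * (N * η * Real.exp Y) + 18 * X)) := by
            gcongr <;> norm_num
        _ = _ := by ring)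
  refine ⟨fun i => 2 * |o i|, fun _ => by positivity, fun i hi y hy => ?_, ?_⟩
  · have y0 : p + i * η ∈ Icc (p + i * η) (p + (i + 1) * η) := ⟨le_rfl, by nlinarith⟩
    have c1 := abs_le.1 (ho i hi y hy)
    have c2 := abs_le.1 (ho i hi _ y0)
    have c3 := abs_le.1 (g4 y (sub_Icc η0.le hi hy))
    have c4 := abs_le.1 (g4 _ (sub_Icc η0.le hi y0))
    have c5 : 0 ≤ (2 * K₀ + A) * E := by positivity
    rw [abs_le]
    constructor <;> linarith [c1.1, c1.2, c2.1, c2.2, c3.1, c3.2, c4.1, c4.2, le_abs_self (o i)]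
  · have a1 : (n : ℝ) ≤ 2 * Y := by
      have b0 : X ≤ Real.exp Y := Real.exp_le_exp.2 (by nlinarith)
      have b1 : (2 : ℝ) ^ n ≤ Real.exp Y := by nlinarith
      have b2 := Real.log_le_log (by positivity) b1
      rw [Real.log_pow, Real.log_exp] at b2
      nlinarith [Real.log_two_gt_d9, (Nat.cast_nonneg n : (0 : ℝ) ≤ n)]
    have a2 : ((n + 1 : ℕ) : ℝ) + 1 ≤ 2 * (1 / e + 1) * Real.exp (e * Y) := by
      have := lin_le e0 hY
      push_cast; linarith
    have a3 : Real.exp (e * Y) ^ 3 ≤ Real.exp (ε * Y) := by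
      rw [← Real.exp_nat_mul]
      exact Real.exp_le_exp.2 (by push_cast; nlinarith)
    calc ∑ i ∈ Finset.range N, (2 * |o i|) ^ 2 = 4 * ∑ i ∈ Finset.range N, o i ^ 2 := by
          rw [Finset.mul_sum]; exact Finset.sum_congr rfl fun i _ => by rw [mul_pow, sq_abs]; ring
      _ ≤ 4 * ((2 * (1 / e + 1) * Real.exp (e * Y)) ^ 2 *
          (K₂ * 18 * Real.exp (e * Y) * (N * η * Real.exp Y + X))) := by
          gcongr; exact hs.trans (by gcongr)
      _ = A * Real.exp (e * Y) ^ 3 * (N * η * Real.exp Y + X) := by rw [hA]; ring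
      _ ≤ _ := by gcongr; linarith

namespace Sel

variable {F : Sel} {P : Vo}

theorem H_exp (hd : F.deg = 2) (N : ℕ) (y : ℝ) : F.H P 0 N (Real.exp y) =
    P.ap * (exp (P.ex 2 * y) * tg P.ka (F.cf P) N y) +
      P.am * (exp (P.ex 2 * y) * tg (-P.ka) (F.cf P) N y) := by
  have e : ∀ κ : ℝ, ts 2 κ (F.cf P) 0 N (Real.exp y) = tg κ (F.cf P) N y := fun κ => by
    refine Finset.sum_congr rfl fun n _ => ?_
    rw [Real.mul_rpow (Nat.cast_nonneg n) (Real.exp_pos y).le, ← Real.exp_mul, mul_one_div,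
      mul_assoc κ]
  rw [F.H_eq P 0 N (Real.exp_pos y), hd, px_exp, e, e]
  ring

theorem H_inc (hd : F.deg = 2) (hP : 0 < P.ka) {ε : ℝ} (hε : 0 < ε) : ∃ C : ℝ, 0 < C ∧
    ∀ (N : ℕ) (a L w : ℝ), 0 < w → w ≤ 1 / 2 → 0 ≤ L → L ≤ 1 / 2 → -1 ≤ a →
      ∫ y in a..a + L, ‖F.H P 0 N (Real.exp (y + w)) - F.H P 0 N (Real.exp y)‖ ^ 2 ≤
        C * ((N : ℝ) + 1) ^ ε * (w * L * Real.exp a + 1) := by
  have hβ : (P.ex 2).re = 1 / 4 := by rw [Vo.ex_re, al_two]
  obtain ⟨C₁, c1, h1⟩ := tg_inc hP.ne' hβ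
  obtain ⟨C₂, c2, h2⟩ := tg_inc (neg_ne_zero.2 hP.ne') hβ
  obtain ⟨C₃, c3, h3⟩ := F.cf_le P (ε := ε / 4) (by linarith)
  obtain ⟨C₄, c4, h4⟩ := log_le_rpow (ε := ε / 4) (by linarith)
  refine ⟨2 * (‖P.ap‖ ^ 2 * C₁ + ‖P.am‖ ^ 2 * C₂) * (C₃ * C₄) ^ 2 + 1, by positivity,
    fun N a L w w0 w1 L0 L1 ha => ?_⟩
  have n0 : (0 : ℝ) ≤ N := Nat.cast_nonneg N
  have hc : ∀ n ∈ Finset.Ioc 0 N, ‖F.cf P n‖ ≤
      C₃ * ((N : ℝ) + 1) ^ (ε / 4) * (n : ℝ) ^ (-(3 / 4) : ℝ) := fun n hn => by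
    have hn := Finset.mem_Ioc.1 hn
    have n1 : (0 : ℝ) < n := by exact_mod_cast hn.1
    have n2 : (n : ℝ) ≤ N := by exact_mod_cast hn.2
    refine (h3 n hn.1).trans ?_
    rw [hd, al_two, show 1 / 4 - 1 + ε / 4 = ε / 4 + -(3 / 4) by ring, Real.rpow_add n1,
      ← mul_assoc]
    gcongr
    linarith
  have a1 := h1 _ N _ a L w (by positivity) hc w0 w1 L0 L1 ha
  have a2 := h2 _ N _ a L w (by positivity) hc w0 w1 L0 L1 ha
  have a3 : (C₃ * ((N : ℝ) + 1) ^ (ε / 4)) ^ 2 * (1 + Real.log N) ^ 2 ≤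
      (C₃ * C₄) ^ 2 * ((N : ℝ) + 1) ^ ε := by
    have b1 : 1 + Real.log N ≤ C₄ * ((N : ℝ) + 1) ^ (ε / 4) := by
      refine le_trans ?_ (h4 _ (by linarith))
      rcases Nat.eq_zero_or_pos N with rfl | h
      · simp
      · gcongr
        linarith
    have b2 : ((N : ℝ) + 1) ^ ε = (((N : ℝ) + 1) ^ (ε / 4)) ^ 4 := by
      rw [← Real.rpow_natCast, ← Real.rpow_mul (by linarith)]; congr 1; push_cast; ring
    have b3 := Real.log_natCast_nonneg N
    calc _ ≤ (C₃ * ((N : ℝ) + 1) ^ (ε / 4)) ^ 2 * (C₄ * ((N : ℝ) + 1) ^ (ε / 4)) ^ 2 := by gcongr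
      _ = _ := by rw [b2]; ring
  have k1 := tg_cont P.ka (F.cf P) N
  have k2 := tg_cont (-P.ka) (F.cf P) N
  set U := ((N : ℝ) + 1) ^ ε * (w * L * Real.exp a + 1) with hU
  have U0 : 0 ≤ U := by positivity
  have a4 : (C₃ * ((N : ℝ) + 1) ^ (ε / 4)) ^ 2 * (1 + Real.log N) ^ 2 * (w * L * Real.exp a + 1) ≤
      (C₃ * C₄) ^ 2 * U := by rw [hU, ← mul_assoc]; gcongr
  have a5 := add_le_add (mul_le_mul_of_nonneg_left (a1.trans (mul_le_mul_of_nonneg_left a4 c1.le))
    (by positivity : 0 ≤ 2 * ‖P.ap‖ ^ 2)) (mul_le_mul_of_nonneg_left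
      (a2.trans (mul_le_mul_of_nonneg_left a4 c2.le)) (by positivity : 0 ≤ 2 * ‖P.am‖ ^ 2))
  rw [← intervalIntegral.integral_const_mul, ← intervalIntegral.integral_const_mul,
    ← intervalIntegral.integral_add (Continuous.intervalIntegrable (by fun_prop) _ _)
      (Continuous.intervalIntegrable (by fun_prop) _ _)] at a5
  simp only [H_exp hd]
  rw [mul_assoc, ← hU]
  refine (intervalIntegral.integral_mono_on (by linarith)
    (Continuous.intervalIntegrable (by fun_prop) _ _)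
    (Continuous.intervalIntegrable (by fun_prop) _ _) fun y _ => ?_).trans (a5.trans (by linarith))
  rw [add_sub_add_comm, ← mul_sub, ← mul_sub]
  refine (pow_le_pow_left₀ (norm_nonneg _)
    (norm_add_le_of_le (norm_mul _ _).le (norm_mul _ _).le) 2).trans ?_
  generalize ‖_ - exp (P.ex 2 * y) * tg P.ka (F.cf P) N y‖ = x
  generalize ‖_ - exp (P.ex 2 * y) * tg (-P.ka) (F.cf P) N y‖ = z
  nlinarith [sq_nonneg (‖P.ap‖ * x - ‖P.am‖ * z)]

theorem var2 (hd : F.deg = 2) (hV : Var F.gE 0) : Var2 F.gE := by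
  refine var2_of F.lip hV fun κ ε κ0 κ1 ε0 ε1 => ?_
  obtain ⟨P, hP, h1⟩ := F.vor hd.ge
  obtain ⟨C₁, c1, h1⟩ := h1 ε ε0
  obtain ⟨C₂, c2, h2⟩ := F.B_near ε0
  obtain ⟨C₃, c3, h3⟩ := H_inc hd hP (ε := ε / 3) (by linarith)
  refine ⟨C₁ + C₂ + 4 * C₃, by positivity, fun p hp => ?_⟩
  set W := Real.exp ((3 / 4 + κ) * p) with hW
  have W0 : 0 < W := Real.exp_pos _
  have W1 : 1 ≤ W := Real.one_le_exp (by positivity)
  have W2 : W ≤ Real.exp p := Real.exp_le_exp.2 (by nlinarith)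
  have W3 : √(Real.exp p) ≤ W := by
    rw [← Real.exp_half]; exact Real.exp_le_exp.2 (by nlinarith)
  set N := ⌊W ^ F.deg * Real.exp p ^ (ε - 1)⌋₊ with hN
  have cH : Continuous fun y => F.H P 0 N (Real.exp y) :=
    (F.H_cont P 0 N).comp_continuous Real.continuous_exp Real.exp_pos
  have cA : Continuous fun y => av W (F.H P 0 N) (Real.exp y) :=
    (av_cont (F.H_cont P 0 N)).comp_continuous Real.continuous_exp Real.exp_pos
  have cG := continuous_re.comp cA
  refine ⟨fun y => (av W (F.H P 0 N) (Real.exp y)).re, ⟨cG.measurable, fun Y =>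
    isCompact_Icc.exists_bound_of_continuousOn cG.continuousOn⟩, fun y hy => ?_,
    fun L w w0 w1 L0 L1 => ?_⟩
  · have hx : Real.exp y ∈ Icc (Real.exp p) (2 * Real.exp p) := by
      refine ⟨Real.exp_le_exp.2 hy.1, (Real.exp_le_exp.2 hy.2).trans ?_⟩
      have e : Real.exp (1 / 2) ^ 2 = Real.exp 1 := by rw [← Real.exp_nat_mul]; norm_num
      have : Real.exp (1 / 2) ≤ 2 := by nlinarith [Real.exp_pos (1 / 2), Real.exp_one_lt_d9]
      rw [Real.exp_add, mul_comm]
      gcongr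
    have a1 := h1 _ W (Real.one_le_exp hp) W3 W2 _ hx
    have a2 := h2 _ W W1 W2 _ hx
    rw [show F.deg / 2 - 1 = 0 by rw [hd]; norm_num, Real.rpow_zero, mul_one,
      ← Real.exp_mul p ε] at a1
    rw [hW, ← Real.exp_sub, ← Real.exp_mul, mul_assoc, ← Real.exp_add, ← hW,
      show p * ε + (p - (3 / 4 + κ) * p) = (1 / 4 - κ + ε) * p by ring] at a2
    have a3 : Real.exp (p * ε) ≤ Real.exp ((1 / 4 - κ + ε) * p) := Real.exp_le_exp.2 (by nlinarith)
    rw [gE, ← sub_re]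
    refine (abs_re_le_norm _).trans ((norm_sub_le_norm_sub_add_norm_sub _ (F.B W (Real.exp y)) _).trans ?_)
    refine (add_le_add a2 (a1.trans (mul_le_mul_of_nonneg_left a3 c1.le))).trans ?_
    rw [← add_mul]
    exact mul_le_mul_of_nonneg_right (by linarith) (Real.exp_pos _).le
  · have n1 : (N : ℝ) + 1 ≤ 2 * Real.exp (3 * p) := by
      have b1 : (N : ℝ) ≤ Real.exp (3 * p) := by
        refine (Nat.floor_le (by positivity)).trans ?_
        rw [hW, ← Real.exp_mul, ← Real.exp_mul, ← Real.exp_add, hd]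
        exact Real.exp_le_exp.2 (by nlinarith)
      linarith [Real.one_le_exp (by linarith : 0 ≤ 3 * p)]
    have n2 : ((N : ℝ) + 1) ^ (ε / 3) ≤ 2 * Real.exp (ε * p) := by
      calc _ ≤ (2 * Real.exp (3 * p)) ^ (ε / 3) := by gcongr
        _ = 2 ^ (ε / 3) * Real.exp (ε * p) := by
          rw [Real.mul_rpow zero_le_two (Real.exp_pos _).le, ← Real.exp_mul]; congr 2; ring
        _ ≤ _ := by
          gcongr
          simpa using Real.rpow_le_rpow_of_exponent_le one_le_two (by linarith : ε / 3 ≤ 1)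
    have a1 := conv_sq (F := fun y => F.H P 0 N (Real.exp (y + w)) - F.H P 0 N (Real.exp y))
      ((cH.comp (continuous_add_const w)).sub cH) (continuous_ph W) (fun s => (ph_pos W0 s).le)
      (by norm_num) (by linarith : p ≤ p + L) one_pos (av_mass W0)
      (Z := 4 * C₃ * Real.exp (ε * p) * (w * L * Real.exp p + 1)) fun s hs => by
        rw [intervalIntegral.integral_comp_add_right (fun y =>
          ‖F.H P 0 N (Real.exp (y + w)) - F.H P 0 N (Real.exp y)‖ ^ 2), add_right_comm]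
        refine (h3 N _ L w w0 w1 L0 L1 (by linarith [hs.1])).trans ?_
        have b1 : Real.exp (p + s) ≤ 2 * Real.exp p := by
          rw [Real.exp_add, mul_comm]; gcongr; exact (av_mem hs).2
        calc _ ≤ C₃ * (2 * Real.exp (ε * p)) * (w * L * (2 * Real.exp p) + 2) := by
              gcongr; norm_num
          _ = _ := by ring
    have e : ∀ y, av W (F.H P 0 N) (Real.exp (y + w)) - av W (F.H P 0 N) (Real.exp y) =
        ∫ s in (-1 / 5 : ℝ)..(1 / 5), (ph W s : ℂ) *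
          (F.H P 0 N (Real.exp (y + s + w)) - F.H P 0 N (Real.exp (y + s))) := fun y => by
      have cp := continuous_ph W
      simp only [av, ← Real.exp_add, mul_sub, add_right_comm y w]
      rw [intervalIntegral.integral_sub]
      · exact ((continuous_ofReal.comp cp).mul (cH.comp (by fun_prop))).intervalIntegrable _ _
      · exact ((continuous_ofReal.comp cp).mul (cH.comp (by fun_prop))).intervalIntegrable _ _
    simp only [← e] at a1
    have cD := (cA.comp (continuous_add_const w)).sub cA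
    refine (intervalIntegral.integral_mono_on (by linarith)
      ((((cG.comp (continuous_add_const w)).sub cG).pow 2).intervalIntegrable _ _)
      ((cD.norm.pow 2).intervalIntegrable _ _) fun y _ => ?_).trans (a1.trans ?_)
    · exact (sq_abs _).symm.trans_le (pow_le_pow_left₀ (abs_nonneg _) (abs_re_le_norm
        (av W (F.H P 0 N) (Real.exp (y + w)) - av W (F.H P 0 N) (Real.exp y))) 2)
    · rw [one_pow, one_mul]
      gcongr
      linarith

end Sel

end Pool.Agent.Lib.MP_2a1a00_nt
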