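import Pool.Agent.Lib.MP_2a1a00_nt.S.Defs

/-! The Plancherel formula for functions in `L¹ ∩ L²`. -/

namespace Pool.Agent.Lib.MP_2a1a00_nt

open MeasureTheory Set FourierTransform

theorem pl_cont {G : ℝ → ℂ} (h1 : Integrable G) : Continuous (𝓕 G) :=
  VectorFourier.fourierIntegral_continuous Real.continuous_fourierChar
    (continuous_inner (𝕜 := ℝ)) h1

theorem pl_ae (G : ℝ → ℂ) (h1 : Integrable G) (h2 : MemLp G 2) :
    (𝓕 (h2.toLp G) : Lp ℂ 2 (volume : Measure ℝ)) =ᵐ[volume] 𝓕 G := by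
  apply ae_eq_of_integral_contDiff_smul_eq
  · exact (Lp.memLp _).locallyIntegrable (by norm_num)
  · exact (pl_cont h1).locallyIntegrable
  intro g hg hgc
  have hg₁ : HasCompactSupport (Complex.ofRealCLM ∘ g) := hgc.comp_left rfl
  have hg₂ : ContDiff ℝ (⊤ : ℕ∞) (Complex.ofRealCLM ∘ g) := by fun_prop
  set ψ : SchwartzMap ℝ ℂ := hg₁.toSchwartzMap hg₂ with hψ
  have e1 := congrArg (fun F : TemperedDistribution ℝ ℂ => F ψ)
    (Lp.fourier_toTemperedDistribution_eq (h2.toLp G))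
  simp only [TemperedDistribution.fourier_apply, Lp.toTemperedDistribution_apply] at e1
  have e2 : ∫ x, (𝓕 ψ) x • (h2.toLp G) x = ∫ x, (𝓕 (ψ : ℝ → ℂ)) x • G x := by
    apply integral_congr_ae
    filter_upwards [h2.coeFn_toLp] with x hx
    rw [hx, SchwartzMap.fourier_coe]
  have e3 : ∫ x, (𝓕 (ψ : ℝ → ℂ)) x • G x = ∫ x, ψ x • (𝓕 G) x := by
    have := VectorFourier.integral_fourierIntegral_smul_eq_flip (μ := (volume : Measure ℝ))
      (ν := (volume : Measure ℝ)) (L := innerₗ ℝ) (e := Real.fourierChar) (f := (ψ : ℝ → ℂ)) (g := G)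
      Real.continuous_fourierChar (continuous_inner (𝕜 := ℝ)) ψ.integrable h1
    rw [flip_innerₗ] at this
    exact this
  have e4 : ∀ (K : ℝ → ℂ), ∫ x, g x • K x = ∫ x, ψ x • K x := by
    intro K
    congr 1
  rw [e4, e4, ← e1, e2, e3]

theorem pl_eq (G : ℝ → ℂ) (h1 : Integrable G) (h2 : MemLp G 2) :
    MemLp (𝓕 G) 2 ∧ ∫ ξ, ‖𝓕 G ξ‖ ^ 2 = ∫ x, ‖G x‖ ^ 2 := by
  have hae := pl_ae G h1 h2
  refine ⟨(Lp.memLp _).ae_eq hae, ?_⟩
  have e : ∀ f : Lp ℂ 2 (volume : Measure ℝ), ∫ x, ‖f x‖ ^ 2 = ‖f‖ ^ 2 := by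
    intro f
    have := L2.inner_def (𝕜 := ℂ) f f
    rw [inner_self_eq_norm_sq_to_K] at this
    simp only [inner_self_eq_norm_sq_to_K] at this
    have h3 : (∫ x, ((‖f x‖ : ℂ)) ^ 2) = ((∫ x, ‖f x‖ ^ 2 : ℝ) : ℂ) := by
      rw [← integral_complex_ofReal]; simp
    have h4 : ((‖f‖ ^ 2 : ℝ) : ℂ) = ((∫ x, ‖f x‖ ^ 2 : ℝ) : ℂ) := by
      rw [← h3]; push_cast; exact this
    exact_mod_cast h4.symm
  calc ∫ ξ, ‖𝓕 G ξ‖ ^ 2 = ∫ ξ, ‖(𝓕 (h2.toLp G) : Lp ℂ 2 (volume : Measure ℝ)) ξ‖ ^ 2 := by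
        apply integral_congr_ae
        filter_upwards [hae] with x hx
        rw [hx]
    _ = ‖h2.toLp G‖ ^ 2 := by rw [e, Lp.norm_fourier_eq]
    _ = ∫ x, ‖G x‖ ^ 2 := by
        rw [← e]
        apply integral_congr_ae
        filter_upwards [h2.coeFn_toLp] with x hx
        rw [hx]

theorem ft_eq (G : ℝ → ℂ) (t : ℝ) : ft G t = 𝓕 G ((2 * Real.pi)⁻¹ * t) := by
  rw [Real.fourier_real_eq_integral_exp_smul, ft]
  refine integral_congr_ae (ae_of_all _ fun x => ?_)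
  have e : -2 * Real.pi * x * ((2 * Real.pi)⁻¹ * t) = -(t * x) := by field_simp
  simp only [smul_eq_mul]
  rw [e, mul_comm, Complex.ofReal_neg]

theorem planch {G : ℝ → ℂ} (h1 : Integrable G) (h2 : MemLp G 2) :
    Integrable (fun t => ‖ft G t‖ ^ 2) ∧
      ∫ t, ‖ft G t‖ ^ 2 = 2 * Real.pi * ∫ y, ‖G y‖ ^ 2 := by
  obtain ⟨p1, p2⟩ := pl_eq G h1 h2
  have hc : ((2 * Real.pi)⁻¹ : ℝ) ≠ 0 := inv_ne_zero (by positivity)
  simp only [ft_eq]
  refine ⟨(p1.integrable_norm_pow two_ne_zero).comp_mul_left' hc, ?_⟩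
  rw [Measure.integral_comp_mul_left (fun ξ => ‖𝓕 G ξ‖ ^ 2), p2, inv_inv,
    abs_of_pos (by positivity), smul_eq_mul]

theorem ft_cont {G : ℝ → ℂ} (h1 : Integrable G) : Continuous (ft G) := by
  rw [show ft G = _ from funext (ft_eq G)]
  exact (pl_cont h1).comp (continuous_const.mul continuous_id)

theorem ft_int {G : ℝ → ℂ} (h1 : Integrable G) (t : ℝ) :
    Integrable fun y => G y * Complex.exp (-(t * y : ℝ) * Complex.I) :=
  h1.mul_bdd (c := 1) (Continuous.aestronglyMeasurable (by fun_prop)) (ae_of_all _ fun y => by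
    rw [← Complex.ofReal_neg, Complex.norm_exp_ofReal_mul_I])

theorem ft_shift {G : ℝ → ℂ} (h1 : Integrable G) (v t : ℝ) :
    ft (fun y => G (y + v) - G y) t =
      (Complex.exp ((t * v : ℝ) * Complex.I) - 1) * ft G t := by
  simp only [ft, sub_mul, one_mul]
  rw [integral_sub (ft_int (h1.comp_add_right v) t) (ft_int h1 t), ← integral_const_mul,
    ← integral_add_right_eq_self (fun y => Complex.exp ((t * v : ℝ) * Complex.I) *
      (G y * Complex.exp (-(t * y : ℝ) * Complex.I))) v]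
  congr 2
  funext y
  rw [mul_left_comm, ← Complex.exp_add]
  congr 2
  push_cast
  ring

/-- `|exp (i x) - 1| ≤ min 2 |x|` -/
theorem exp_inc {ε : ℝ} (h0 : 0 < ε) (h1 : ε ≤ 1) (x : ℝ) :
    ‖Complex.exp (x * Complex.I) - 1‖ ^ 2 ≤ 4 * |x| ^ (1 - ε) := by
  rcases le_total |x| 1 with h | h
  · have a1 : ‖Complex.exp (x * Complex.I) - 1‖ ≤ |x| := by
      rw [mul_comm]; exact Real.norm_exp_I_mul_ofReal_sub_one_le
    have a2 : |x| ^ 2 ≤ |x| ^ (1 - ε) := by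
      rw [← Real.rpow_natCast]
      exact Real.rpow_le_rpow_of_exponent_ge' (abs_nonneg x) h (by linarith)
        (by push_cast; linarith)
    have a3 := pow_le_pow_left₀ (norm_nonneg _) a1 2
    have : 0 ≤ |x| ^ (1 - ε) := by positivity
    linarith
  · have a1 : ‖Complex.exp (x * Complex.I) - 1‖ ≤ 1 + 1 :=
      norm_sub_le_of_le (Complex.norm_exp_ofReal_mul_I x).le norm_one.le
    have a2 : 1 ≤ |x| ^ (1 - ε) := Real.one_le_rpow h (by linarith)
    have a3 := pow_le_pow_left₀ (norm_nonneg _) a1 2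
    linarith

theorem ft_inc {G : ℝ → ℂ} (h1 : Integrable G) (h2 : MemLp G 2) {ε : ℝ} (h0 : 0 < ε) (hε : ε ≤ 1)
    (h : Integrable fun t => |t| ^ (1 - ε) * ‖ft G t‖ ^ 2) :
    ∃ K : ℝ, 0 ≤ K ∧ ∀ v : ℝ, 0 < v → ∫ y, ‖G (y + v) - G y‖ ^ 2 ≤ K * v ^ (1 - ε) := by
  set J := ∫ t, |t| ^ (1 - ε) * ‖ft G t‖ ^ 2 with hJ
  have J0 : 0 ≤ J := integral_nonneg fun t => by positivity
  refine ⟨4 * J, by positivity, fun v hv => ?_⟩
  obtain ⟨p1, p2⟩ := planch (G := fun y => G (y + v) - G y) ((h1.comp_add_right v).sub h1)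
    ((h2.comp_measurePreserving (measurePreserving_add_right volume v)).sub h2)
  have a1 := integral_mono p1 (h.const_mul (4 * v ^ (1 - ε))) fun t => by
    have := exp_inc h0 hε (t * v)
    rw [abs_mul, abs_of_pos hv, Real.mul_rpow (abs_nonneg t) hv.le] at this
    simp only [ft_shift h1, norm_mul, mul_pow]
    refine (mul_le_mul_of_nonneg_right this (sq_nonneg _)).trans_eq (by ring)
  rw [p2, integral_const_mul, ← hJ] at a1
  have a2 : 0 ≤ ∫ y, ‖G (y + v) - G y‖ ^ 2 := integral_nonneg fun _ => sq_nonneg _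
  nlinarith [Real.pi_gt_three]

end Pool.Agent.Lib.MP_2a1a00_nt
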