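import Pool.Agent.Lib.MP_2a1a00_nt.S.Lw

/-! Towers of error terms. -/

namespace Pool.Agent.Lib.MP_2a1a00_nt

open MeasureTheory Set Polynomial

/-- The real part of the integrand in the logarithmic variable. -/
noncomputable def lg (w : ℝ → ℂ) (y : ℝ) : ℝ := Real.exp y * (w (Real.exp y)).re

theorem mt_C (a c : ℝ) (R : ℝ[X]) (y : ℝ) : mt a (C c * R) y = c * mt a R y := by
  simp only [mt, eval_mul, eval_C]; ring

theorem mt_int (a c : ℝ) (Q : ℝ[X]) (Y : ℝ) :
    ∫ y in (0 : ℝ)..Y, mt a (C c * (C a * Q + derivative Q)) y =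
      c * (Real.exp Y ^ a * Q.eval Y) - c * Q.eval 0 := by
  simp only [mt_C]
  rw [intervalIntegral.integral_const_mul, intervalIntegral.integral_eq_sub_of_hasDerivAt
    (fun y _ => mt_der a Q y) ((mt_cont _ _).intervalIntegrable _ _), ← Real.exp_mul, mul_comm Y]
  simp [mt, mul_sub]

theorem ga_of {w : ℝ → ℂ} {a e K : ℝ} {c : ℂ} {Q : ℝ[X]}
    (hi : ∀ T : ℝ, 1 ≤ T → IntervalIntegrable w volume 1 T)
    (h : ∀ T : ℝ, 1 ≤ T → ‖(∫ x in (1 : ℝ)..T, w x) - c * (T ^ a * Q.eval (Real.log T) : ℝ)‖ ≤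
      K * T ^ e) : LI (lg w) ∧ GA (lg w) a (C c.re * (C a * Q + derivative Q)) e := by
  have i0 := fun Y (hY : 0 ≤ Y) => (cv_exp w hY).2.1 (hi _ (Real.one_le_exp hY))
  have e0 : lg w = fun y => Complex.reCLM (Real.exp y • w (Real.exp y)) := by
    funext y; rw [map_smul]; rfl
  have i1 : ∀ Y, 0 ≤ Y → IntervalIntegrable (lg w) volume 0 Y := fun Y hY =>
    e0 ▸ ⟨Complex.reCLM.integrable_comp (i0 Y hY).1, Complex.reCLM.integrable_comp (i0 Y hY).2⟩
  refine ⟨fun p q hp hq => (i1 p hp).symm.trans (i1 q hq), K, c.re * Q.eval 0, fun Y hY => ?_⟩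
  have := (Complex.abs_re_le_norm _).trans (h _ (Real.one_le_exp hY))
  rw [Complex.sub_re, Complex.re_mul_ofReal, Real.log_exp, (cv_exp w hY).1, ← Real.exp_mul Y e,
    mul_comm Y] at this
  rw [intervalIntegral.integral_sub (i1 Y hY) ((mt_cont _ _).intervalIntegrable _ _), mt_int, e0,
    Complex.reCLM.intervalIntegral_comp_comm (i0 Y hY)]
  refine le_of_eq_of_le ?_ this
  rw [Complex.reCLM_apply]
  congr 1
  ring

theorem asy_of {h : ℝ → ℂ} {a u c : ℝ} {P Q : ℝ[X]} (hr : ∀ x, 0 < x → (h x).im = 0)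
    (hW : LI (lg h)) (ha : 0 < a) (hu : 0 ≤ u) (h1 : Q.degree = P.degree)
    (hQ : C a * Q + derivative Q = P + derivative P)
    (hs : SI (lg h) a (C c * (P + derivative P)) u) : Asy h a c P := by
  obtain ⟨δ, d0, d1, K, hK⟩ := si_end hW hs hu ha
  have e0 : (fun y => Real.exp y • h (Real.exp y)) = fun y => (lg h y : ℂ) := by
    funext y
    exact Complex.ext (by simp [lg]) (by simp [hr _ (Real.exp_pos y)])
  refine ⟨fun T hT => ?_, Q, h1, hQ, δ, d0, K + |c * Q.eval 0|, fun T hT => ?_⟩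
  · have hY := Real.log_nonneg hT
    rw [← Real.exp_log (by linarith : 0 < T), (cv_exp h hY).2, e0]
    exact ⟨(hW 0 _ le_rfl hY).1.ofReal, (hW 0 _ le_rfl hY).2.ofReal⟩
  · obtain ⟨Y, hY, rfl⟩ : ∃ Y, 0 ≤ Y ∧ Real.exp Y = T :=
      ⟨_, Real.log_nonneg hT, Real.exp_log (by linarith)⟩
    have := hK Y hY
    rw [intervalIntegral.integral_sub (hW 0 Y le_rfl hY) ((mt_cont _ _).intervalIntegrable _ _),
      ← hQ, mt_int] at this
    rw [(cv_exp h hY).1, e0, intervalIntegral.integral_ofReal, ← Complex.ofReal_mul,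
      ← Complex.ofReal_sub, Complex.norm_real, Real.log_exp, ← Real.exp_mul Y (a - δ), mul_comm Y,
      Real.norm_eq_abs, abs_le]
    have a1 : |c * Q.eval 0| ≤ |c * Q.eval 0| * Real.exp ((a - δ) * Y) :=
      le_mul_of_one_le_right (abs_nonneg _) (Real.one_le_exp (by nlinarith))
    rw [abs_le] at this
    constructor <;> linarith [this.1, this.2, le_abs_self (c * Q.eval 0),
      neg_abs_le (c * Q.eval 0)]

namespace Sel

variable {F : Sel} {l : ℕ} {c : ℂ} {δ u v : ℝ}

theorem RE.eq (h : F.RE) (y : ℝ) : F.E (Real.exp y) = F.gE y :=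
  Complex.ext (by simp [gE]) (by simp [h _ (Real.exp_pos y)])

theorem ex_pos (hd : 2 ≤ F.deg) (hl : 2 ≤ l) : 0 < F.ex l := by
  have : (2 : ℝ) ≤ l := by exact_mod_cast hl
  exact div_pos (mul_pos (by linarith) (by linarith)) (by linarith)

theorem Mom.ga (h : F.Mom l c δ) (hr : F.RE) {ε : ℝ} (hε : 0 < ε) :
    GA (fun y => Real.exp y * F.gE y ^ l) (1 + F.ex l) (C ((1 + F.ex l) * c.re))
      (1 + F.ex l - δ + ε) := by
  obtain ⟨K, hK⟩ := h ε hε
  have := (ga_of (Q := 1) (a := 1 + F.ex l) (fun T hT => (hy_int F F F l 0 le_rfl hT).2)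
    (by simpa using hK)).2
  have e : lg (fun x => F.E x ^ l) = fun y => Real.exp y * F.gE y ^ l := by
    funext y; rw [lg, hr.eq, ← Complex.ofReal_pow, Complex.ofReal_re]
  rwa [e, derivative_one, mul_one, add_zero, ← C_mul, mul_comm] at this

theorem Mom.im (h : F.Mom l c δ) (hr : F.RE) (hδ : 0 < δ) : c.im = 0 := by
  obtain ⟨K, hK⟩ := h (δ / 2) (by linarith)
  have key : ∀ T : ℝ, 1 ≤ T → |c.im| ≤ K * T ^ (-(δ / 2)) := fun T hT => by
    have T0 : 0 < T := by linarith
    have e : ∫ x in (1 : ℝ)..T, F.E x ^ l = ((∫ x in (1 : ℝ)..T, (F.E x).re ^ l : ℝ) : ℂ) := by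
      rw [← intervalIntegral.integral_ofReal]
      refine intervalIntegral.integral_congr fun x hx => ?_
      have := hr.eq (Real.log x)
      rw [gE, Real.exp_log (one_pos.trans_le ((le_min le_rfl hT).trans hx.1))] at this
      simp only [Complex.ofReal_pow, ← this]
    have := (Complex.abs_im_le_norm _).trans (hK T hT)
    rw [e, Complex.sub_im, Complex.ofReal_im, zero_sub, abs_neg, Complex.im_mul_ofReal, abs_mul,
      abs_of_pos (Real.rpow_pos_of_pos T0 _), show 1 + F.ex l - δ + δ / 2 = -(δ / 2) + (1 + F.ex l)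
        by ring, Real.rpow_add T0 (-(δ / 2)), ← mul_assoc] at this
    exact le_of_mul_le_mul_right this (Real.rpow_pos_of_pos T0 _)
  have := ge_of_tendsto ((tendsto_rpow_neg_atTop (half_pos hδ)).const_mul K)
    ((Filter.eventually_ge_atTop 1).mono key)
  simpa using this

theorem h2_of (hr : F.RE) (hl : 2 ≤ l) (hu : 0 ≤ u) (h : Am F.gE l (F.ex l) u) :
    F.H2 ((F.deg - 1) / (2 * F.deg)) := by
  intro ε hε
  obtain ⟨K, k0, hK⟩ := h ε hε
  refine ⟨1 + K, by positivity, fun Y hY => ?_⟩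
  set β := (F.deg - 1) / (2 * F.deg) with hβ
  obtain ⟨k, rfl⟩ := Nat.exists_eq_add_of_le' hl
  have eb : F.ex (k + 2) = (k + 2) * β := by rw [ex, hβ]; push_cast; ring
  have a1 := hK Y Y (Y + 1) hY le_rfl le_rfl (by
    rw [add_sub_cancel_left]; exact Real.exp_le_one_iff.2 (by nlinarith))
  set t := Real.exp (β * Y) with ht
  have t0 : 0 < t := Real.exp_pos _
  have i1 := (F.lb.abs.pow (k + 2)).li Y (Y + 1) hY (by linarith)
  have a2 := intervalIntegral.integral_mono_on (μ := volume) (by linarith)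
    (((F.lb_norm.pow 2).li Y (Y + 1) hY (by linarith)).const_mul (t ^ k))
    ((intervalIntegrable_const (c := t ^ (k + 2))).add i1) fun y _ => by
      rw [hr.eq, Complex.norm_real, Real.norm_eq_abs, pow_add, pow_add]
      rcases le_total |F.gE y| t with h | h
      · exact le_add_of_le_of_nonneg (by gcongr) (by positivity)
      · exact le_add_of_nonneg_of_le (by positivity) (by gcongr)
  rw [intervalIntegral.integral_const_mul, intervalIntegral.integral_add intervalIntegrable_const i1,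
    intervalIntegral.integral_const, add_sub_cancel_left, one_smul] at a2
  have e1 : Real.exp ((F.ex (k + 2) + ε) * Y) = t ^ k * Real.exp ((2 * β + ε) * Y) := by
    rw [ht, ← Real.exp_nat_mul, ← Real.exp_add, eb]; congr 1; ring
  have e2 : t ^ 2 ≤ Real.exp ((2 * β + ε) * Y) := by
    rw [ht, ← Real.exp_nat_mul]; exact Real.exp_le_exp.2 (by push_cast; nlinarith)
  rw [add_sub_cancel_left, one_mul, e1] at a1
  refine le_of_mul_le_mul_left (a2.trans ?_) (pow_pos t0 k)
  have := mul_le_mul_of_nonneg_left e2 (pow_pos t0 k).le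
  rw [pow_add]
  nlinarith

theorem osc_of (hd : 2 ≤ F.deg) (hl : 2 ≤ l) (h : F.H2 ((F.deg - 1) / (2 * F.deg)))
    (hs : Step F.deg l v u) : Osc F.gE l (F.ex l) v u := by
  have l0 : (2 : ℝ) ≤ l := by exact_mod_cast hl
  have d0 : 0 < F.deg := by linarith
  have hc : (F.deg + 1) / (2 * F.deg) < v → Osc F.gE l (F.ex l) v u := fun hv => by
    refine osc_c F.lip (ex_pos hd hl) ?_
    have : (F.deg + 1) / (2 * F.deg) = 1 - (F.deg - 1) / (2 * F.deg) := by field_simp; ring
    rw [ex, mul_div_assoc]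
    exact mul_lt_mul_of_pos_left (by linarith) (by linarith)
  rcases le_or_gt v 1 with hv | hv
  swap
  · exact hc (((div_le_one (by linarith)).2 (by linarith)).trans_lt hv)
  rcases hs.2 with h1 | h1 | ⟨h1, h2⟩
  · refine osc_a (var_of F.lb F.lip (by positivity) (inc_gen hd h)) hl hv ?_
    have : l * (1 + 1 / F.deg) / 2 - F.ex l = l / F.deg := by rw [ex]; field_simp; ring
    linarith
  · exact hc h1
  · rcases le_or_gt v (3 / 4) with h3 | h3
    · rw [show F.ex l = l / 4 by rw [ex, h1]; ring]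
      exact osc_d (var2 h1 (var_of F.lb F.lip le_rfl (inc_two h1 h))) F.lip hl h3 h2
    · exact hc (by rw [h1]; linarith)

theorem step {W : ℝ → ℝ} {a : ℝ} {R : ℝ[X]} (hW : LI W) (h0 : ∀ y, 0 ≤ W y) (h : SI W a R v)
    (hr : F.RE) (hd : 2 ≤ F.deg) (he : Even l) (hl : 2 ≤ l) (hm : F.Mom l c δ) (hu : 0 ≤ u)
    (hδ : u < δ) (hs : Step F.deg l v u) :
    SI (fun y => W y * F.gE y ^ l) (a + F.ex l) (C ((1 + F.ex l) * c.re) * R) u := by
  have hG := hm.ga hr (half_pos (sub_pos.2 hδ))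
  have hA := am_of (u := u) F.lb he hG (by linarith)
  exact si_step hW h0 F.lb hA (by omega) h (osc_of hd hl (h2_of hr hl hu hA) hs) hG hs.1
    (by linarith)

end Sel

variable {F : ℕ → Sel} {l : ℕ → ℕ} {c : ℕ → ℂ} {δ u : ℕ → ℝ} {i k : ℕ}

theorem Chain.le (h : Chain F l δ u i k) {j : ℕ} (hi : i ≤ j) (hj : j ≤ k) : u k ≤ u j := by
  induction k, hj using Nat.le_induction with
  | base => exact le_rfl
  | succ k hk ih =>
    exact (h k (hi.trans hk) k.lt_succ_self).2.1.trans (ih fun m a b => h m a (by omega))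

theorem lb_prod (F : ℕ → Sel) (l : ℕ → ℕ) (k : ℕ) :
    LB fun y => ∏ j ∈ Finset.range k, (F j).gE y ^ l j := by
  induction k with
  | zero => exact ⟨by simp, fun _ => ⟨1, by simp⟩⟩
  | succ k ih =>
    simp only [Finset.prod_range_succ]
    have h := (F k).lb.pow (l k)
    refine ⟨ih.1.mul h.1, fun Y => ?_⟩
    obtain ⟨A, hA⟩ := ih.2 Y
    obtain ⟨B, hB⟩ := h.2 Y
    exact ⟨A * B, fun y hy => by
      rw [abs_mul]
      exact mul_le_mul (hA y hy) (hB y hy) (abs_nonneg _) ((abs_nonneg _).trans (hA y hy))⟩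

theorem tower {W : ℝ → ℝ} {R : ℝ[X]} (hW : LI W) (h0 : ∀ y, 0 ≤ W y) (hik : i ≤ k)
    (hF : ∀ j < k, (F j).RE ∧ 2 ≤ (F j).deg ∧ Even (l j) ∧ 2 ≤ l j ∧ (F j).Mom (l j) (c j) (δ j))
    (hu : 0 ≤ u k) (hc : Chain F l δ u i k)
    (h : SI (fun y => W y * ∏ j ∈ Finset.range i, (F j).gE y ^ l j)
      (1 + ∑ j ∈ Finset.range i, (F j).ex (l j))
      (C (∏ j ∈ Finset.range i, (1 + (F j).ex (l j)) * (c j).re) * R) (u i)) :
    SI (fun y => W y * ∏ j ∈ Finset.range k, (F j).gE y ^ l j)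
      (1 + ∑ j ∈ Finset.range k, (F j).ex (l j))
      (C (∏ j ∈ Finset.range k, (1 + (F j).ex (l j)) * (c j).re) * R) (u k) := by
  induction k, hik using Nat.le_induction with
  | base => exact h
  | succ k hk ih =>
    obtain ⟨a1, a2, a3, a4, a5⟩ := hF k k.lt_succ_self
    obtain ⟨b1, b2⟩ := hc k hk k.lt_succ_self
    have := Sel.step (hW.mul (lb_prod F l k)) (fun y => mul_nonneg (h0 y) (Finset.prod_nonneg
      fun j hj => (hF j (by have := Finset.mem_range.1 hj; omega)).2.2.1.pow_nonneg _))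
      (ih (fun j hj => hF j (by omega)) (hu.trans b2.1) fun j a b => hc j a (by omega))
      a1 a2 a3 a4 a5 hu b1 b2
    simp only [Finset.prod_range_succ, Finset.sum_range_succ]
    rw [← mul_assoc, ← C_mul, mul_comm _ (Finset.prod _ _), add_assoc] at this
    simpa only [mul_assoc] using this

end Pool.Agent.Lib.MP_2a1a00_nt
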